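import Mathlib

/-!
# The `p`-intersection number of complete bipartite graphs: definitions
-/

set_option autoImplicit false

namespace Helper61.PInt

/-- `S` is a `p`-intersection representation of `G` on a `t`-element set: distinct vertices are
adjacent if and only if their sets share at least `p` elements. -/
def IsPRep {V : Type} (p : ℕ) (G : SimpleGraph V) {t : ℕ} (S : V → Finset (Fin t)) : Prop :=
  ∀ u v : V, u ≠ v → (G.Adj u v ↔ p ≤ (S u ∩ S v).card)

/-- The `p`-intersection number of `G`: the least `t` such that `G` has a `p`-intersection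
representation on a `t`-element set. -/
noncomputable def theta {V : Type} (p : ℕ) (G : SimpleGraph V) : ℕ :=
  sInf {t : ℕ | ∃ S : V → Finset (Fin t), IsPRep p G S}

/-- The convex body `D`: all `(u, v, w)` with `u, v, w ≥ 0` and
`u * i * j - v * i * (i - 1) - w * j * (j - 1) ≤ 1` for all natural numbers `i`, `j`. -/
def D : Set (ℝ × ℝ × ℝ) :=
  {d | 0 ≤ d.1 ∧ 0 ≤ d.2.1 ∧ 0 ≤ d.2.2 ∧ ∀ i j : ℕ,
    d.1 * ((i : ℝ) * (j : ℝ)) - d.2.1 * ((i : ℝ) * ((i : ℝ) - 1)) -
      d.2.2 * ((j : ℝ) * ((j : ℝ) - 1)) ≤ 1}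

/-- The explicit value
`g(a, b, p) = max {p u a b - (p - 1) (v a (a - 1) + w b (b - 1)) : (u, v, w) ∈ D}`. -/
noncomputable def g (a b : ℝ) (p : ℕ) : ℝ :=
  sSup ((fun d : ℝ × ℝ × ℝ => (p : ℝ) * d.1 * (a * b) -
    ((p : ℝ) - 1) * (d.2.1 * (a * (a - 1)) + d.2.2 * (b * (b - 1)))) '' D)

end Helper61.PInt
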