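import Mathlib

/-!
# Families of sets with prescribed pairwise intersections: basic operations
-/

set_option autoImplicit false

namespace Helper61.PInt

open Finset

/-- vertices on different sides share at least `P` elements, different vertices on the same
side share at most `R`. -/
def Good {V ι : Type*} [DecidableEq ι] (side : V → Bool) (P R : ℕ) (S : V → Finset ι) : Prop :=
  (∀ u v, side u ≠ side v → P ≤ (S u ∩ S v).card) ∧
  (∀ u v, u ≠ v → side u = side v → (S u ∩ S v).card ≤ R)

theorem disjSum_inter' {α β : Type*} [DecidableEq α] [DecidableEq β] (s s' : Finset α)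
    (t t' : Finset β) : (s.disjSum t) ∩ (s'.disjSum t') = (s ∩ s').disjSum (t ∩ t') := by
  ext a
  cases a <;> simp

theorem patch {V ι : Type*} [DecidableEq ι] [DecidableEq V] (side : V → Bool) (P R K : ℕ)
    (S : V → Finset ι) (Bad : Finset (V × V))
    (hin : ∀ u v, u ≠ v → side u = side v → (S u ∩ S v).card ≤ R)
    (hcr : ∀ u v, side u ≠ side v →
      P ≤ (S u ∩ S v).card + (if (u, v) ∈ Bad ∨ (v, u) ∈ Bad then K else 0)) :
    ∃ S' : V → Finset (ι ⊕ (Bad × Fin K)), Good side P R S' := by
  let t : V → Finset (Bad × Fin K) := fun w =>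
    univ.filter (fun b : Bad × Fin K => side b.1.1.1 ≠ side b.1.1.2 ∧
      (w = b.1.1.1 ∨ w = b.1.1.2))
  refine ⟨fun w => (S w).disjSum (t w), ?_, ?_⟩
  · intro u v huv
    rw [disjSum_inter', Finset.card_disjSum]
    refine (hcr u v huv).trans (Nat.add_le_add_left ?_ _)
    split_ifs with h
    · rcases h with h | h
      · let f : Fin K → Bad × Fin K := fun k => (⟨(u, v), h⟩, k)
        have hf : Function.Injective f := fun a b hab => (Prod.mk.inj hab).2
        calc K = (univ.image f).card := by
              rw [Finset.card_image_of_injective _ hf]; simp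
          _ ≤ _ := by
              apply Finset.card_le_card
              intro b hb
              obtain ⟨k, _, rfl⟩ := Finset.mem_image.mp hb
              simp [t, f, huv]
      · let f : Fin K → Bad × Fin K := fun k => (⟨(v, u), h⟩, k)
        have hf : Function.Injective f := fun a b hab => (Prod.mk.inj hab).2
        calc K = (univ.image f).card := by
              rw [Finset.card_image_of_injective _ hf]; simp
          _ ≤ _ := by
              apply Finset.card_le_card
              intro b hb
              obtain ⟨k, _, rfl⟩ := Finset.mem_image.mp hb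
              simp [t, f, huv.symm]
    · exact Nat.zero_le _
  · intro u v hne huv
    rw [disjSum_inter', Finset.card_disjSum]
    have : t u ∩ t v = ∅ := by
      ext b
      simp only [t, mem_inter, mem_filter, mem_univ, true_and, notMem_empty, iff_false]
      rintro ⟨⟨h0, h1⟩, _, h2⟩
      rcases h1 with h1 | h1 <;> rcases h2 with h2 | h2
      · exact hne (h1.trans h2.symm)
      · apply h0; rw [← h1, ← h2]; exact huv
      · apply h0; rw [← h1, ← h2]; exact huv.symm
      · exact hne (h1.trans h2.symm)
    rw [this]
    simpa using hin u v hne huv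

/-- `Cov a b P R t`: there is a family of `t` sets (dual form) on `Fin a ⊕ Fin b`. -/
def Cov (a b P R t : ℕ) : Prop :=
  ∃ S : Fin a ⊕ Fin b → Finset (Fin t), Good Sum.isLeft P R S

theorem Good.restrict {V W ι : Type*} [DecidableEq ι] {side : V → Bool} {P R : ℕ}
    {S : V → Finset ι} (h : Good side P R S) (side' : W → Bool) (f : W → V)
    (hf : Function.Injective f) (hs : ∀ w, side (f w) = side' w) :
    Good side' P R (fun w => S (f w)) := by
  refine ⟨?_, ?_⟩
  · intro u v huv
    apply h.1
    rwa [hs, hs]
  · intro u v hne huv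
    apply h.2 _ _ (fun h' => hne (hf h'))
    rwa [hs, hs]

theorem Good.index {V ι κ : Type*} [DecidableEq ι] [DecidableEq κ] {side : V → Bool} {P R : ℕ}
    {S : V → Finset ι} (h : Good side P R S) (e : ι ↪ κ) :
    Good side P R (fun w => (S w).map e) := by
  refine ⟨?_, ?_⟩
  · intro u v huv
    rw [← Finset.map_inter, Finset.card_map]
    exact h.1 u v huv
  · intro u v hne huv
    rw [← Finset.map_inter, Finset.card_map]
    exact h.2 u v hne huv

theorem Cov.of {V ι : Type*} [Fintype ι] [DecidableEq ι] {side : V → Bool} {P R : ℕ}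
    {S : V → Finset ι} (h : Good side P R S) {a b t : ℕ} (fa : Fin a → V) (fb : Fin b → V)
    (ha : Function.Injective fa) (hb : Function.Injective fb) (sa : ∀ x, side (fa x) = true)
    (sb : ∀ x, side (fb x) = false) (ht : Fintype.card ι ≤ t) : Cov a b P R t := by
  classical
  have e : ι ↪ Fin t := (Fintype.equivFin ι).toEmbedding.trans (Fin.castLEEmb ht)
  have hinj : Function.Injective (Sum.elim fa fb) := by
    apply Function.Injective.sumElim ha hb
    intro x y hxy
    have := sa x
    rw [hxy, sb y] at this
    exact absurd this (by simp)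
  refine ⟨fun w => (S (Sum.elim fa fb w)).map e, ?_⟩
  apply Good.index
  apply Good.restrict h _ _ hinj
  rintro (x | x)
  · simp [sa]
  · simp [sb]

theorem Cov.mono {a b P R t a' b' t' : ℕ} (h : Cov a b P R t) (ha : a' ≤ a) (hb : b' ≤ b)
    (ht : t ≤ t') : Cov a' b' P R t' := by
  obtain ⟨S, hS⟩ := h
  refine Cov.of hS (fun x => Sum.inl (Fin.castLE ha x)) (fun x => Sum.inr (Fin.castLE hb x))
    ?_ ?_ (fun _ => rfl) (fun _ => rfl) (by simpa using ht)
  · intro x y hxy
    exact Fin.castLE_injective ha (Sum.inl.inj hxy)
  · intro x y hxy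
    exact Fin.castLE_injective hb (Sum.inr.inj hxy)

/-- blow-up bookkeeping: a good family on `(Fin a ⊕ Fin b) × Γ` (after identifying the base
vertices with `Fin (a + b)`). -/
theorem Cov.of_blowup {a b P R : ℕ} {Γ ι : Type*} [Fintype Γ] [Fintype ι] [DecidableEq ι]
    (S : Fin (a + b) × Γ → Finset ι)
    (h : Good (fun w => (finSumFinEquiv.symm w.1 : Fin a ⊕ Fin b).isLeft) P R S) {t : ℕ}
    (ht : Fintype.card ι ≤ t) :
    Cov (a * Fintype.card Γ) (b * Fintype.card Γ) P R t := by
  classical
  let e := Fintype.equivFin Γ
  refine Cov.of h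
    (fun x => (finSumFinEquiv (Sum.inl (finProdFinEquiv.symm x).1),
      e.symm (finProdFinEquiv.symm x).2))
    (fun x => (finSumFinEquiv (Sum.inr (finProdFinEquiv.symm x).1),
      e.symm (finProdFinEquiv.symm x).2)) ?_ ?_ ?_ ?_ ht
  · intro x y hxy
    simp only [Prod.mk.injEq, EmbeddingLike.apply_eq_iff_eq, Sum.inl.injEq] at hxy
    exact finProdFinEquiv.symm.injective (Prod.ext hxy.1 hxy.2)
  · intro x y hxy
    simp only [Prod.mk.injEq, EmbeddingLike.apply_eq_iff_eq, Sum.inr.injEq] at hxy
    exact finProdFinEquiv.symm.injective (Prod.ext hxy.1 hxy.2)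
  · intro x; simp
  · intro x; simp

end Helper61.PInt
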