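import Mathlib
import Pool.Agent.Lib_helper61.PInt.Defs
import Pool.Agent.Lib_helper61.PInt.Basic

/-!
# The linear program and the lower bound
-/

set_option autoImplicit false

namespace Helper61.PInt

open Finset

/-- Feasible solutions of the linear program: nonnegative weights `x (i, j)`, finitely many of
them nonzero, with `∑ x (i, j) * i * j ≥ p`, `∑ x (i, j) * i * (i - 1) ≤ (p - 1) * l` and
`∑ x (i, j) * j * (j - 1) ≤ (p - 1) / l`. -/
structure Feasible (p : ℕ) (l : ℝ) (x : ℕ × ℕ →₀ ℝ) : Prop where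
  nonneg : ∀ q, 0 ≤ x q
  cross : (p : ℝ) ≤ x.sum fun q w => w * ((q.1 : ℝ) * (q.2 : ℝ))
  left : (x.sum fun q w => w * ((q.1 : ℝ) * ((q.1 : ℝ) - 1))) ≤ ((p : ℝ) - 1) * l
  right : (x.sum fun q w => w * ((q.2 : ℝ) * ((q.2 : ℝ) - 1))) ≤ ((p : ℝ) - 1) / l

/-- The value of the linear program: the infimum of `∑ x (i, j)` over all feasible `x`. -/
noncomputable def T (p : ℕ) (l : ℝ) : ℝ :=
  sInf {s : ℝ | ∃ x : ℕ × ℕ →₀ ℝ, Feasible p l x ∧ (x.sum fun _ w => w) = s}

theorem Feasible.sum_nonneg {p : ℕ} {l : ℝ} {x : ℕ × ℕ →₀ ℝ} (h : Feasible p l x) :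
    0 ≤ x.sum fun _ w => w := Finsupp.sum_nonneg (fun q _ => h.nonneg q)

theorem bddBelow (p : ℕ) (l : ℝ) :
    BddBelow {s : ℝ | ∃ x : ℕ × ℕ →₀ ℝ, Feasible p l x ∧ (x.sum fun _ w => w) = s} := by
  refine ⟨0, ?_⟩
  rintro s ⟨x, hx, rfl⟩
  exact hx.sum_nonneg

theorem feasible_single (p : ℕ) (hp : 1 ≤ p) (l : ℝ) (hl : 0 < l) :
    Feasible p l (Finsupp.single (1, 1) (p : ℝ)) := by
  have hp' : (1 : ℝ) ≤ p := by exact_mod_cast hp
  refine ⟨?_, ?_, ?_, ?_⟩
  · intro q
    rw [Finsupp.single_apply]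
    split_ifs
    · positivity
    · exact le_rfl
  · rw [Finsupp.sum_single_index (by simp)]
    simp
  · rw [Finsupp.sum_single_index (by simp)]
    have : 0 ≤ ((p : ℝ) - 1) * l := mul_nonneg (by linarith) hl.le
    simpa using this
  · rw [Finsupp.sum_single_index (by simp)]
    have : 0 ≤ ((p : ℝ) - 1) / l := div_nonneg (by linarith) hl.le
    simpa using this

theorem T_le {p : ℕ} {l : ℝ} {x : ℕ × ℕ →₀ ℝ} (h : Feasible p l x) :
    T p l ≤ x.sum fun _ w => w := csInf_le (bddBelow p l) ⟨x, h, rfl⟩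

theorem T_nonneg (p : ℕ) (l : ℝ) : 0 ≤ T p l := by
  apply Real.sInf_nonneg
  rintro s ⟨x, hx, rfl⟩
  exact hx.sum_nonneg

theorem exists_near (p : ℕ) (hp : 1 ≤ p) (l : ℝ) (hl : 0 < l) (ε : ℝ) (hε : 0 < ε) :
    ∃ x, Feasible p l x ∧ (x.sum fun _ w => w) < T p l + ε := by
  have hne : {s : ℝ | ∃ x : ℕ × ℕ →₀ ℝ, Feasible p l x ∧ (x.sum fun _ w => w) = s}.Nonempty :=
    ⟨_, _, feasible_single p hp l hl, rfl⟩
  obtain ⟨s, ⟨x, hx, rfl⟩, hs⟩ := exists_lt_of_csInf_lt hne
    (show sInf _ < T p l + ε by change T p l < _; linarith)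
  exact ⟨x, hx, hs⟩

/-- `T` is positive: a simple dual solution. -/
theorem T_pos (p : ℕ) (hp : 1 ≤ p) (l : ℝ) (hl : 0 < l) : 0 < T p l := by
  have hp' : (1 : ℝ) ≤ p := by exact_mod_cast hp
  have hbound : ∀ x, Feasible p l x → 2 / (p * (l + 1 / l)) ≤ x.sum fun _ w => w := by
    intro x hx
    -- dual solution
    set κ : ℝ := 2 / (p * (l + 1 / l)) with hκ
    have hκ0 : 0 < κ := by positivity
    have hf : ∀ q : ℕ × ℕ, 2 * κ * (1 - 1 / (2 * p)) * ((q.1 : ℝ) * q.2) -
        κ / l * ((q.1 : ℝ) * ((q.1 : ℝ) - 1)) - κ * l * ((q.2 : ℝ) * ((q.2 : ℝ) - 1)) ≤ 1 := by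
      rintro ⟨i, j⟩
      simp only
      set a : ℝ := (i : ℝ) with ha
      set b : ℝ := (j : ℝ) with hb
      have ha0 : 0 ≤ a := by positivity
      have hb0 : 0 ≤ b := by positivity
      -- 2ab ≤ a²/l + l b²
      have h1 : 2 * (a * b) ≤ a ^ 2 / l + l * b ^ 2 := by
        have : 0 ≤ (a - l * b) ^ 2 / l := by positivity
        have e : (a - l * b) ^ 2 / l = a ^ 2 / l - 2 * (a * b) + l * b ^ 2 := by
          field_simp; ring
        linarith
      have hc : 0 ≤ 1 - 1 / (2 * (p : ℝ)) := by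
        have : 1 / (2 * (p : ℝ)) ≤ 1 := by
          rw [div_le_one (by positivity)]; linarith
        linarith
      have h2 : 2 * κ * (1 - 1 / (2 * p)) * (a * b) ≤
          κ * (1 - 1 / (2 * p)) * (a ^ 2 / l + l * b ^ 2) := by
        have := mul_le_mul_of_nonneg_left h1 (mul_nonneg hκ0.le hc)
        linarith
      have h3 : κ * (1 - 1 / (2 * p)) * (a ^ 2 / l + l * b ^ 2) - κ / l * (a * (a - 1)) -
          κ * l * (b * (b - 1)) =
          κ * (a / l + l * b - (a ^ 2 / l + l * b ^ 2) / (2 * p)) := by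
        field_simp
        ring
      have h4 : a / l - a ^ 2 / l / (2 * p) ≤ (p : ℝ) / (2 * l) := by
        have : 0 ≤ (a - p) ^ 2 / (2 * p * l) := by positivity
        have e : (a - p) ^ 2 / (2 * p * l) = (p : ℝ) / (2 * l) - (a / l - a ^ 2 / l / (2 * p)) := by
          field_simp; ring
        linarith
      have h5 : l * b - l * b ^ 2 / (2 * p) ≤ (p : ℝ) * l / 2 := by
        have : 0 ≤ l * (b - p) ^ 2 / (2 * p) := by positivity
        have e : l * (b - p) ^ 2 / (2 * p) = (p : ℝ) * l / 2 - (l * b - l * b ^ 2 / (2 * p)) := by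
          field_simp; ring
        linarith
      have h6 : κ * (a / l + l * b - (a ^ 2 / l + l * b ^ 2) / (2 * p)) ≤
          κ * ((p : ℝ) / (2 * l) + (p : ℝ) * l / 2) := by
        apply mul_le_mul_of_nonneg_left _ hκ0.le
        have e : (a ^ 2 / l + l * b ^ 2) / (2 * p) = a ^ 2 / l / (2 * p) + l * b ^ 2 / (2 * p) := by
          rw [add_div]
        linarith
      have h7 : κ * ((p : ℝ) / (2 * l) + (p : ℝ) * l / 2) = 1 := by
        rw [hκ]; field_simp; ring
      linarith
    have hs : (x.sum fun q w => w * (2 * κ * (1 - 1 / (2 * p)) * ((q.1 : ℝ) * q.2) -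
        κ / l * ((q.1 : ℝ) * ((q.1 : ℝ) - 1)) - κ * l * ((q.2 : ℝ) * ((q.2 : ℝ) - 1)))) ≤
        x.sum fun _ w => w := by
      apply Finset.sum_le_sum
      intro q _
      have := mul_le_mul_of_nonneg_left (hf q) (hx.nonneg q)
      linarith
    have he : (x.sum fun q w => w * (2 * κ * (1 - 1 / (2 * p)) * ((q.1 : ℝ) * q.2) -
        κ / l * ((q.1 : ℝ) * ((q.1 : ℝ) - 1)) - κ * l * ((q.2 : ℝ) * ((q.2 : ℝ) - 1)))) =
        2 * κ * (1 - 1 / (2 * p)) * (x.sum fun q w => w * ((q.1 : ℝ) * q.2)) -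
        κ / l * (x.sum fun q w => w * ((q.1 : ℝ) * ((q.1 : ℝ) - 1))) -
        κ * l * (x.sum fun q w => w * ((q.2 : ℝ) * ((q.2 : ℝ) - 1))) := by
      simp only [Finsupp.sum, Finset.mul_sum, ← Finset.sum_sub_distrib]
      apply Finset.sum_congr rfl
      intro q _
      ring
    have hc : 0 ≤ 1 - 1 / (2 * (p : ℝ)) := by
      have : 1 / (2 * (p : ℝ)) ≤ 1 := by
        rw [div_le_one (by positivity)]; linarith
      linarith
    have g1 := mul_le_mul_of_nonneg_left hx.cross
      (show 0 ≤ 2 * κ * (1 - 1 / (2 * (p : ℝ))) by positivity)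
    have g2 := mul_le_mul_of_nonneg_left hx.left (show 0 ≤ κ / l by positivity)
    have g3 := mul_le_mul_of_nonneg_left hx.right (show 0 ≤ κ * l by positivity)
    have g4 : 2 * κ * (1 - 1 / (2 * (p : ℝ))) * p - κ / l * (((p : ℝ) - 1) * l) -
        κ * l * (((p : ℝ) - 1) / l) = κ := by
      field_simp
      ring
    linarith
  have hne : {s : ℝ | ∃ x : ℕ × ℕ →₀ ℝ, Feasible p l x ∧ (x.sum fun _ w => w) = s}.Nonempty :=
    ⟨_, _, feasible_single p hp l hl, rfl⟩
  have : 2 / (p * (l + 1 / l)) ≤ T p l := by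
    apply le_csInf hne
    rintro s ⟨x, hx, rfl⟩
    exact hbound x hx
  exact lt_of_lt_of_le (by positivity) this

/-- semicontinuity of `T` -/
theorem T_scale (p : ℕ) (hp : 1 ≤ p) (l l' θ : ℝ) (hl : 0 < l) (hl' : 0 < l') (hθ0 : 0 ≤ θ)
    (hθ1 : θ ≤ 1) (h1 : θ * l' ≤ l) (h2 : θ * l ≤ l') :
    T p l ≤ T p l' + (1 - θ) * p := by
  have hp' : (1 : ℝ) ≤ p := by exact_mod_cast hp
  apply le_of_forall_pos_le_add
  intro ε hε
  obtain ⟨x, hx, hxs⟩ := exists_near p hp l' hl' ε hε
  have hnn : 0 ≤ (1 - θ) * (p : ℝ) := mul_nonneg (by linarith) (by positivity)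
  have hy : Feasible p l (θ • x + Finsupp.single (1, 1) ((1 - θ) * p)) := by
    refine ⟨?_, ?_, ?_, ?_⟩
    · intro q
      simp only [Finsupp.coe_add, Finsupp.coe_smul, Pi.add_apply, Pi.smul_apply, smul_eq_mul,
        Finsupp.single_apply]
      have := mul_nonneg hθ0 (hx.nonneg q)
      split_ifs
      · linarith
      · linarith
    · rw [Finsupp.sum_add_index' (by simp) (by intros; ring), Finsupp.sum_smul_index (by simp),
        Finsupp.sum_single_index (by simp)]
      have : (x.sum fun q w => θ * w * ((q.1 : ℝ) * (q.2 : ℝ))) =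
          θ * x.sum fun q w => w * ((q.1 : ℝ) * (q.2 : ℝ)) := by
        simp only [Finsupp.sum, Finset.mul_sum, mul_assoc]
      rw [this]
      have h3 := mul_le_mul_of_nonneg_left hx.cross hθ0
      simp only [Nat.cast_one, mul_one]
      linarith
    · rw [Finsupp.sum_add_index' (by simp) (by intros; ring), Finsupp.sum_smul_index (by simp),
        Finsupp.sum_single_index (by simp)]
      have : (x.sum fun q w => θ * w * ((q.1 : ℝ) * ((q.1 : ℝ) - 1))) =
          θ * x.sum fun q w => w * ((q.1 : ℝ) * ((q.1 : ℝ) - 1)) := by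
        simp only [Finsupp.sum, Finset.mul_sum, mul_assoc]
      rw [this]
      have h3 := mul_le_mul_of_nonneg_left hx.left hθ0
      have h4 : θ * (((p : ℝ) - 1) * l') ≤ ((p : ℝ) - 1) * l := by
        have := mul_le_mul_of_nonneg_left h1 (show 0 ≤ (p : ℝ) - 1 by linarith)
        linarith
      simp only [Nat.cast_one, sub_self, mul_zero, add_zero]
      linarith
    · rw [Finsupp.sum_add_index' (by simp) (by intros; ring), Finsupp.sum_smul_index (by simp),
        Finsupp.sum_single_index (by simp)]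
      have : (x.sum fun q w => θ * w * ((q.2 : ℝ) * ((q.2 : ℝ) - 1))) =
          θ * x.sum fun q w => w * ((q.2 : ℝ) * ((q.2 : ℝ) - 1)) := by
        simp only [Finsupp.sum, Finset.mul_sum, mul_assoc]
      rw [this]
      have h3 := mul_le_mul_of_nonneg_left hx.right hθ0
      have h4 : θ * (((p : ℝ) - 1) / l') ≤ ((p : ℝ) - 1) / l := by
        rw [← mul_div_assoc, div_le_div_iff₀ hl' hl]
        have := mul_le_mul_of_nonneg_left h2 (show 0 ≤ (p : ℝ) - 1 by linarith)
        linarith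
      simp only [Nat.cast_one, sub_self, mul_zero, add_zero]
      linarith
  have h5 := T_le hy
  rw [Finsupp.sum_add_index' (by simp) (by intros; rfl), Finsupp.sum_smul_index (by simp),
    Finsupp.sum_single_index (by simp)] at h5
  have : (x.sum fun _ w => θ * w) = θ * x.sum fun _ w => w := by
    simp only [Finsupp.sum, Finset.mul_sum]
  rw [this] at h5
  have h6 : θ * (x.sum fun _ w => w) ≤ x.sum fun _ w => w := by
    have := hx.sum_nonneg
    nlinarith
  linarith

/-- number of left vertices of the `k`-th set -/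
def αc {a b t : ℕ} (S : Fin a ⊕ Fin b → Finset (Fin t)) (k : Fin t) : ℕ :=
  (univ.filter (fun x : Fin a => k ∈ S (Sum.inl x))).card

/-- number of right vertices of the `k`-th set -/
def βc {a b t : ℕ} (S : Fin a ⊕ Fin b → Finset (Fin t)) (k : Fin t) : ℕ :=
  (univ.filter (fun y : Fin b => k ∈ S (Sum.inr y))).card

theorem double_count {a b t : ℕ} (S : Fin a ⊕ Fin b → Finset (Fin t)) :
    (∑ k : Fin t, ((αc S k : ℝ) * (βc S k : ℝ))) =
      ∑ u : Fin a, ∑ v : Fin b, ((S (Sum.inl u) ∩ S (Sum.inr v)).card : ℝ) ∧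
    (∑ k : Fin t, ((αc S k : ℝ) * ((αc S k : ℝ) - 1))) =
      ∑ u : Fin a, ∑ v ∈ univ.erase u, ((S (Sum.inl u) ∩ S (Sum.inl v)).card : ℝ) ∧
    (∑ k : Fin t, ((βc S k : ℝ) * ((βc S k : ℝ) - 1))) =
      ∑ u : Fin b, ∑ v ∈ univ.erase u, ((S (Sum.inr u) ∩ S (Sum.inr v)).card : ℝ) := by
  classical
  let α : Fin t → ℕ := αc S
  let β : Fin t → ℕ := βc S
  have hcross : (∑ k : Fin t, ((α k : ℝ) * (β k : ℝ))) =
      ∑ u : Fin a, ∑ v : Fin b, ((S (Sum.inl u) ∩ S (Sum.inr v)).card : ℝ) := by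
    have : ∀ k : Fin t, ((α k : ℝ) * (β k : ℝ)) = ∑ u : Fin a, ∑ v : Fin b,
        (if k ∈ S (Sum.inl u) ∩ S (Sum.inr v) then (1 : ℝ) else 0) := by
      intro k
      simp only [α, β, αc, βc, Finset.card_filter]
      push_cast
      rw [Finset.sum_mul_sum]
      apply Finset.sum_congr rfl; intro u _
      apply Finset.sum_congr rfl; intro v _
      by_cases h1 : k ∈ S (Sum.inl u) <;> by_cases h2 : k ∈ S (Sum.inr v) <;>
        simp [h1, h2]
    rw [Finset.sum_congr rfl (fun k _ => this k), Finset.sum_comm]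
    apply Finset.sum_congr rfl; intro u _
    rw [Finset.sum_comm]
    apply Finset.sum_congr rfl; intro v _
    rw [Finset.sum_ite_mem]
    simp
  have hleft : (∑ k : Fin t, ((α k : ℝ) * ((α k : ℝ) - 1))) =
      ∑ u : Fin a, ∑ v ∈ univ.erase u, ((S (Sum.inl u) ∩ S (Sum.inl v)).card : ℝ) := by
    have : ∀ k : Fin t, ((α k : ℝ) * ((α k : ℝ) - 1)) = ∑ u : Fin a, ∑ v ∈ univ.erase u,
        (if k ∈ S (Sum.inl u) ∩ S (Sum.inl v) then (1 : ℝ) else 0) := by
      intro k
      have h0 : (α k : ℝ) = ∑ u : Fin a, (if k ∈ S (Sum.inl u) then (1 : ℝ) else 0) := by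
        simp only [α, αc, Finset.card_filter]; push_cast; rfl
      have h1 : ∀ u : Fin a, ∑ v ∈ univ.erase u,
          (if k ∈ S (Sum.inl u) ∩ S (Sum.inl v) then (1 : ℝ) else 0) =
          (if k ∈ S (Sum.inl u) then (1 : ℝ) else 0) * ((α k : ℝ) - 1) := by
        intro u
        by_cases hu : k ∈ S (Sum.inl u)
        · simp only [mem_inter, hu, true_and, if_true, one_mul]
          rw [h0, ← Finset.add_sum_erase univ _ (mem_univ u)]
          simp [hu]
        · simp [hu]
      rw [Finset.sum_congr rfl (fun u _ => h1 u), ← Finset.sum_mul, ← h0]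
    rw [Finset.sum_congr rfl (fun k _ => this k), Finset.sum_comm]
    apply Finset.sum_congr rfl; intro u _
    rw [Finset.sum_comm]
    apply Finset.sum_congr rfl; intro v _
    rw [Finset.sum_ite_mem]
    simp
  have hright : (∑ k : Fin t, ((β k : ℝ) * ((β k : ℝ) - 1))) =
      ∑ u : Fin b, ∑ v ∈ univ.erase u, ((S (Sum.inr u) ∩ S (Sum.inr v)).card : ℝ) := by
    have : ∀ k : Fin t, ((β k : ℝ) * ((β k : ℝ) - 1)) = ∑ u : Fin b, ∑ v ∈ univ.erase u,
        (if k ∈ S (Sum.inr u) ∩ S (Sum.inr v) then (1 : ℝ) else 0) := by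
      intro k
      have h0 : (β k : ℝ) = ∑ u : Fin b, (if k ∈ S (Sum.inr u) then (1 : ℝ) else 0) := by
        simp only [β, βc, Finset.card_filter]; push_cast; rfl
      have h1 : ∀ u : Fin b, ∑ v ∈ univ.erase u,
          (if k ∈ S (Sum.inr u) ∩ S (Sum.inr v) then (1 : ℝ) else 0) =
          (if k ∈ S (Sum.inr u) then (1 : ℝ) else 0) * ((β k : ℝ) - 1) := by
        intro u
        by_cases hu : k ∈ S (Sum.inr u)
        · simp only [mem_inter, hu, true_and, if_true, one_mul]
          rw [h0, ← Finset.add_sum_erase univ _ (mem_univ u)]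
          simp [hu]
        · simp [hu]
      rw [Finset.sum_congr rfl (fun u _ => h1 u), ← Finset.sum_mul, ← h0]
    rw [Finset.sum_congr rfl (fun k _ => this k), Finset.sum_comm]
    apply Finset.sum_congr rfl; intro u _
    rw [Finset.sum_comm]
    apply Finset.sum_congr rfl; intro v _
    rw [Finset.sum_ite_mem]
    simp
  exact ⟨hcross, hleft, hright⟩

/-- **Lower bound**: every cover family gives a feasible solution. -/
theorem lower {a b p t : ℕ} (hp : 1 ≤ p) (ha : 0 < a) (hb : 0 < b) (h : Cov a b p (p - 1) t) :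
    T p ((a : ℝ) / b) * (a * b) ≤ t := by
  classical
  obtain ⟨S, hS⟩ := h
  have ha' : (0 : ℝ) < a := by exact_mod_cast ha
  have hb' : (0 : ℝ) < b := by exact_mod_cast hb
  have hab : (0 : ℝ) < a * b := by positivity
  let α : Fin t → ℕ := αc S
  let β : Fin t → ℕ := βc S
  let x : ℕ × ℕ →₀ ℝ := ∑ k : Fin t, Finsupp.single (α k, β k) (1 / ((a : ℝ) * b))
  have hsum : ∀ f : ℕ × ℕ → ℝ, (x.sum fun q w => w * f q) =
      (1 / ((a : ℝ) * b)) * ∑ k : Fin t, f (α k, β k) := by
    intro f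
    have h1 : (x.sum fun q w => w * f q) =
        ∑ k : Fin t, (Finsupp.single (α k, β k) (1 / ((a : ℝ) * b))).sum
          (fun q w => w * f q) := by
      simp only [x]
      rw [Finsupp.sum_finsetSum_index (h := fun q w => w * f q)]
      · intro q; simp
      · intro q w w'; ring
    rw [h1, Finset.mul_sum]
    apply Finset.sum_congr rfl
    intro k _
    rw [Finsupp.sum_single_index (by simp)]
  obtain ⟨hcross, hleft, hright⟩ := double_count S
  have hp1 : ((p - 1 : ℕ) : ℝ) = (p : ℝ) - 1 := by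
    rw [Nat.cast_sub hp]; simp
  have hx : Feasible p ((a : ℝ) / b) x := by
    refine ⟨?_, ?_, ?_, ?_⟩
    · intro q
      simp only [x]
      rw [Finsupp.finsetSum_apply]
      apply Finset.sum_nonneg
      intro k _
      rw [Finsupp.single_apply]
      split_ifs
      · positivity
      · exact le_rfl
    · rw [hsum (fun q => (q.1 : ℝ) * (q.2 : ℝ)), hcross]
      rw [one_div, inv_mul_eq_div, le_div_iff₀ hab]
      calc (p : ℝ) * (a * b) = ∑ u : Fin a, ∑ v : Fin b, (p : ℝ) := by
            simp; ring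
        _ ≤ _ := by
            apply Finset.sum_le_sum; intro u _
            apply Finset.sum_le_sum; intro v _
            exact_mod_cast hS.1 (Sum.inl u) (Sum.inr v) (by simp)
    · rw [hsum (fun q => (q.1 : ℝ) * ((q.1 : ℝ) - 1)), hleft]
      rw [one_div, inv_mul_eq_div, div_le_iff₀ hab]
      calc _ ≤ ∑ u : Fin a, ∑ v ∈ univ.erase u, ((p : ℝ) - 1) := by
            apply Finset.sum_le_sum; intro u _
            apply Finset.sum_le_sum; intro v hv
            rw [← hp1]
            exact_mod_cast hS.2 (Sum.inl u) (Sum.inl v)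
              (fun h => Finset.ne_of_mem_erase hv (Sum.inl.inj h).symm) (by simp)
        _ ≤ ∑ u : Fin a, ∑ v : Fin a, ((p : ℝ) - 1) := by
            apply Finset.sum_le_sum; intro u _
            apply Finset.sum_le_sum_of_subset_of_nonneg (Finset.erase_subset _ _)
            intro _ _ _
            have : (1 : ℝ) ≤ p := by exact_mod_cast hp
            linarith
        _ = ((p : ℝ) - 1) * ((a : ℝ) / b) * (a * b) := by
            simp only [Finset.sum_const, Finset.card_univ, Fintype.card_fin, nsmul_eq_mul]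
            field_simp
    · rw [hsum (fun q => (q.2 : ℝ) * ((q.2 : ℝ) - 1)), hright]
      rw [one_div, inv_mul_eq_div, div_le_iff₀ hab]
      calc _ ≤ ∑ u : Fin b, ∑ v ∈ univ.erase u, ((p : ℝ) - 1) := by
            apply Finset.sum_le_sum; intro u _
            apply Finset.sum_le_sum; intro v hv
            rw [← hp1]
            exact_mod_cast hS.2 (Sum.inr u) (Sum.inr v)
              (fun h => Finset.ne_of_mem_erase hv (Sum.inr.inj h).symm) (by simp)
        _ ≤ ∑ u : Fin b, ∑ v : Fin b, ((p : ℝ) - 1) := by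
            apply Finset.sum_le_sum; intro u _
            apply Finset.sum_le_sum_of_subset_of_nonneg (Finset.erase_subset _ _)
            intro _ _ _
            have : (1 : ℝ) ≤ p := by exact_mod_cast hp
            linarith
        _ = ((p : ℝ) - 1) / ((a : ℝ) / b) * (a * b) := by
            simp only [Finset.sum_const, Finset.card_univ, Fintype.card_fin, nsmul_eq_mul]
            field_simp
  have h1 := T_le hx
  have h2 : (x.sum fun _ w => w) = (1 / ((a : ℝ) * b)) * t := by
    have := hsum (fun _ => 1)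
    simpa using this
  rw [h2, one_div, inv_mul_eq_div, le_div_iff₀ hab] at h1
  exact h1

end Helper61.PInt
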