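import Mathlib
import Pool.Agent.Lib_helper61.PInt.LP

/-!
# Strong duality for the linear program
-/

set_option autoImplicit false

namespace Helper61.PInt

open Finset

theorem sum_lin (F : ℕ × ℕ → ℝ) (s t : ℝ) (x y : ℕ × ℕ →₀ ℝ) :
    ((s • x + t • y).sum fun q w => w * F q) =
      s * (x.sum fun q w => w * F q) + t * (y.sum fun q w => w * F q) := by
  rw [Finsupp.sum_add_index' (by simp) (by intros; ring), Finsupp.sum_smul_index (by simp),
    Finsupp.sum_smul_index (by simp)]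
  simp only [Finsupp.sum, Finset.mul_sum, mul_assoc]

/-- weak duality -/
theorem weak {p : ℕ} {l : ℝ} {x : ℕ × ℕ →₀ ℝ} (hx : Feasible p l x)
    {d : ℝ × ℝ × ℝ} (hd : d ∈ D) :
    (p : ℝ) * d.1 - ((p : ℝ) - 1) * (d.2.1 * l + d.2.2 / l) ≤ x.sum fun _ w => w := by
  obtain ⟨h1, h2, h3, h4⟩ := hd
  have hs : (x.sum fun q w => w * (d.1 * ((q.1 : ℝ) * (q.2 : ℝ)) -
      d.2.1 * ((q.1 : ℝ) * ((q.1 : ℝ) - 1)) - d.2.2 * ((q.2 : ℝ) * ((q.2 : ℝ) - 1)))) ≤
      x.sum fun _ w => w := by
    apply Finset.sum_le_sum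
    intro q _
    have := mul_le_mul_of_nonneg_left (h4 q.1 q.2) (hx.nonneg q)
    linarith
  have he : (x.sum fun q w => w * (d.1 * ((q.1 : ℝ) * (q.2 : ℝ)) -
      d.2.1 * ((q.1 : ℝ) * ((q.1 : ℝ) - 1)) - d.2.2 * ((q.2 : ℝ) * ((q.2 : ℝ) - 1)))) =
      d.1 * (x.sum fun q w => w * ((q.1 : ℝ) * (q.2 : ℝ))) -
      d.2.1 * (x.sum fun q w => w * ((q.1 : ℝ) * ((q.1 : ℝ) - 1))) -
      d.2.2 * (x.sum fun q w => w * ((q.2 : ℝ) * ((q.2 : ℝ) - 1))) := by
    simp only [Finsupp.sum, Finset.mul_sum, ← Finset.sum_sub_distrib]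
    apply Finset.sum_congr rfl
    intro q _
    ring
  have g1 := mul_le_mul_of_nonneg_left hx.cross h1
  have g2 := mul_le_mul_of_nonneg_left hx.left h2
  have g3 := mul_le_mul_of_nonneg_left hx.right h3
  have e : (p : ℝ) * d.1 - ((p : ℝ) - 1) * (d.2.1 * l + d.2.2 / l) =
      d.1 * p - d.2.1 * (((p : ℝ) - 1) * l) - d.2.2 * (((p : ℝ) - 1) / l) := by ring
  rw [e]
  linarith

/-- the open convex set of strictly dominated data -/
def Pset : Set (ℝ × ℝ × ℝ × ℝ) :=
  ⋃ x : {x : ℕ × ℕ →₀ ℝ // ∀ q, 0 ≤ x q},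
    (Set.Ioi (x.1.sum fun _ w => w * (1 : ℝ))) ×ˢ
    (Set.Iio (x.1.sum fun q w => w * ((q.1 : ℝ) * (q.2 : ℝ)))) ×ˢ
    (Set.Ioi (x.1.sum fun q w => w * ((q.1 : ℝ) * ((q.1 : ℝ) - 1)))) ×ˢ
    (Set.Ioi (x.1.sum fun q w => w * ((q.2 : ℝ) * ((q.2 : ℝ) - 1))))

theorem mem_Pset (z : ℝ × ℝ × ℝ × ℝ) : z ∈ Pset ↔ ∃ x : ℕ × ℕ →₀ ℝ, (∀ q, 0 ≤ x q) ∧
    (x.sum fun _ w => w * (1 : ℝ)) < z.1 ∧
    z.2.1 < (x.sum fun q w => w * ((q.1 : ℝ) * (q.2 : ℝ))) ∧
    (x.sum fun q w => w * ((q.1 : ℝ) * ((q.1 : ℝ) - 1))) < z.2.2.1 ∧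
    (x.sum fun q w => w * ((q.2 : ℝ) * ((q.2 : ℝ) - 1))) < z.2.2.2 := by
  simp only [Pset, Set.mem_iUnion, Set.mem_prod, Set.mem_Ioi, Set.mem_Iio, Subtype.exists,
    exists_prop]

theorem Pset_open : IsOpen Pset := by
  apply isOpen_iUnion
  intro x
  exact isOpen_Ioi.prod (isOpen_Iio.prod (isOpen_Ioi.prod isOpen_Ioi))

theorem Pset_convex : Convex ℝ Pset := by
  rw [convex_iff_forall_pos]
  intro z hz z' hz' s t hs ht hst
  rw [mem_Pset] at hz hz' ⊢
  obtain ⟨x, hx0, hx1, hx2, hx3, hx4⟩ := hz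
  obtain ⟨y, hy0, hy1, hy2, hy3, hy4⟩ := hz'
  refine ⟨s • x + t • y, ?_, ?_, ?_, ?_, ?_⟩
  · intro q
    simp only [Finsupp.coe_add, Finsupp.coe_smul, Pi.add_apply, Pi.smul_apply, smul_eq_mul]
    exact add_nonneg (mul_nonneg hs.le (hx0 q)) (mul_nonneg ht.le (hy0 q))
  · rw [sum_lin (fun _ => 1)]
    simp only [Prod.fst_add, Prod.smul_fst, smul_eq_mul]
    nlinarith
  · rw [sum_lin (fun q => ((q.1 : ℝ) * (q.2 : ℝ)))]
    simp only [Prod.fst_add, Prod.snd_add, Prod.smul_fst, Prod.smul_snd, smul_eq_mul]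
    nlinarith
  · rw [sum_lin (fun q => ((q.1 : ℝ) * ((q.1 : ℝ) - 1)))]
    simp only [Prod.fst_add, Prod.snd_add, Prod.smul_fst, Prod.smul_snd, smul_eq_mul]
    nlinarith
  · rw [sum_lin (fun q => ((q.2 : ℝ) * ((q.2 : ℝ) - 1)))]
    simp only [Prod.snd_add, Prod.smul_snd, smul_eq_mul]
    nlinarith

/-- strong duality: the optimum is attained in the dual. -/
theorem strong {p : ℕ} (hp : 1 ≤ p) {l : ℝ} (hl : 0 < l) :
    ∃ d ∈ D, T p l ≤ (p : ℝ) * d.1 - ((p : ℝ) - 1) * (d.2.1 * l + d.2.2 / l) := by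
  have hp' : (1 : ℝ) ≤ p := by exact_mod_cast hp
  rcases Nat.eq_or_lt_of_le hp with h1 | h2
  · -- p = 1
    refine ⟨(1, 1, 1), ⟨by norm_num, by norm_num, by norm_num, ?_⟩, ?_⟩
    · intro i j
      simp only [one_mul]
      nlinarith [sq_nonneg ((i : ℝ) - j), sq_nonneg ((i : ℝ) - 1), sq_nonneg ((j : ℝ) - 1)]
    · have h3 := T_le (feasible_single p hp l hl)
      rw [Finsupp.sum_single_index (by rfl)] at h3
      rw [← h1] at h3 ⊢
      simpa using h3
  · have hp2 : (0 : ℝ) < (p : ℝ) - 1 := by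
      have : (1 : ℝ) < p := by exact_mod_cast h2
      linarith
    set z : ℝ × ℝ × ℝ × ℝ := (T p l, (p : ℝ), ((p : ℝ) - 1) * l, ((p : ℝ) - 1) / l) with hz
    have hznot : z ∉ Pset := by
      intro hmem
      rw [mem_Pset] at hmem
      obtain ⟨x, hx0, hx1, hx2, hx3, hx4⟩ := hmem
      have hx : Feasible p l x := ⟨hx0, hx2.le, hx3.le, hx4.le⟩
      have h3 := T_le hx
      simp only [mul_one] at hx1
      exact absurd (lt_of_lt_of_le hx1 h3) (lt_irrefl _)
    obtain ⟨f, hf⟩ := geometric_hahn_banach_open_point Pset_convex Pset_open hznot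
    set φ : ℝ := f (1, 0, 0, 0) with hφ
    set u : ℝ := f (0, 1, 0, 0) with hu
    set v : ℝ := f (0, 0, 1, 0) with hv
    set w : ℝ := f (0, 0, 0, 1) with hw
    have hlin : ∀ a b c e : ℝ, f (a, b, c, e) = a * φ + b * u + c * v + e * w := by
      intro a b c e
      have : ((a, b, c, e) : ℝ × ℝ × ℝ × ℝ) = a • ((1, 0, 0, 0) : ℝ × ℝ × ℝ × ℝ) +
          b • ((0, 1, 0, 0) : ℝ × ℝ × ℝ × ℝ) + c • ((0, 0, 1, 0) : ℝ × ℝ × ℝ × ℝ) +
          e • ((0, 0, 0, 1) : ℝ × ℝ × ℝ × ℝ) := by
        simp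
      rw [this, map_add, map_add, map_add, map_smul, map_smul, map_smul, map_smul]
      simp only [smul_eq_mul]
      rw [← hφ, ← hu, ← hv, ← hw]
    -- the basic inequality
    have hbasic : ∀ (i j : ℕ) (t a b c e : ℝ), 0 ≤ t → 0 < a → 0 < b → 0 < c → 0 < e →
        (t + a) * φ + (t * ((i : ℝ) * j) - b) * u + (t * ((i : ℝ) * ((i : ℝ) - 1)) + c) * v +
          (t * ((j : ℝ) * ((j : ℝ) - 1)) + e) * w < f z := by
      intro i j t a b c e ht ha hb hc he
      rw [← hlin]
      apply hf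
      rw [mem_Pset]
      refine ⟨Finsupp.single (i, j) t, ?_, ?_, ?_, ?_, ?_⟩
      · intro q
        rw [Finsupp.single_apply]; split_ifs
        · exact ht
        · exact le_rfl
      · rw [Finsupp.sum_single_index (by simp)]; simp only; linarith
      · rw [Finsupp.sum_single_index (by simp)]; simp only; linarith
      · rw [Finsupp.sum_single_index (by simp)]; simp only; linarith
      · rw [Finsupp.sum_single_index (by simp)]; simp only; linarith
    -- signs
    have sφ : φ ≤ 0 := by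
      by_contra hcon
      push Not at hcon
      have h3 := hbasic 0 0 0 (1 + (|f z| + |u| + |v| + |w|) / φ) 1 1 1 le_rfl
        (by positivity) one_pos one_pos one_pos
      have h4 : (1 + (|f z| + |u| + |v| + |w|) / φ) * φ = φ + (|f z| + |u| + |v| + |w|) := by
        field_simp
      have h5 := le_abs_self (f z)
      have h6 := le_abs_self u
      have h7 := neg_abs_le v
      have h8 := neg_abs_le w
      simp only [zero_mul, zero_add, zero_sub] at h3
      rw [h4] at h3
      linarith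
    have su : 0 ≤ u := by
      by_contra hcon
      push Not at hcon
      have h3 := hbasic 0 0 0 1 (1 + (|f z| + |φ| + |v| + |w|) / (-u)) 1 1 le_rfl one_pos
        (by have : 0 < -u := by linarith
            positivity) one_pos one_pos
      have hune : u ≠ 0 := hcon.ne
      have h4 : -(1 + (|f z| + |φ| + |v| + |w|) / (-u)) * u = -u + (|f z| + |φ| + |v| + |w|) := by
        field_simp
        ring
      have h5 := le_abs_self (f z)
      have h6 := neg_abs_le φ
      have h7 := neg_abs_le v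
      have h8 := neg_abs_le w
      simp only [zero_mul, zero_add, zero_sub] at h3
      rw [h4] at h3
      linarith
    have sv : v ≤ 0 := by
      by_contra hcon
      push Not at hcon
      have h3 := hbasic 0 0 0 1 1 (1 + (|f z| + |u| + |φ| + |w|) / v) 1 le_rfl one_pos one_pos
        (by positivity) one_pos
      have h4 : (1 + (|f z| + |u| + |φ| + |w|) / v) * v = v + (|f z| + |u| + |φ| + |w|) := by
        field_simp
      have h5 := le_abs_self (f z)
      have h6 := le_abs_self u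
      have h7 := neg_abs_le φ
      have h8 := neg_abs_le w
      simp only [zero_mul, zero_add, zero_sub] at h3
      rw [h4] at h3
      linarith
    have sw : w ≤ 0 := by
      by_contra hcon
      push Not at hcon
      have h3 := hbasic 0 0 0 1 1 1 (1 + (|f z| + |u| + |φ| + |v|) / w) le_rfl one_pos one_pos
        one_pos (by positivity)
      have h4 : (1 + (|f z| + |u| + |φ| + |v|) / w) * w = w + (|f z| + |u| + |φ| + |v|) := by
        field_simp
      have h5 := le_abs_self (f z)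
      have h6 := le_abs_self u
      have h7 := neg_abs_le φ
      have h8 := neg_abs_le v
      simp only [zero_mul, zero_add, zero_sub] at h3
      rw [h4] at h3
      linarith
    -- f z ≥ 0
    have hz0 : 0 ≤ f z := by
      by_contra hcon
      push Not at hcon
      set S : ℝ := |φ| + |u| + |v| + |w| + 1 with hS
      have hS0 : 0 < S := by positivity
      have hε : 0 < (-f z) / S := by
        apply div_pos _ hS0; linarith
      have h3 := hbasic 0 0 0 ((-f z) / S) ((-f z) / S) ((-f z) / S) ((-f z) / S) le_rfl hε hε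
        hε hε
      simp only [zero_mul, zero_add, zero_sub] at h3
      have h4 : (-f z) / S * φ + -((-f z) / S) * u + (-f z) / S * v + (-f z) / S * w =
          (-f z) / S * (φ - u + v + w) := by ring
      rw [h4] at h3
      have h5 : -S ≤ φ - u + v + w := by
        have h6 := le_abs_self u
        have h7 := neg_abs_le φ
        have h8 := neg_abs_le v
        have h9 := neg_abs_le w
        linarith
      have h6 : (-f z) / S * (-S) ≤ (-f z) / S * (φ - u + v + w) :=
        mul_le_mul_of_nonneg_left h5 hε.le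
      have h7 : (-f z) / S * (-S) = f z := by field_simp
      linarith
    -- dual constraints
    have hdual : ∀ i j : ℕ, φ + ((i : ℝ) * j) * u + ((i : ℝ) * ((i : ℝ) - 1)) * v +
        ((j : ℝ) * ((j : ℝ) - 1)) * w ≤ 0 := by
      intro i j
      by_contra hcon
      push Not at hcon
      set c : ℝ := φ + ((i : ℝ) * j) * u + ((i : ℝ) * ((i : ℝ) - 1)) * v +
        ((j : ℝ) * ((j : ℝ) - 1)) * w with hc
      have h3 := hbasic i j ((|f z| + |φ| + |u| + |v| + |w|) / c) 1 1 1 1 (by positivity) one_pos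
        one_pos one_pos one_pos
      have h4 : (|f z| + |φ| + |u| + |v| + |w|) / c * c = |f z| + |φ| + |u| + |v| + |w| := by
        field_simp
      have h5 := le_abs_self (f z)
      have h6 := le_abs_self u
      have h7 := neg_abs_le φ
      have h8 := neg_abs_le v
      have h9 := neg_abs_le w
      have h10 : ((|f z| + |φ| + |u| + |v| + |w|) / c + 1) * φ +
          ((|f z| + |φ| + |u| + |v| + |w|) / c * ((i : ℝ) * j) - 1) * u +
          ((|f z| + |φ| + |u| + |v| + |w|) / c * ((i : ℝ) * ((i : ℝ) - 1)) + 1) * v +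
          ((|f z| + |φ| + |u| + |v| + |w|) / c * ((j : ℝ) * ((j : ℝ) - 1)) + 1) * w =
          (|f z| + |φ| + |u| + |v| + |w|) / c * c + φ - u + v + w := by
        rw [hc]; ring
      rw [h10, h4] at h3
      linarith
    have hzval : f z = T p l * φ + p * u + (((p : ℝ) - 1) * l) * v + (((p : ℝ) - 1) / l) * w := by
      rw [hz, hlin]
    rcases sφ.lt_or_eq with hφneg | hφ0
    · -- normalise
      set c : ℝ := -φ with hc
      have hcpos : 0 < c := by linarith
      refine ⟨(u / c, -v / c, -w / c), ⟨by positivity,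
        div_nonneg (by linarith) hcpos.le, div_nonneg (by linarith) hcpos.le, ?_⟩, ?_⟩
      · intro i j
        have h3 := hdual i j
        simp only
        have h4 : u / c * ((i : ℝ) * j) - -v / c * ((i : ℝ) * ((i : ℝ) - 1)) -
            -w / c * ((j : ℝ) * ((j : ℝ) - 1)) =
            (((i : ℝ) * j) * u + ((i : ℝ) * ((i : ℝ) - 1)) * v +
              ((j : ℝ) * ((j : ℝ) - 1)) * w) / c := by ring
        rw [h4, div_le_one hcpos]
        linarith
      · simp only
        have h4 : (p : ℝ) * (u / c) - ((p : ℝ) - 1) * (-v / c * l + -w / c / l) =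
            (p * u + (((p : ℝ) - 1) * l) * v + (((p : ℝ) - 1) / l) * w) / c := by
          field_simp
          ring
        rw [h4, le_div_iff₀ hcpos]
        rw [hzval] at hz0
        have : T p l * c = -(T p l * φ) := by rw [hc]; ring
        linarith
    · -- φ = 0 impossible
      exfalso
      have h3 := hdual 1 1
      simp only [Nat.cast_one, one_mul, sub_self, zero_mul, add_zero, hφ0, zero_add] at h3
      have hu0 : u = 0 := le_antisymm h3 su
      rw [hzval, hφ0, hu0] at hz0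
      have hv0 : v = 0 := by
        by_contra hne
        have hvneg : v < 0 := lt_of_le_of_ne sv hne
        have h4 : (((p : ℝ) - 1) * l) * v < 0 := mul_neg_of_pos_of_neg (by positivity) hvneg
        have h5 : (((p : ℝ) - 1) / l) * w ≤ 0 :=
          mul_nonpos_of_nonneg_of_nonpos (by positivity) sw
        simp only [mul_zero, zero_add] at hz0
        linarith
      have hw0 : w = 0 := by
        by_contra hne
        have hwneg : w < 0 := lt_of_le_of_ne sw hne
        have h4 : (((p : ℝ) - 1) / l) * w < 0 := mul_neg_of_pos_of_neg (by positivity) hwneg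
        simp only [mul_zero, zero_add, hv0] at hz0
        linarith
      have h6 := hbasic 0 0 0 1 1 1 1 le_rfl one_pos one_pos one_pos one_pos
      rw [hzval, hφ0, hu0, hv0, hw0] at h6
      simp at h6

theorem zero_mem_D : ((0, 0, 0) : ℝ × ℝ × ℝ) ∈ D := by
  refine ⟨le_rfl, le_rfl, le_rfl, ?_⟩
  intro i j
  simp

/-- the homogeneous version of `g` -/
noncomputable def g0 (a b : ℝ) (p : ℕ) : ℝ :=
  sSup ((fun d : ℝ × ℝ × ℝ =>
    (p : ℝ) * d.1 * (a * b) - ((p : ℝ) - 1) * (d.2.1 * a ^ 2 + d.2.2 * b ^ 2)) '' D)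

/-- `g0(a, b, p) = a b T_p(a / b)`. -/
theorem g_eq {p : ℕ} (hp : 1 ≤ p) {a b : ℝ} (ha : 0 < a) (hb : 0 < b) :
    g0 a b p = T p (a / b) * (a * b) := by
  have hab : 0 < a * b := mul_pos ha hb
  have hl : 0 < a / b := div_pos ha hb
  have hval : ∀ d : ℝ × ℝ × ℝ, (p : ℝ) * d.1 * (a * b) -
      ((p : ℝ) - 1) * (d.2.1 * a ^ 2 + d.2.2 * b ^ 2) =
      ((p : ℝ) * d.1 - ((p : ℝ) - 1) * (d.2.1 * (a / b) + d.2.2 / (a / b))) * (a * b) := by
    intro d
    field_simp
  have hup : ∀ y ∈ ((fun d : ℝ × ℝ × ℝ => (p : ℝ) * d.1 * (a * b) -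
      ((p : ℝ) - 1) * (d.2.1 * a ^ 2 + d.2.2 * b ^ 2)) '' D), y ≤ T p (a / b) * (a * b) := by
    rintro y ⟨d, hd, rfl⟩
    simp only
    rw [hval]
    apply mul_le_mul_of_nonneg_right _ hab.le
    apply le_of_forall_pos_le_add
    intro ε hε
    obtain ⟨x, hx, hxs⟩ := exists_near p hp (a / b) hl ε hε
    exact (weak hx hd).trans hxs.le
  apply le_antisymm
  · exact csSup_le (Set.Nonempty.image _ ⟨_, zero_mem_D⟩) hup
  · obtain ⟨d, hd, hT⟩ := strong hp hl
    have h1 : T p (a / b) * (a * b) ≤ (p : ℝ) * d.1 * (a * b) -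
        ((p : ℝ) - 1) * (d.2.1 * a ^ 2 + d.2.2 * b ^ 2) := by
      rw [hval]
      exact mul_le_mul_of_nonneg_right hT hab.le
    exact h1.trans (le_csSup ⟨_, hup⟩ ⟨d, hd, rfl⟩)

end Helper61.PInt
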