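import Mathlib

/-!
# Labels with prescribed quadratic characters of differences
-/

set_option autoImplicit false

namespace Helper61.PInt

open Finset

section
variable {q : ℕ} [Fact q.Prime]

/-- the quadratic character of `ZMod q` -/
noncomputable abbrev χ (q : ℕ) [Fact q.Prime] (a : ZMod q) : ℤ := quadraticChar (ZMod q) a

theorem chi_ringChar (hq : 2 < q) : ringChar (ZMod q) ≠ 2 := by
  rw [ZMod.ringChar_zmod_n]
  omega

theorem chi_sum_pair (hq : 2 < q) {w w' : ZMod q} (h : w ≠ w') :
    ∑ y, χ q (w - y) * χ q (w' - y) = -1 := by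
  have hδ : w' - w ≠ 0 := sub_ne_zero.mpr h.symm
  set δ := w' - w with hδdef
  have e1 : ∑ y, χ q (w - y) * χ q (w' - y) = ∑ z, χ q z * χ q (z + δ) := by
    refine Fintype.sum_equiv (Equiv.subLeft w) _ _ ?_
    intro y
    simp only [Equiv.subLeft_apply, hδdef]
    congr 2
    ring
  have e2 : ∀ z ∈ (univ : Finset (ZMod q)), z ≠ 0 → χ q z * χ q (z + δ) = χ q (1 + δ * z⁻¹) := by
    intro z _ hz
    have : z + δ = z * (1 + δ * z⁻¹) := by field_simp
    rw [this]
    simp only [χ, map_mul]
    rw [← mul_assoc, ← sq, quadraticChar_sq_one hz, one_mul]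
  have e3 : ∑ z, χ q z * χ q (z + δ) = ∑ z ∈ univ.erase (0 : ZMod q), χ q (1 + δ * z⁻¹) := by
    rw [← Finset.add_sum_erase univ _ (mem_univ (0 : ZMod q))]
    have : χ q 0 * χ q (0 + δ) = 0 := by simp [χ]
    rw [this, zero_add]
    apply Finset.sum_congr rfl
    intro z hz
    exact e2 z (mem_univ z) (Finset.ne_of_mem_erase hz)
  have e4 : ∑ z ∈ univ.erase (0 : ZMod q), χ q (1 + δ * z⁻¹) =
      ∑ z ∈ univ.erase (0 : ZMod q), χ q (1 + δ * z) := by
    refine Finset.sum_nbij' (fun z => z⁻¹) (fun z => z⁻¹) ?_ ?_ ?_ ?_ ?_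
    · intro z hz; simp only [mem_erase, mem_univ, and_true] at hz ⊢; exact inv_ne_zero hz
    · intro z hz; simp only [mem_erase, mem_univ, and_true] at hz ⊢; exact inv_ne_zero hz
    · intro z _; simp
    · intro z _; simp
    · intro z _; rfl
  have e5 : ∑ z, χ q (1 + δ * z) = 0 := by
    rw [← quadraticChar_sum_zero (F := ZMod q) (chi_ringChar hq)]
    refine Fintype.sum_bijective (fun z => 1 + δ * z) ?_ _ _ (fun z => rfl)
    constructor
    · intro a b hab
      exact mul_left_cancel₀ hδ (add_left_cancel hab)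
    · intro b
      refine ⟨(b - 1) * δ⁻¹, ?_⟩
      field_simp
      ring
  rw [e1, e3, e4]
  have e6 := Finset.add_sum_erase univ (fun z => χ q (1 + δ * z)) (mem_univ (0 : ZMod q))
  rw [e5] at e6
  simp only [mul_zero, add_zero] at e6
  have : χ q 1 = 1 := by simp [χ]
  rw [this] at e6
  linarith

/-- two labelings whose differences have the same quadratic characters except at one pair -/
theorem toggle (N : ℕ) (hN : 2 ^ N + 2 * N + 4 < q) (e : Fin N × Fin N) :
    ∃ L : Bool → Fin N → ZMod q, (∀ t, Function.Injective (L t)) ∧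
      (∀ u u', u < u' → (u, u') ≠ e → ∀ t, χ q (L t u - L t u') = χ q (L false u - L false u')) ∧
      (e.1 < e.2 → χ q (L true e.1 - L true e.2) = - χ q (L false e.1 - L false e.2)) := by
  classical
  have hN1 := Nat.one_le_two_pow (n := N)
  have hq2 : 2 < q := by omega
  have hNq : N < q := by omega
  let z : Fin N → ZMod q := fun u => ((u : ℕ) : ZMod q)
  have hz : Function.Injective z := by
    intro u v huv
    have h1 : ((u : ℕ) : ZMod q) = ((v : ℕ) : ZMod q) := huv
    rw [ZMod.natCast_eq_natCast_iff', Nat.mod_eq_of_lt (u.2.trans hNq),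
      Nat.mod_eq_of_lt (v.2.trans hNq)] at h1
    exact Fin.ext h1
  by_cases he : e.1 < e.2
  swap
  · exact ⟨fun _ => z, fun _ => hz, fun _ _ _ _ _ => rfl, fun h => absurd h he⟩
  -- the set of base points
  let X : Finset (ZMod q) := univ.image z
  have hXcard : X.card ≤ N := by
    calc X.card ≤ (univ : Finset (Fin N)).card := Finset.card_image_le
      _ = N := by simp
  have hzX : ∀ u, z u ∈ X := fun u => Finset.mem_image_of_mem z (mem_univ u)
  -- pigeonhole
  obtain ⟨w, hw, w', hw', hne, hpat⟩ : ∃ w ∈ univ \ X, ∃ w' ∈ univ \ X, w ≠ w' ∧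
      (fun u => χ q (w - z u)) = (fun u => χ q (w' - z u)) := by
    apply Finset.exists_ne_map_eq_of_card_lt_of_maps_to
      (t := Fintype.piFinset (fun _ : Fin N => ({1, -1} : Finset ℤ)))
    · rw [Fintype.card_piFinset]
      simp only [Finset.card_pair (show (1 : ℤ) ≠ -1 by norm_num), prod_const, card_univ,
        Fintype.card_fin]
      have h1 : (univ \ X).card = q - X.card := by
        rw [Finset.card_sdiff_of_subset (subset_univ _), card_univ, ZMod.card]
      rw [h1]
      omega
    · intro w hw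
      have hwX : w ∉ X := (Finset.mem_sdiff.mp hw).2
      simp only [Finset.mem_coe, Fintype.mem_piFinset, mem_insert, mem_singleton]
      intro u
      apply quadraticChar_dichotomy
      intro h0
      apply hwX
      rw [sub_eq_zero.mp h0]
      exact hzX u
  have hwX : w ∉ X := (Finset.mem_sdiff.mp hw).2
  have hwX' : w' ∉ X := (Finset.mem_sdiff.mp hw').2
  -- choose y
  obtain ⟨y, hyX, hyw, hyw', hy⟩ : ∃ y, y ∉ X ∧ y ≠ w ∧ y ≠ w' ∧
      χ q (w' - y) = - χ q (w - y) := by
    by_contra hcon
    push Not at hcon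
    let Y : Finset (ZMod q) := X ∪ {w, w'}
    have hYcard : Y.card ≤ N + 2 := by
      calc Y.card ≤ X.card + ({w, w'} : Finset (ZMod q)).card := Finset.card_union_le _ _
        _ ≤ N + 2 := by
          have := Finset.card_le_two (a := w) (b := w')
          omega
    have hsum := chi_sum_pair hq2 hne
    rw [← Finset.sum_sdiff (subset_univ Y)] at hsum
    have h1 : ∑ y ∈ univ \ Y, χ q (w - y) * χ q (w' - y) = ((univ \ Y).card : ℤ) := by
      rw [Finset.card_eq_sum_ones]
      push_cast
      apply Finset.sum_congr rfl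
      intro y hy
      have hyY : y ∉ Y := (Finset.mem_sdiff.mp hy).2
      simp only [Y, mem_union, mem_insert, mem_singleton, not_or] at hyY
      have hc := hcon y hyY.1 hyY.2.1 hyY.2.2
      have d1 : χ q (w - y) = 1 ∨ χ q (w - y) = -1 :=
        quadraticChar_dichotomy (sub_ne_zero.mpr (Ne.symm hyY.2.1))
      have d2 : χ q (w' - y) = 1 ∨ χ q (w' - y) = -1 :=
        quadraticChar_dichotomy (sub_ne_zero.mpr (Ne.symm hyY.2.2))
      rcases d1 with d1 | d1 <;> rcases d2 with d2 | d2 <;> rw [d1, d2] at hc ⊢ <;>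
        first | rfl | (exact (hc (by norm_num)).elim)
    have h2 : -(Y.card : ℤ) ≤ ∑ y ∈ Y, χ q (w - y) * χ q (w' - y) := by
      have : -(Y.card : ℤ) = ∑ y ∈ Y, (-1 : ℤ) := by simp
      rw [this]
      apply Finset.sum_le_sum
      intro y _
      have d1 := (quadraticChar_isQuadratic (F := ZMod q)) (w - y)
      have d2 := (quadraticChar_isQuadratic (F := ZMod q)) (w' - y)
      simp only [χ]
      rcases d1 with d1 | d1 | d1 <;> rcases d2 with d2 | d2 | d2 <;> rw [d1, d2] <;> norm_num
    have h3 : ((univ \ Y).card : ℤ) = q - Y.card := by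
      rw [Finset.card_sdiff_of_subset (subset_univ _), card_univ, ZMod.card]
      have : Y.card ≤ q := by
        calc Y.card ≤ (univ : Finset (ZMod q)).card := Finset.card_le_card (subset_univ _)
          _ = q := by rw [card_univ, ZMod.card]
      push_cast [Nat.cast_sub this]
      ring
    rw [h1, h3] at hsum
    have h4 : (Y.card : ℤ) ≤ N + 2 := by exact_mod_cast hYcard
    have h5 : ((2 ^ N + 2 * N + 4 : ℕ) : ℤ) < (q : ℤ) := by exact_mod_cast hN
    push_cast at h5
    have h6 : (0 : ℤ) < 2 ^ N := by positivity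
    linarith
  have hneX : ∀ u, z u ≠ w := fun u h => hwX (h ▸ hzX u)
  have hneX' : ∀ u, z u ≠ w' := fun u h => hwX' (h ▸ hzX u)
  have hneY : ∀ u, z u ≠ y := fun u h => hyX (h ▸ hzX u)
  let W : Bool → ZMod q := fun t => if t then w' else w
  have hWX : ∀ t u, z u ≠ W t := by
    intro t u; cases t <;> simp [W, hneX, hneX']
  have hWy : ∀ t, y ≠ W t := by
    intro t; cases t <;> simp [W, hyw, hyw']
  let L : Bool → Fin N → ZMod q := fun t u =>
    if u = e.1 then W t else if u = e.2 then y else z u
  have hpat' : ∀ t u, χ q (W t - z u) = χ q (w - z u) := by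
    intro t u
    cases t
    · rfl
    · exact (congrFun hpat u).symm
  have hL1 : ∀ t, L t e.1 = W t := fun t => by simp [L]
  have hL2 : ∀ t, L t e.2 = y := fun t => by simp [L, he.ne']
  have hL3 : ∀ t u, u ≠ e.1 → u ≠ e.2 → L t u = z u := fun t u h1 h2 => by simp [L, h1, h2]
  refine ⟨L, ?_, ?_, ?_⟩
  · intro t u v huv
    by_cases h1 : u = e.1
    · by_cases h2 : v = e.1
      · rw [h1, h2]
      · by_cases h3 : v = e.2
        · rw [h1, h3, hL1, hL2] at huv; exact absurd huv.symm (hWy t)
        · rw [h1, hL1, hL3 t v h2 h3] at huv; exact absurd huv.symm (hWX t v)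
    · by_cases h1' : u = e.2
      · by_cases h2 : v = e.1
        · rw [h1', h2, hL1, hL2] at huv; exact absurd huv (hWy t)
        · by_cases h3 : v = e.2
          · rw [h1', h3]
          · rw [h1', hL2, hL3 t v h2 h3] at huv; exact absurd huv.symm (hneY v)
      · rw [hL3 t u h1 h1'] at huv
        by_cases h2 : v = e.1
        · rw [h2, hL1] at huv; exact absurd huv (hWX t u)
        · by_cases h3 : v = e.2
          · rw [h3, hL2] at huv; exact absurd huv (hneY u)
          · rw [hL3 t v h2 h3] at huv; exact hz huv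
  · intro u u' huu' hne' t
    by_cases h1 : u = e.1
    · subst h1
      have h2 : u' ≠ e.2 := by
        intro h; apply hne'; rw [h]
      rw [hL1, hL1, hL3 t u' huu'.ne' h2, hL3 false u' huu'.ne' h2, hpat', hpat']
    · by_cases h1' : u = e.2
      · subst h1'
        have h2 : u' ≠ e.1 := (he.trans huu').ne'
        rw [hL2, hL2, hL3 t u' h2 huu'.ne', hL3 false u' h2 huu'.ne']
      · rw [hL3 t u h1 h1', hL3 false u h1 h1']
        by_cases h2 : u' = e.1
        · rw [h2, hL1, hL1]
          have hm : ∀ a b : ZMod q, χ q (a - b) = χ q (-1) * χ q (b - a) := by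
            intro a b
            simp only [χ]
            rw [← map_mul]
            congr 1; ring
          rw [hm (z u) (W t), hm (z u) (W false), hpat', hpat']
        · by_cases h3 : u' = e.2
          · rw [h3, hL2, hL2]
          · rw [hL3 t u' h2 h3, hL3 false u' h2 h3]
  · intro _
    rw [hL1, hL1, hL2, hL2]
    exact hy

end

end Helper61.PInt
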