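import Mathlib
import Pool.Agent.Lib_helper61.PInt.Toggle
import Pool.Agent.Lib_helper61.PInt.Basic

/-!
# The halving construction
-/

set_option autoImplicit false

namespace Helper61.PInt

open Finset

section
variable {q : ℕ} [Fact q.Prime]

/-- product of the quadratic characters of the coordinates -/
noncomputable def X {E : Type*} [Fintype E] (D : E → ZMod q) : ℤ := ∏ e, χ q (D e)

section
variable {E : Type*} [Fintype E]

theorem X_mul (D D' : E → ZMod q) : X (D * D') = X D * X D' := by
  simp only [X, Pi.mul_apply, χ, map_mul, Finset.prod_mul_distrib]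

theorem X_ne_zero_iff (D : E → ZMod q) : X D ≠ 0 ↔ ∀ e, D e ≠ 0 := by
  simp only [X, ne_eq, Finset.prod_eq_zero_iff, mem_univ, true_and, not_exists, χ,
    quadraticChar_eq_zero_iff]

theorem X_pm {D : E → ZMod q} (h : ∀ e, D e ≠ 0) : X D = 1 ∨ X D = -1 := by
  have : IsUnit (X D) := by
    unfold X
    rw [IsUnit.prod_univ_iff]
    intro e
    rcases quadraticChar_dichotomy (h e) with h' | h' <;> simp only [χ] <;> rw [h'] <;> simp
  exact Int.isUnit_iff.mp this

theorem X_sum [Nonempty E] [DecidableEq E] (hq : 2 < q) : ∑ D : E → ZMod q, X D = 0 := by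
  have h := Finset.prod_univ_sum (fun _ : E => (univ : Finset (ZMod q)))
    (fun _ z => χ q z)
  rw [Fintype.piFinset_univ] at h
  unfold X
  rw [← h]
  obtain ⟨e⟩ := (inferInstance : Nonempty E)
  apply Finset.prod_eq_zero (mem_univ e)
  exact quadraticChar_sum_zero (chi_ringChar hq)

theorem card_sq [Nonempty E] [DecidableEq E] (hq : 2 < q) :
    2 * (univ.filter (fun D : E → ZMod q => X D = 1)).card ≤ Fintype.card (E → ZMod q) := by
  classical
  have h1 : ∀ D : E → ZMod q, X D = (if X D = 1 then 1 else 0) - (if X D = -1 then 1 else 0) := by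
    intro D
    by_cases h : ∀ e, D e ≠ 0
    · rcases X_pm h with h' | h' <;> rw [h'] <;> norm_num
    · have : X D = 0 := by
        by_contra h'
        exact h ((X_ne_zero_iff D).mp h')
      rw [this]; norm_num
  have h2 := X_sum (E := E) hq
  rw [Finset.sum_congr rfl (fun D _ => h1 D), Finset.sum_sub_distrib, Finset.sum_boole,
    Finset.sum_boole] at h2
  have h3 : (univ.filter (fun D : E → ZMod q => X D = 1)).card =
      (univ.filter (fun D : E → ZMod q => X D = -1)).card := by
    have := sub_eq_zero.mp h2
    exact_mod_cast this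
  have h4 : (univ.filter (fun D : E → ZMod q => X D = 1)).card +
      (univ.filter (fun D : E → ZMod q => X D = -1)).card ≤ Fintype.card (E → ZMod q) := by
    rw [← Finset.card_union_of_disjoint]
    · exact Finset.card_le_univ _
    · rw [Finset.disjoint_filter]
      intro D _ hD hD'
      rw [hD] at hD'
      norm_num at hD'
  omega

theorem card_bad [DecidableEq E] (hq : 0 < q) :
    ((univ.filter (fun D : E → ZMod q => X D = 0)).card : ℝ) ≤
      (Fintype.card E / q) * Fintype.card (E → ZMod q) := by
  classical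
  have h1 : (univ.filter (fun D : E → ZMod q => X D ≠ 0)).card = (q - 1) ^ Fintype.card E := by
    have : univ.filter (fun D : E → ZMod q => X D ≠ 0) =
        Fintype.piFinset (fun _ : E => univ.erase (0 : ZMod q)) := by
      ext D
      simp only [mem_filter, mem_univ, true_and, X_ne_zero_iff, Fintype.mem_piFinset, mem_erase,
        and_true]
    rw [this, Fintype.card_piFinset]
    simp [Finset.card_erase_of_mem, ZMod.card]
  have h2 : (univ.filter (fun D : E → ZMod q => X D = 0)).card +
      (univ.filter (fun D : E → ZMod q => X D ≠ 0)).card = q ^ Fintype.card E := by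
    rw [Finset.card_filter_add_card_filter_not]
    simp [ZMod.card]
  have h3 : Fintype.card (E → ZMod q) = q ^ Fintype.card E := by simp [ZMod.card]
  have hq' : (0 : ℝ) < q := by exact_mod_cast hq
  have h4 : (1 : ℝ) + (Fintype.card E : ℝ) * (-(1 / q)) ≤ (1 + (-(1 / q))) ^ Fintype.card E := by
    apply one_add_mul_le_pow
    have : (1 : ℝ) / q ≤ 1 := by
      rw [div_le_one hq']
      exact_mod_cast hq
    linarith
  have h5 : (((q - 1 : ℕ) : ℝ)) ^ Fintype.card E =
      (q : ℝ) ^ Fintype.card E * (1 + (-(1 / q))) ^ Fintype.card E := by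
    rw [← mul_pow]
    congr 1
    rw [Nat.cast_sub hq]
    field_simp
    push_cast
    ring
  rw [h3]
  have h6 : ((univ.filter (fun D : E → ZMod q => X D = 0)).card : ℝ) +
      (((q - 1 : ℕ) : ℝ)) ^ Fintype.card E = (q : ℝ) ^ Fintype.card E := by
    rw [h1] at h2
    exact_mod_cast h2
  push_cast
  have h7 : (0 : ℝ) ≤ (q : ℝ) ^ Fintype.card E := by positivity
  have h8 := mul_le_mul_of_nonneg_left h4 h7
  rw [h5] at h6
  have h9 : (q : ℝ) ^ Fintype.card E * (1 + (Fintype.card E : ℝ) * (-(1 / q))) =
      (q : ℝ) ^ Fintype.card E - (Fintype.card E / q) * (q : ℝ) ^ Fintype.card E := by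
    field_simp
    ring
  rw [h9] at h8
  linarith

end

/-- labels with prescribed sign pattern -/
theorem labels (N : ℕ) (hN : 2 ^ N + 2 * N + 4 < q) (c : Fin N → Fin N → ℤ)
    (hc : ∀ u v, c u v = 1 ∨ c u v = -1) :
    ∃ x : Fin N → (Fin N × Fin N → ZMod q), ∀ u v, u < v → X (x u - x v) = c u v := by
  classical
  choose L hLinj hLsame hLopp using (toggle (q := q) N hN)
  let B : Fin N × Fin N → ℤ := fun e => ∏ e', χ q (L e' false e.1 - L e' false e.2)
  let τ : Fin N × Fin N → Bool := fun e => decide (B e ≠ c e.1 e.2)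
  refine ⟨fun u e => L e (τ e) u, ?_⟩
  intro u v huv
  have hB : B (u, v) = 1 ∨ B (u, v) = -1 := by
    apply X_pm (D := fun e' => L e' false u - L e' false v)
    intro e
    exact sub_ne_zero.mpr (fun h => huv.ne (hLinj e false h))
  have e1 : X ((fun e => L e (τ e) u) - (fun e => L e (τ e) v)) =
      χ q (L (u, v) (τ (u, v)) u - L (u, v) (τ (u, v)) v) *
        ∏ e ∈ univ.erase (u, v), χ q (L e false u - L e false v) := by
    unfold X
    rw [← Finset.mul_prod_erase univ _ (mem_univ (u, v))]
    congr 1
    apply Finset.prod_congr rfl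
    intro e he
    exact hLsame e u v huv (Finset.ne_of_mem_erase he).symm (τ e)
  have e2 : B (u, v) = χ q (L (u, v) false u - L (u, v) false v) *
        ∏ e ∈ univ.erase (u, v), χ q (L e false u - L e false v) := by
    simp only [B]
    rw [← Finset.mul_prod_erase univ _ (mem_univ (u, v))]
  rw [e1]
  by_cases h : B (u, v) = c u v
  · have hτ : τ (u, v) = false := by simp [τ, h]
    rw [hτ, ← e2, h]
  · have hτ : τ (u, v) = true := by simp [τ, h]
    rw [hτ]
    have h3 := hLopp (u, v) huv
    simp only at h3
    rw [h3, neg_mul, ← e2]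
    rcases hB with hB | hB <;> rcases hc u v with hc' | hc' <;> rw [hB, hc'] at h <;>
      rw [hB, hc']
    · exact absurd rfl h
    · norm_num
    · exact absurd rfl h

end

end Helper61.PInt
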