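import Mathlib
import Pool.Agent.Lib_helper61.PInt.Halving

/-!
# The halving lemma
-/

set_option autoImplicit false

namespace Helper61.PInt

open Finset

section
variable {q : ℕ} [Fact q.Prime]

/-- sorted version of one block-count -/
theorem halve_count {N : ℕ} {ι : Type*} [Fintype ι] [DecidableEq ι] (S : Fin N → Finset ι)
    (x : ι → Fin N → (Fin N × Fin N → ZMod q)) (c : ι → Fin N → Fin N → ℤ)
    (hc : ∀ i u v, c i u v = 1 ∨ c i u v = -1)
    (hx : ∀ i u v, u < v → X (x i u - x i v) = c i u v)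
    (S1 : Fin N × (Fin N × Fin N → ZMod q) →
      Finset (ι × {s : Fin N × Fin N → ZMod q // X s = 1} × (Fin N × Fin N → ZMod q)))
    (hS1 : ∀ w k, k ∈ S1 w ↔ k.1 ∈ S w.1 ∧ w.2 = x k.1 w.1 * k.2.1.1 + k.2.2)
    (u v : Fin N) (huv : u < v) (y y' : Fin N × Fin N → ZMod q) :
    (S1 (u, y) ∩ S1 (v, y')).card =
      ((S u ∩ S v).filter (fun i => c i u v = X (y - y'))).card := by
  classical
  have hcoord : ∀ i e, x i u e - x i v e ≠ 0 := by
    intro i
    have h1 : X (x i u - x i v) ≠ 0 := by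
      rw [hx i u v huv]
      rcases hc i u v with h | h <;> rw [h] <;> norm_num
    exact (X_ne_zero_iff _).mp h1
  refine Finset.card_bij (fun k _ => k.1) ?_ ?_ ?_
  · intro k hk
    rw [mem_inter, hS1, hS1] at hk
    obtain ⟨⟨h1, h2⟩, h3, h4⟩ := hk
    rw [mem_filter, mem_inter]
    refine ⟨⟨h1, h3⟩, ?_⟩
    simp only at h2 h4
    have : y - y' = (x k.1 u - x k.1 v) * k.2.1.1 := by
      rw [h2, h4]; ring
    rw [this, X_mul, hx _ _ _ huv, k.2.1.2, mul_one]
  · intro k hk k' hk' hkk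
    rw [mem_inter, hS1, hS1] at hk hk'
    obtain ⟨⟨h1, h2⟩, h3, h4⟩ := hk
    obtain ⟨⟨h1', h2'⟩, h3', h4'⟩ := hk'
    obtain ⟨i, s, g⟩ := k
    obtain ⟨i', s', g'⟩ := k'
    simp only at hkk h2 h4 h2' h4'
    subst hkk
    have hs : s.1 = s'.1 := by
      funext e
      have e1 := congrFun h2 e
      have e2 := congrFun h4 e
      have e3 := congrFun h2' e
      have e4 := congrFun h4' e
      simp only [Pi.add_apply, Pi.mul_apply] at e1 e2 e3 e4
      have e5 : (x i u e - x i v e) * s.1 e = (x i u e - x i v e) * s'.1 e := by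
        linear_combination e2 - e1 + e3 - e4
      exact mul_left_cancel₀ (hcoord i e) e5
    have hg : g = g' := by
      have := h2.symm.trans h2'
      rw [hs] at this
      exact add_left_cancel this
    rw [Subtype.ext hs, hg]
  · intro i hi
    rw [mem_filter, mem_inter] at hi
    obtain ⟨⟨h1, h2⟩, h3⟩ := hi
    let s : Fin N × Fin N → ZMod q := fun e => (y e - y' e) / (x i u e - x i v e)
    have hs : (x i u - x i v) * s = y - y' := by
      funext e
      simp only [Pi.mul_apply, Pi.sub_apply, s]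
      rw [mul_div_cancel₀ _ (hcoord i e)]
    have hXs : X s = 1 := by
      have h4 := X_mul (x i u - x i v) s
      rw [hs, hx i u v huv, ← h3] at h4
      rcases hc i u v with h | h <;> rw [h] at h4 <;> linarith
    refine ⟨(i, ⟨s, hXs⟩, y - x i u * s), ?_, rfl⟩
    rw [mem_inter, hS1, hS1]
    refine ⟨⟨h1, ?_⟩, h2, ?_⟩
    · simp
    · simp only
      have : x i v * s = x i u * s - (y - y') := by
        rw [← hs]; ring
      rw [this]; ring

end

/-- **Halving lemma.** -/
theorem halve {N : ℕ} (hN0 : 0 < N) (side : Fin N → Bool) (P R : ℕ) {ι : Type} [Fintype ι]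
    [DecidableEq ι] (S : Fin N → Finset ι) (hS : Good side (2 * P) (2 * R) S) (ε : ℝ)
    (hε : 0 < ε) :
    ∃ (Γ : Type) (_ : Fintype Γ) (_ : Nonempty Γ) (κ : Type) (_ : Fintype κ)
      (_ : DecidableEq κ) (S' : Fin N × Γ → Finset κ),
      Good (fun w => side w.1) P R S' ∧
      (Fintype.card κ : ℝ) ≤ ((Fintype.card ι : ℝ) / 2 + ε) * (Fintype.card Γ : ℝ) ^ 2 := by
  classical
  -- choose the prime
  obtain ⟨q, hqge, hqp⟩ := Nat.exists_infinite_primes
    (max (2 ^ N + 2 * N + 5) (⌈((N : ℝ) ^ 4 * P) / ε⌉₊ + 1))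
  have : Fact q.Prime := ⟨hqp⟩
  have hq1 : 2 ^ N + 2 * N + 4 < q := by
    have := (le_max_left _ _).trans hqge
    omega
  have hq2 : ((N : ℝ) ^ 4 * P) / ε ≤ q := by
    have h1 := (le_max_right _ _).trans hqge
    have h2 := Nat.le_ceil (((N : ℝ) ^ 4 * P) / ε)
    have h3 : ((⌈((N : ℝ) ^ 4 * P) / ε⌉₊ + 1 : ℕ) : ℝ) ≤ q := by exact_mod_cast h1
    push_cast at h3
    linarith
  have hq3 : 2 < q := by
    have := Nat.one_le_two_pow (n := N)
    omega
  -- colour classes
  have hH : ∀ u v, ∃ H : Finset ι, H ⊆ S u ∩ S v ∧ H.card = (S u ∩ S v).card / 2 := fun u v =>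
    Finset.exists_subset_card_eq (Nat.div_le_self _ _)
  choose H hHsub hHcard using hH
  let c : ι → Fin N → Fin N → ℤ := fun i u v => if i ∈ H u v then 1 else -1
  have hc : ∀ i u v, c i u v = 1 ∨ c i u v = -1 := by
    intro i u v
    by_cases h : i ∈ H u v <;> simp [c, h]
  choose x hx using fun i => labels (q := q) N hq1 (c i) (hc i)
  let Γ := Fin N × Fin N → ZMod q
  let S1 : Fin N × Γ → Finset (ι × {s : Γ // X s = 1} × Γ) := fun w =>
    univ.filter (fun k => k.1 ∈ S w.1 ∧ w.2 = x k.1 w.1 * k.2.1.1 + k.2.2)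
  have hS1 : ∀ w k, k ∈ S1 w ↔ k.1 ∈ S w.1 ∧ w.2 = x k.1 w.1 * k.2.1.1 + k.2.2 := by
    intro w k
    simp [S1]
  have hcount := halve_count (q := q) S x c hc hx S1 hS1
  -- sorted counts
  have hpos : ∀ u v, u < v → ∀ y y' : Γ, X (y - y') ≠ 0 →
      (S u ∩ S v).card / 2 ≤ (S1 (u, y) ∩ S1 (v, y')).card ∧
      (S1 (u, y) ∩ S1 (v, y')).card ≤ ((S u ∩ S v).card + 1) / 2 := by
    intro u v huv y y' hX
    rw [hcount u v huv y y']
    have h1 : (S u ∩ S v).filter (fun i => c i u v = 1) = H u v := by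
      ext i
      rw [mem_filter]
      constructor
      · rintro ⟨_, h⟩
        by_contra hi
        simp [c, hi] at h
      · intro hi
        exact ⟨hHsub u v hi, by simp [c, hi]⟩
    have h2 : (S u ∩ S v).filter (fun i => c i u v = -1) = (S u ∩ S v) \ H u v := by
      ext i
      rw [mem_filter, mem_sdiff]
      constructor
      · rintro ⟨h0, h⟩
        refine ⟨h0, fun hi => ?_⟩
        simp [c, hi] at h
      · rintro ⟨h0, hi⟩
        exact ⟨h0, by simp [c, hi]⟩
    have h3 : ((S u ∩ S v) \ H u v).card = (S u ∩ S v).card - (S u ∩ S v).card / 2 := by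
      rw [Finset.card_sdiff_of_subset (hHsub u v), hHcard]
    rcases X_pm ((X_ne_zero_iff _).mp hX) with h | h
    · rw [h, h1, hHcard]
      omega
    · rw [h, h2, h3]
      omega
  have hzero : ∀ u v, u < v → ∀ y y' : Γ, X (y - y') = 0 →
      (S1 (u, y) ∩ S1 (v, y')).card = 0 := by
    intro u v huv y y' hX
    rw [hcount u v huv y y', hX, Finset.card_eq_zero]
    apply Finset.filter_eq_empty_iff.mpr
    intro i _
    rcases hc i u v with h | h <;> rw [h] <;> norm_num
  have hsame : ∀ u (y y' : Γ), y ≠ y' → (S1 (u, y) ∩ S1 (u, y')).card = 0 := by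
    intro u y y' hy
    rw [Finset.card_eq_zero]
    ext k
    simp only [mem_inter, hS1, notMem_empty, iff_false]
    rintro ⟨⟨_, h1⟩, _, h2⟩
    exact hy (h1.trans h2.symm)
  -- inner pairs
  have hin : ∀ w w' : Fin N × Γ, w ≠ w' → side w.1 = side w'.1 →
      (S1 w ∩ S1 w').card ≤ R := by
    rintro ⟨u, y⟩ ⟨v, y'⟩ hne hs
    simp only at hs
    rcases lt_trichotomy u v with huv | huv | huv
    · by_cases hX : X (y - y') = 0
      · rw [hzero u v huv y y' hX]; exact Nat.zero_le _
      · have h1 := (hpos u v huv y y' hX).2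
        have h2 := hS.2 u v huv.ne hs
        omega
    · subst huv
      have : y ≠ y' := fun h => hne (by rw [h])
      rw [hsame u y y' this]; exact Nat.zero_le _
    · rw [Finset.inter_comm]
      by_cases hX : X (y' - y) = 0
      · rw [hzero v u huv y' y hX]; exact Nat.zero_le _
      · have h1 := (hpos v u huv y' y hX).2
        have h2 := hS.2 v u huv.ne hs.symm
        omega
  let Bad : Finset ((Fin N × Γ) × (Fin N × Γ)) := univ.filter (fun w => X (w.1.2 - w.2.2) = 0)
  have hcr : ∀ w w' : Fin N × Γ, side w.1 ≠ side w'.1 →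
      P ≤ (S1 w ∩ S1 w').card + (if (w, w') ∈ Bad ∨ (w', w) ∈ Bad then P else 0) := by
    rintro ⟨u, y⟩ ⟨v, y'⟩ hs
    simp only at hs
    by_cases hB : ((u, y), (v, y')) ∈ Bad ∨ ((v, y'), (u, y)) ∈ Bad
    · rw [if_pos hB]; exact Nat.le_add_left _ _
    · rw [if_neg hB]
      push Not at hB
      simp only [Bad, mem_filter, mem_univ, true_and] at hB
      have h2 := hS.1 u v hs
      rcases lt_trichotomy u v with huv | huv | huv
      · have h1 := (hpos u v huv y y' hB.1).1
        omega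
      · exact absurd (by rw [huv]) hs
      · have h1 := (hpos v u huv y' y hB.2).1
        rw [Finset.inter_comm] at h1
        rw [Finset.inter_comm (S1 (v, y'))] at h1
        omega
  obtain ⟨S', hS'⟩ := patch (fun w : Fin N × Γ => side w.1) P R P S1 Bad hin
    (fun w w' h => by convert hcr w w' h)
  refine ⟨Γ, inferInstance, inferInstance, _, inferInstance, _, S', hS', ?_⟩
  -- count
  have : Nonempty (Fin N × Fin N) := ⟨(⟨0, hN0⟩, ⟨0, hN0⟩)⟩
  have hsq : 2 * Fintype.card {s : Γ // X s = 1} ≤ Fintype.card Γ := by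
    rw [Fintype.card_subtype]
    exact card_sq hq3
  have hbad : (Bad.card : ℝ) ≤ (N : ℝ) ^ 2 * (((N : ℝ) ^ 2 / q) * (Fintype.card Γ : ℝ) ^ 2) := by
    have h1 : Bad.card ≤ (univ : Finset (Fin N × Fin N × Γ)).card *
        (univ.filter (fun D : Γ => X D = 0)).card := by
      rw [← Finset.card_product]
      apply Finset.card_le_card_of_injOn (fun w => ((w.1.1, w.2.1, w.1.2), w.1.2 - w.2.2))
      · intro w hw
        simp only [Bad, coe_filter, Set.mem_ofPred_eq, mem_univ, true_and] at hw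
        simp only [coe_product, Set.mem_prod, mem_coe, mem_univ, mem_filter, true_and]
        exact hw
      · rintro ⟨⟨u, y⟩, ⟨v, y'⟩⟩ _ ⟨⟨u₂, y₂⟩, ⟨v₂, y₂'⟩⟩ _ h
        simp only [Prod.mk.injEq] at h
        obtain ⟨⟨h1, h2, h3⟩, h4⟩ := h
        subst h1 h2 h3
        have h5 : y' = y₂' := sub_right_injective h4
        rw [h5]
    have h2 := card_bad (q := q) (E := Fin N × Fin N) (by omega)
    have h3 : ((univ : Finset (Fin N × Fin N × Γ)).card : ℝ) = (N : ℝ) ^ 2 * Fintype.card Γ := by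
      rw [Finset.card_univ, Fintype.card_prod, Fintype.card_prod]
      simp only [Fintype.card_fin]
      push_cast
      ring
    have h4 : (Fintype.card (Fin N × Fin N) : ℝ) = (N : ℝ) ^ 2 := by
      rw [Fintype.card_prod]
      simp only [Fintype.card_fin]
      push_cast
      ring
    rw [h4] at h2
    calc (Bad.card : ℝ) ≤ ((univ : Finset (Fin N × Fin N × Γ)).card : ℝ) *
          ((univ.filter (fun D : Γ => X D = 0)).card : ℝ) := by exact_mod_cast h1
      _ ≤ ((N : ℝ) ^ 2 * Fintype.card Γ) * ((N : ℝ) ^ 2 / q * Fintype.card Γ) := by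
          rw [h3]
          exact mul_le_mul_of_nonneg_left h2 (by positivity)
      _ = _ := by ring
  have hcard : (Fintype.card ((ι × {s : Γ // X s = 1} × Γ) ⊕ (Bad × Fin P)) : ℝ) =
      (Fintype.card ι : ℝ) * (Fintype.card {s : Γ // X s = 1} : ℝ) * (Fintype.card Γ : ℝ) +
        (Bad.card : ℝ) * P := by
    rw [Fintype.card_sum, Fintype.card_prod, Fintype.card_prod, Fintype.card_prod,
      Fintype.card_coe, Fintype.card_fin]
    push_cast
    ring
  rw [hcard]
  have hsq' : (Fintype.card {s : Γ // X s = 1} : ℝ) ≤ (Fintype.card Γ : ℝ) / 2 := by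
    have : (2 : ℝ) * Fintype.card {s : Γ // X s = 1} ≤ Fintype.card Γ := by exact_mod_cast hsq
    linarith
  have hG : (0 : ℝ) ≤ Fintype.card Γ := by positivity
  have hι : (0 : ℝ) ≤ Fintype.card ι := by positivity
  have t1 : (Fintype.card ι : ℝ) * (Fintype.card {s : Γ // X s = 1} : ℝ) *
      (Fintype.card Γ : ℝ) ≤ (Fintype.card ι : ℝ) / 2 * (Fintype.card Γ : ℝ) ^ 2 := by
    calc _ ≤ (Fintype.card ι : ℝ) * ((Fintype.card Γ : ℝ) / 2) * (Fintype.card Γ : ℝ) := by
          gcongr
      _ = _ := by ring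
  have hq0 : (0 : ℝ) < q := by exact_mod_cast hqp.pos
  have hP : (0 : ℝ) ≤ P := by positivity
  have t2 : (Bad.card : ℝ) * P ≤ ε * (Fintype.card Γ : ℝ) ^ 2 := by
    calc (Bad.card : ℝ) * P ≤ ((N : ℝ) ^ 2 * (((N : ℝ) ^ 2 / q) *
          (Fintype.card Γ : ℝ) ^ 2)) * P := by gcongr
      _ = (((N : ℝ) ^ 4 * P) / q) * (Fintype.card Γ : ℝ) ^ 2 := by ring
      _ ≤ ε * (Fintype.card Γ : ℝ) ^ 2 := by
          gcongr
          rw [div_le_iff₀ hq0]
          rw [div_le_iff₀ hε] at hq2
          linarith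
  linarith

end Helper61.PInt
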