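import Mathlib
import Pool.Agent.Lib_helper61.PInt.Halve

/-!
# Iterated halving and blow-up
-/

set_option autoImplicit false

namespace Helper61.PInt

open Finset

theorem Cov.halve {a b P R t : ℕ} (h : Cov a b (2 * P) (2 * R) t) (hab : 0 < a + b) (ε : ℝ)
    (hε : 0 < ε) : ∃ n t' : ℕ, 0 < n ∧ Cov (a * n) (b * n) P R t' ∧
      (t' : ℝ) ≤ ((t : ℝ) / 2 + ε) * (n : ℝ) ^ 2 := by
  classical
  obtain ⟨S, hS⟩ := h
  have h1 : Good (fun w : Fin (a + b) => (finSumFinEquiv.symm w : Fin a ⊕ Fin b).isLeft)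
      (2 * P) (2 * R) (fun w => S (finSumFinEquiv.symm w)) :=
    Good.restrict hS _ _ finSumFinEquiv.symm.injective (fun _ => rfl)
  obtain ⟨Γ, _, _, κ, _, _, S', hS', hcard⟩ := Helper61.PInt.halve hab _ P R _ h1 ε hε
  refine ⟨Fintype.card Γ, Fintype.card κ, Fintype.card_pos, Cov.of_blowup S' hS' le_rfl, ?_⟩
  rwa [Fintype.card_fin] at hcard

theorem Cov.halve_iter (r : ℕ) : ∀ {a b P R t : ℕ} (_ : Cov a b (2 ^ r * P) (2 ^ r * R) t)
    (_ : 0 < a + b) (ε : ℝ) (_ : 0 < ε), ∃ n t' : ℕ, 0 < n ∧ Cov (a * n) (b * n) P R t' ∧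
      (t' : ℝ) ≤ ((t : ℝ) / 2 ^ r + ε) * (n : ℝ) ^ 2 := by
  induction r with
  | zero =>
    intro a b P R t h _ ε hε
    refine ⟨1, t, one_pos, by simpa using h, ?_⟩
    simp only [pow_zero, div_one, Nat.cast_one, one_pow, mul_one]
    linarith
  | succ r ih =>
    intro a b P R t h hab ε hε
    have h' : Cov a b (2 * (2 ^ r * P)) (2 * (2 ^ r * R)) t := by
      have e1 : 2 * (2 ^ r * P) = 2 ^ (r + 1) * P := by ring
      have e2 : 2 * (2 ^ r * R) = 2 ^ (r + 1) * R := by ring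
      rw [e1, e2]; exact h
    obtain ⟨n1, t1, hn1, hc1, ht1⟩ := h'.halve hab (ε / 2) (by linarith)
    have hab' : 0 < a * n1 + b * n1 := by
      rw [← add_mul]; exact Nat.mul_pos hab hn1
    obtain ⟨n2, t2, hn2, hc2, ht2⟩ := ih hc1 hab' (ε / 2) (by linarith)
    refine ⟨n1 * n2, t2, Nat.mul_pos hn1 hn2, by rwa [← mul_assoc, ← mul_assoc], ?_⟩
    have hn1' : (1 : ℝ) ≤ n1 := by exact_mod_cast hn1
    have h2r : (1 : ℝ) ≤ 2 ^ r := one_le_pow₀ (by norm_num)
    have h3 : (t1 : ℝ) / 2 ^ r ≤ ((t : ℝ) / 2 ^ (r + 1) + ε / 2) * (n1 : ℝ) ^ 2 := by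
      rw [div_le_iff₀ (by positivity)]
      calc (t1 : ℝ) ≤ ((t : ℝ) / 2 + ε / 2) * (n1 : ℝ) ^ 2 := ht1
        _ ≤ ((t : ℝ) / 2 + ε / 2 * 2 ^ r) * (n1 : ℝ) ^ 2 := by
            gcongr
            nlinarith
        _ = _ := by
            field_simp
            ring
    have h4 : ε / 2 ≤ ε / 2 * (n1 : ℝ) ^ 2 := by
      have : (1 : ℝ) ≤ (n1 : ℝ) ^ 2 := one_le_pow₀ hn1'
      nlinarith
    calc (t2 : ℝ) ≤ ((t1 : ℝ) / 2 ^ r + ε / 2) * (n2 : ℝ) ^ 2 := ht2
      _ ≤ (((t : ℝ) / 2 ^ (r + 1) + ε / 2) * (n1 : ℝ) ^ 2 + ε / 2 * (n1 : ℝ) ^ 2) *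
          (n2 : ℝ) ^ 2 := by
            apply mul_le_mul_of_nonneg_right _ (by positivity)
            linarith
      _ = ((t : ℝ) / 2 ^ (r + 1) + ε) * ((n1 * n2 : ℕ) : ℝ) ^ 2 := by push_cast; ring

theorem unit_diff {m n : ℕ} (h : Nat.Coprime n m.factorial) (u v : Fin m) (huv : u ≠ v) :
    IsUnit (((u : ℕ) : ZMod n) - ((v : ℕ) : ZMod n)) := by
  have key : ∀ a b : Fin m, b < a → IsUnit (((a : ℕ) : ZMod n) - ((b : ℕ) : ZMod n)) := by
    intro a b hba
    have hba' : (b : ℕ) < a := hba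
    rw [← Nat.cast_sub hba'.le]
    rw [ZMod.isUnit_iff_coprime]
    have hdvd : ((a : ℕ) - b) ∣ m.factorial :=
      Nat.dvd_factorial (by omega) (by have := a.2; omega)
    exact (Nat.Coprime.coprime_dvd_right hdvd h).symm
  rcases lt_or_gt_of_ne huv with h1 | h1
  · have := (key v u h1).neg
    rwa [neg_sub] at this
  · exact key u v h1

/-- **Blow-up by an integer coprime to `(a + b)!`.** -/
theorem Cov.blow {a b P R t : ℕ} (h : Cov a b P R t) (n : ℕ) (hn : 0 < n)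
    (hcop : Nat.Coprime n (a + b).factorial) : Cov (a * n) (b * n) P R (t * n ^ 2) := by
  classical
  have : NeZero n := ⟨hn.ne'⟩
  obtain ⟨S, hS⟩ := h
  let side : Fin (a + b) → Bool := fun w => (finSumFinEquiv.symm w : Fin a ⊕ Fin b).isLeft
  let U : Fin (a + b) → Finset (Fin t) := fun w => S (finSumFinEquiv.symm w)
  have h1 : Good side P R U :=
    Good.restrict hS _ _ finSumFinEquiv.symm.injective (fun _ => rfl)
  let S1 : Fin (a + b) × ZMod n → Finset (Fin t × ZMod n × ZMod n) := fun w =>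
    univ.filter (fun k => k.1 ∈ U w.1 ∧ w.2 = ((w.1 : ℕ) : ZMod n) * k.2.1 + k.2.2)
  have hS1 : ∀ w k, k ∈ S1 w ↔ k.1 ∈ U w.1 ∧ w.2 = ((w.1 : ℕ) : ZMod n) * k.2.1 + k.2.2 := by
    intro w k; simp [S1]
  have hcount : ∀ u v, u ≠ v → ∀ y y' : ZMod n,
      (S1 (u, y) ∩ S1 (v, y')).card = (U u ∩ U v).card := by
    intro u v huv y y'
    have hunit := unit_diff hcop u v huv
    refine Finset.card_bij (fun k _ => k.1) ?_ ?_ ?_
    · intro k hk
      rw [mem_inter, hS1, hS1] at hk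
      rw [mem_inter]
      exact ⟨hk.1.1, hk.2.1⟩
    · rintro ⟨i, s, g⟩ hk ⟨i', s', g'⟩ hk' hkk
      rw [mem_inter, hS1, hS1] at hk hk'
      simp only at hkk hk hk'
      subst hkk
      obtain ⟨⟨_, h2⟩, _, h4⟩ := hk
      obtain ⟨⟨_, h2'⟩, _, h4'⟩ := hk'
      have h5 : (((u : ℕ) : ZMod n) - ((v : ℕ) : ZMod n)) * s =
          (((u : ℕ) : ZMod n) - ((v : ℕ) : ZMod n)) * s' := by
        linear_combination h4 - h2 + h2' - h4'
      have h6 : s = s' := hunit.mul_left_cancel h5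
      subst h6
      have h7 := h2.symm.trans h2'
      rw [add_left_cancel h7]
    · intro i hi
      rw [mem_inter] at hi
      obtain ⟨d, hd⟩ := hunit
      refine ⟨(i, (d⁻¹ : (ZMod n)ˣ) * (y - y'),
        y - ((u : ℕ) : ZMod n) * ((d⁻¹ : (ZMod n)ˣ) * (y - y'))), ?_, rfl⟩
      rw [mem_inter, hS1, hS1]
      refine ⟨⟨hi.1, ?_⟩, hi.2, ?_⟩
      · simp
      · simp only
        have h8 : (((u : ℕ) : ZMod n) - ((v : ℕ) : ZMod n)) * ((d⁻¹ : (ZMod n)ˣ) * (y - y')) =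
            y - y' := by
          rw [← hd, ← mul_assoc, Units.mul_inv, one_mul]
        linear_combination h8
  have hsame : ∀ u (y y' : ZMod n), y ≠ y' → (S1 (u, y) ∩ S1 (u, y')).card = 0 := by
    intro u y y' hy
    rw [Finset.card_eq_zero]
    ext k
    simp only [mem_inter, hS1, notMem_empty, iff_false]
    rintro ⟨⟨_, h1⟩, _, h2⟩
    exact hy (h1.trans h2.symm)
  have hgood : Good (fun w : Fin (a + b) × ZMod n => side w.1) P R S1 := by
    refine ⟨?_, ?_⟩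
    · rintro ⟨u, y⟩ ⟨v, y'⟩ hs
      have huv : u ≠ v := fun h => hs (by rw [h])
      rw [hcount u v huv]
      exact h1.1 u v hs
    · rintro ⟨u, y⟩ ⟨v, y'⟩ hne hs
      by_cases huv : u = v
      · subst huv
        have : y ≠ y' := fun h => hne (by rw [h])
        rw [hsame u y y' this]; exact Nat.zero_le _
      · rw [hcount u v huv]
        exact h1.2 u v huv hs
  have h2 := Cov.of_blowup (t := t * n ^ 2) S1 hgood (by
    rw [Fintype.card_prod, Fintype.card_prod, Fintype.card_fin, ZMod.card, sq])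
  rwa [ZMod.card] at h2

/-- consequence: bound for all `a', b'`. -/
theorem Cov.extend {a b P R t : ℕ} (h : Cov a b P R t) (ha : 0 < a) (hb : 0 < b)
    (a' b' : ℕ) : ∃ n : ℕ, (n : ℝ) ≤ max ((a' : ℝ) / a) ((b' : ℝ) / b) +
      ((a + b).factorial + 1) ∧ Cov a' b' P R (t * n ^ 2) := by
  set F := (a + b).factorial with hF
  have hFpos : 0 < F := Nat.factorial_pos _
  set μ : ℝ := max ((a' : ℝ) / a) ((b' : ℝ) / b) with hμ
  have hμ0 : 0 ≤ μ := le_max_of_le_left (by positivity)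
  set m : ℕ := ⌈μ / F⌉₊ with hm
  have hFr : (0 : ℝ) < F := by exact_mod_cast hFpos
  refine ⟨F * m + 1, ?_, ?_⟩
  · have h1 : (m : ℝ) < μ / F + 1 := Nat.ceil_lt_add_one (by positivity)
    push_cast
    have h2 : (F : ℝ) * m ≤ F * (μ / F + 1) := by gcongr
    have h3 : (F : ℝ) * (μ / F + 1) = μ + F := by field_simp
    linarith
  · have h1 : μ / F ≤ m := Nat.le_ceil _
    have h2 : μ ≤ F * m := by
      rw [div_le_iff₀ hFr] at h1
      linarith
    have ha' : (a' : ℝ) ≤ a * (F * m + 1 : ℕ) := by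
      have h3 : (a' : ℝ) / a ≤ μ := le_max_left _ _
      have h4 : (0 : ℝ) < a := by exact_mod_cast ha
      rw [div_le_iff₀ h4] at h3
      push_cast
      nlinarith
    have hb' : (b' : ℝ) ≤ b * (F * m + 1 : ℕ) := by
      have h3 : (b' : ℝ) / b ≤ μ := le_max_right _ _
      have h4 : (0 : ℝ) < b := by exact_mod_cast hb
      rw [div_le_iff₀ h4] at h3
      push_cast
      nlinarith
    have hcop : Nat.Coprime (F * m + 1) (a + b).factorial := by
      rw [← hF]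
      simp
    have h5 := h.blow (F * m + 1) (Nat.succ_pos _) hcop
    exact h5.mono (by exact_mod_cast ha') (by exact_mod_cast hb') le_rfl

end Helper61.PInt
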