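import Mathlib
import Pool.Agent.Lib_helper61.PInt.Basic

/-!
# Symmetric template families
-/

set_option autoImplicit false

namespace Helper61.PInt

open Finset Equiv

/-- number of permutations sending `x` below `i` -/
def c1 (m i : ℕ) (x : Fin m) : ℕ := (univ.filter (fun σ : Perm (Fin m) => (σ x : ℕ) < i)).card

/-- number of permutations sending `x, x'` below `i` -/
def c2 (m i : ℕ) (x x' : Fin m) : ℕ :=
  (univ.filter (fun σ : Perm (Fin m) => (σ x : ℕ) < i ∧ (σ x' : ℕ) < i)).card

theorem card_lt (m i : ℕ) (hi : i ≤ m) (σ : Perm (Fin m)) :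
    (univ.filter (fun x : Fin m => (σ x : ℕ) < i)).card = i := by
  have h1 : (univ.filter (fun x : Fin m => (σ x : ℕ) < i)).card =
      (univ.filter (fun x : Fin m => (x : ℕ) < i)).card := by
    apply Finset.card_bij (fun x _ => σ x)
    · intro x hx; simpa using hx
    · intro x _ y _ h; exact σ.injective h
    · intro y hy
      refine ⟨σ.symm y, ?_, by simp⟩
      simpa using hy
  rw [h1]
  have h2 : (univ.filter (fun x : Fin m => (x : ℕ) < i)) = univ.image (Fin.castLE hi) := by
    ext x
    simp only [mem_filter, mem_univ, true_and, mem_image]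
    constructor
    · intro h; exact ⟨⟨x, h⟩, rfl⟩
    · rintro ⟨y, rfl⟩; exact y.2
  rw [h2, Finset.card_image_of_injective _ (Fin.castLE_injective hi)]
  simp

theorem c1_const (m i : ℕ) (x x' : Fin m) : c1 m i x = c1 m i x' := by
  unfold c1
  apply Finset.card_bij (fun σ _ => σ * Equiv.swap x x')
  · intro σ hσ
    simpa using hσ
  · intro σ _ τ _ h; exact mul_right_cancel h
  · intro σ hσ
    refine ⟨σ * Equiv.swap x x', by simpa using hσ, ?_⟩
    rw [mul_assoc, Equiv.swap_mul_self, mul_one]

theorem c1_eq (m i : ℕ) (hi : i ≤ m) (x : Fin m) : m * c1 m i x = i * m.factorial := by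
  have h1 : ∑ y : Fin m, c1 m i y = m * c1 m i x := by
    rw [Finset.sum_congr rfl (fun y _ => c1_const m i y x)]
    simp
  rw [← h1]
  have h2 : ∑ y : Fin m, c1 m i y =
      ∑ σ : Perm (Fin m), (univ.filter (fun y : Fin m => (σ y : ℕ) < i)).card := by
    unfold c1
    simp only [Finset.card_filter]
    exact Finset.sum_comm
  rw [h2, Finset.sum_congr rfl (fun σ _ => card_lt m i hi σ)]
  simp [Fintype.card_perm, mul_comm]

theorem c2_const (m i : ℕ) (x x' x'' : Fin m) (h' : x' ≠ x) (h'' : x'' ≠ x) :
    c2 m i x x' = c2 m i x x'' := by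
  unfold c2
  apply Finset.card_bij (fun σ _ => σ * Equiv.swap x' x'')
  · intro σ hσ
    simp only [mem_filter, mem_univ, true_and, Perm.coe_mul, Function.comp_apply] at hσ ⊢
    rw [Equiv.swap_apply_of_ne_of_ne h'.symm h''.symm, Equiv.swap_apply_right]
    exact hσ
  · intro σ _ τ _ h; exact mul_right_cancel h
  · intro σ hσ
    refine ⟨σ * Equiv.swap x' x'', ?_, ?_⟩
    · simp only [mem_filter, mem_univ, true_and, Perm.coe_mul, Function.comp_apply] at hσ ⊢
      rw [Equiv.swap_apply_of_ne_of_ne h'.symm h''.symm, Equiv.swap_apply_left]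
      exact hσ
    · rw [mul_assoc, Equiv.swap_mul_self, mul_one]

theorem c2_eq (m i : ℕ) (hi : i ≤ m) (x x' : Fin m) (h : x' ≠ x) :
    m * (m - 1) * c2 m i x x' = i * (i - 1) * m.factorial := by
  have h1 : ∑ y ∈ univ.erase x, c2 m i x y = (m - 1) * c2 m i x x' := by
    rw [Finset.sum_congr rfl (fun y hy =>
      c2_const m i x y x' (Finset.ne_of_mem_erase hy) h)]
    rw [Finset.sum_const, Finset.card_erase_of_mem (mem_univ x)]
    simp
  have h2 : ∑ y ∈ univ.erase x, c2 m i x y = (i - 1) * c1 m i x := by
    unfold c2 c1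
    simp only [Finset.card_filter]
    rw [Finset.sum_comm, Finset.mul_sum]
    apply Finset.sum_congr rfl
    intro σ _
    by_cases hσ : (σ x : ℕ) < i
    · simp only [hσ, true_and, if_true, mul_one]
      have h3 := card_lt m i hi σ
      rw [Finset.card_filter, ← Finset.add_sum_erase univ _ (mem_univ x)] at h3
      simp only [hσ, if_true] at h3
      omega
    · simp [hσ]
  have h3 := c1_eq m i hi x
  calc m * (m - 1) * c2 m i x x' = m * ((m - 1) * c2 m i x x') := by ring
    _ = m * ((i - 1) * c1 m i x) := by rw [← h1, h2]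
    _ = (i - 1) * (m * c1 m i x) := by ring
    _ = (i - 1) * (i * m.factorial) := by rw [h3]
    _ = _ := by ring

/-- the exact intersection data of a family (all multiplied by the number of pairs) -/
structure Data (m n : ℕ) {ι : Type} [DecidableEq ι] (S : Fin m ⊕ Fin n → Finset ι)
    (X A B : ℕ) : Prop where
  cross : ∀ x y, m * n * (S (Sum.inl x) ∩ S (Sum.inr y)).card = X
  left : ∀ x x', x ≠ x' → m * (m - 1) * (S (Sum.inl x) ∩ S (Sum.inl x')).card = A
  right : ∀ y y', y ≠ y' → n * (n - 1) * (S (Sum.inr y) ∩ S (Sum.inr y')).card = B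

/-- existence of a family with given data and `t` sets -/
def Has (m n X A B t : ℕ) : Prop :=
  ∃ S : Fin m ⊕ Fin n → Finset (Fin t), Data m n S X A B

theorem Has.of {m n X A B : ℕ} {ι : Type} [Fintype ι] [DecidableEq ι]
    {S : Fin m ⊕ Fin n → Finset ι} (h : Data m n S X A B) : Has m n X A B (Fintype.card ι) := by
  refine ⟨fun w => (S w).map (Fintype.equivFin ι).toEmbedding, ?_, ?_, ?_⟩
  · intro x y; rw [← Finset.map_inter, Finset.card_map]; exact h.cross x y
  · intro x y hxy; rw [← Finset.map_inter, Finset.card_map]; exact h.left x y hxy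
  · intro x y hxy; rw [← Finset.map_inter, Finset.card_map]; exact h.right x y hxy

theorem Has.zero (m n : ℕ) : Has m n 0 0 0 0 :=
  ⟨fun _ => ∅, by constructor <;> intros <;> simp⟩

theorem Has.add {m n X A B t X' A' B' t' : ℕ} (h : Has m n X A B t) (h' : Has m n X' A' B' t') :
    Has m n (X + X') (A + A') (B + B') (t + t') := by
  obtain ⟨S, hS⟩ := h
  obtain ⟨S', hS'⟩ := h'
  have h1 : Data m n (fun w => (S w).disjSum (S' w)) (X + X') (A + A') (B + B') := by
    refine ⟨?_, ?_, ?_⟩
    · intro x y
      rw [disjSum_inter', Finset.card_disjSum, mul_add, hS.cross, hS'.cross]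
    · intro x y hxy
      rw [disjSum_inter', Finset.card_disjSum, mul_add, hS.left x y hxy, hS'.left x y hxy]
    · intro x y hxy
      rw [disjSum_inter', Finset.card_disjSum, mul_add, hS.right x y hxy, hS'.right x y hxy]
  have h2 := Has.of h1
  simpa using h2

theorem Has.smul {m n X A B t : ℕ} (h : Has m n X A B t) (k : ℕ) :
    Has m n (k * X) (k * A) (k * B) (k * t) := by
  induction k with
  | zero => simpa using Has.zero m n
  | succ k ih =>
    have := ih.add h
    simpa [add_mul] using this

theorem Has.sum {m n : ℕ} {Q : Type} (s : Finset Q) (X A B t : Q → ℕ)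
    (h : ∀ q ∈ s, Has m n (X q) (A q) (B q) (t q)) :
    Has m n (∑ q ∈ s, X q) (∑ q ∈ s, A q) (∑ q ∈ s, B q) (∑ q ∈ s, t q) := by
  classical
  induction s using Finset.induction_on with
  | empty => simpa using Has.zero m n
  | insert a s ha ih =>
    rw [Finset.sum_insert ha, Finset.sum_insert ha, Finset.sum_insert ha, Finset.sum_insert ha]
    exact (h a (mem_insert_self a s)).add (ih (fun q hq => h q (mem_insert_of_mem hq)))

/-- the family of all two-element cross sets -/
theorem Has.pairs (m n : ℕ) : Has m n (m * n) 0 0 (m * n) := by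
  classical
  let S : Fin m ⊕ Fin n → Finset (Fin m × Fin n) := fun w =>
    match w with
    | Sum.inl x => univ.filter (fun k => k.1 = x)
    | Sum.inr y => univ.filter (fun k => k.2 = y)
  have h : Data m n S (m * n) 0 0 := by
    refine ⟨?_, ?_, ?_⟩
    · intro x y
      have : S (Sum.inl x) ∩ S (Sum.inr y) = {(x, y)} := by
        ext ⟨a, b⟩
        simp [S]
      rw [this]; simp
    · intro x x' hne
      have : S (Sum.inl x) ∩ S (Sum.inl x') = ∅ := by
        ext ⟨a, b⟩
        simp only [S, mem_inter, mem_filter, mem_univ, true_and, notMem_empty, iff_false]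
        rintro ⟨h1, h2⟩
        exact hne (h1.symm.trans h2)
      rw [this]; simp
    · intro x x' hne
      have : S (Sum.inr x) ∩ S (Sum.inr x') = ∅ := by
        ext ⟨a, b⟩
        simp only [S, mem_inter, mem_filter, mem_univ, true_and, notMem_empty, iff_false]
        rintro ⟨h1, h2⟩
        exact hne (h1.symm.trans h2)
      rw [this]; simp
  have h2 := Has.of h
  simpa using h2

/-- the symmetric family of type `(i, j)` -/
theorem Has.type (m n i j : ℕ) (hi : i ≤ m) (hj : j ≤ n) :
    Has m n (i * j * (m.factorial * n.factorial)) (i * (i - 1) * (m.factorial * n.factorial))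
      (j * (j - 1) * (m.factorial * n.factorial)) (m.factorial * n.factorial) := by
  classical
  let S : Fin m ⊕ Fin n → Finset (Perm (Fin m) × Perm (Fin n)) := fun w =>
    match w with
    | Sum.inl x => univ.filter (fun k => (k.1 x : ℕ) < i)
    | Sum.inr y => univ.filter (fun k => (k.2 y : ℕ) < j)
  have h : Data m n S (i * j * (m.factorial * n.factorial))
      (i * (i - 1) * (m.factorial * n.factorial)) (j * (j - 1) * (m.factorial * n.factorial)) := by
    refine ⟨?_, ?_, ?_⟩
    · intro x y
      have : S (Sum.inl x) ∩ S (Sum.inr y) =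
          (univ.filter (fun σ : Perm (Fin m) => (σ x : ℕ) < i)) ×ˢ
            (univ.filter (fun σ : Perm (Fin n) => (σ y : ℕ) < j)) := by
        ext ⟨a, b⟩
        simp [S]
      rw [this, Finset.card_product]
      calc m * n * (c1 m i x * c1 n j y) = (m * c1 m i x) * (n * c1 n j y) := by ring
        _ = (i * m.factorial) * (j * n.factorial) := by rw [c1_eq m i hi, c1_eq n j hj]
        _ = _ := by ring
    · intro x x' hne
      have : S (Sum.inl x) ∩ S (Sum.inl x') =
          (univ.filter (fun σ : Perm (Fin m) => (σ x : ℕ) < i ∧ (σ x' : ℕ) < i)) ×ˢ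
            (univ : Finset (Perm (Fin n))) := by
        ext ⟨a, b⟩
        simp [S]
      rw [this, Finset.card_product]
      have h2 : (univ : Finset (Perm (Fin n))).card = n.factorial := by
        rw [Finset.card_univ, Fintype.card_perm, Fintype.card_fin]
      rw [h2]
      calc m * (m - 1) * (c2 m i x x' * n.factorial) =
          (m * (m - 1) * c2 m i x x') * n.factorial := by ring
        _ = (i * (i - 1) * m.factorial) * n.factorial := by rw [c2_eq m i hi x x' hne.symm]
        _ = _ := by ring
    · intro x x' hne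
      have : S (Sum.inr x) ∩ S (Sum.inr x') =
          (univ : Finset (Perm (Fin m))) ×ˢ
          (univ.filter (fun σ : Perm (Fin n) => (σ x : ℕ) < j ∧ (σ x' : ℕ) < j)) := by
        ext ⟨a, b⟩
        simp [S]
      rw [this, Finset.card_product]
      have h2 : (univ : Finset (Perm (Fin m))).card = m.factorial := by
        rw [Finset.card_univ, Fintype.card_perm, Fintype.card_fin]
      rw [h2]
      calc n * (n - 1) * (m.factorial * c2 n j x x') =
          (n * (n - 1) * c2 n j x x') * m.factorial := by ring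
        _ = (j * (j - 1) * n.factorial) * m.factorial := by rw [c2_eq n j hj x x' hne.symm]
        _ = _ := by ring
  have h2 := Has.of h
  simpa [Fintype.card_perm] using h2

/-- general template family -/
theorem Has.template (m n : ℕ) (s : Finset (ℕ × ℕ)) (k : ℕ × ℕ → ℕ) (K : ℕ)
    (hs : ∀ q ∈ s, q.1 ≤ m ∧ q.2 ≤ n) :
    Has m n (∑ q ∈ s, k q * (q.1 * q.2 * (m.factorial * n.factorial)) + K * (m * n))
      (∑ q ∈ s, k q * (q.1 * (q.1 - 1) * (m.factorial * n.factorial)))
      (∑ q ∈ s, k q * (q.2 * (q.2 - 1) * (m.factorial * n.factorial)))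
      (∑ q ∈ s, k q * (m.factorial * n.factorial) + K * (m * n)) := by
  have h1 := Has.sum s _ _ _ _
    (fun q hq => (Has.type m n q.1 q.2 (hs q hq).1 (hs q hq).2).smul (k q))
  have h2 := h1.add ((Has.pairs m n).smul K)
  simpa using h2

theorem Has.cov {m n X A B t P R : ℕ} (h : Has m n X A B t) (hm : 2 ≤ m) (hn : 2 ≤ n)
    (hX : m * n * P ≤ X) (hA : A ≤ m * (m - 1) * R) (hB : B ≤ n * (n - 1) * R) :
    Cov m n P R t := by
  obtain ⟨S, hS⟩ := h
  have hmn : 0 < m * n := Nat.mul_pos (by omega) (by omega)
  have hm' : 0 < m * (m - 1) := Nat.mul_pos (by omega) (by omega)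
  have hn' : 0 < n * (n - 1) := Nat.mul_pos (by omega) (by omega)
  refine ⟨S, ?_, ?_⟩
  · rintro (x | x) (y | y) hs
    · simp at hs
    · have h1 := hS.cross x y
      rw [← h1] at hX
      exact Nat.le_of_mul_le_mul_left hX hmn
    · have h1 := hS.cross y x
      rw [← h1] at hX
      rw [Finset.inter_comm]
      exact Nat.le_of_mul_le_mul_left hX hmn
    · simp at hs
  · rintro (x | x) (y | y) hne hs
    · have h1 := hS.left x y (fun h => hne (by rw [h]))
      rw [← h1] at hA
      exact Nat.le_of_mul_le_mul_left hA hm'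
    · simp at hs
    · simp at hs
    · have h1 := hS.right x y (fun h => hne (by rw [h]))
      rw [← h1] at hB
      exact Nat.le_of_mul_le_mul_left hB hn'

end Helper61.PInt
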