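import Mathlib
import Pool.Agent.Lib_helper61.PInt.LP
import Pool.Agent.Lib_helper61.PInt.Blow
import Pool.Agent.Lib_helper61.PInt.Template

/-!
# The upper bound
-/

set_option autoImplicit false

namespace Helper61.PInt

open Finset

/-- dyadic template from a feasible solution -/
theorem dyadic {p : ℕ} (hp : 1 ≤ p) {l : ℝ} (hl : 0 < l) {x : ℕ × ℕ →₀ ℝ} (hx : Feasible p l x)
    (θ : ℝ) (hθ0 : 0 < θ) (hθ1 : θ ≤ 1) (m n : ℕ) (hm : 2 ≤ m) (hn : 2 ≤ n)
    (h1 : θ * n * l ≤ (m : ℝ) - 1) (h2 : θ * m ≤ l * ((n : ℝ) - 1))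
    (hs : ∀ q ∈ x.support, q.1 ≤ m ∧ q.2 ≤ n) (ε : ℝ) (hε : 0 < ε) :
    ∃ r t : ℕ, Cov m n (2 ^ r * p) (2 ^ r * (p - 1)) t ∧
      (t : ℝ) ≤ 2 ^ r * ((m : ℝ) * n * ((x.sum fun _ w => w) + (1 - θ) * p + ε)) := by
  have hp' : (1 : ℝ) ≤ p := by exact_mod_cast hp
  have hm0 : (0 : ℝ) < m := by exact_mod_cast (by omega : 0 < m)
  have hn0 : (0 : ℝ) < n := by exact_mod_cast (by omega : 0 < n)
  have hmn : (0 : ℝ) < m * n := by positivity
  set W : ℕ := m.factorial * n.factorial with hW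
  have hW0 : 0 < W := Nat.mul_pos (Nat.factorial_pos _) (Nat.factorial_pos _)
  have hWr : (0 : ℝ) < W := by exact_mod_cast hW0
  set C : ℕ := ∑ q ∈ x.support, q.1 * q.2 with hC
  obtain ⟨r, hr⟩ : ∃ r : ℕ, ((W * C + 1 : ℕ) : ℝ) ≤ ε * 2 ^ r := by
    obtain ⟨r, hr⟩ := pow_unbounded_of_one_lt (((W * C + 1 : ℕ) : ℝ) / ε) (one_lt_two (α := ℝ))
    refine ⟨r, ?_⟩
    rw [div_lt_iff₀ hε] at hr
    linarith
  have h2r : (0 : ℝ) < 2 ^ r := by positivity
  let k : ℕ × ℕ → ℕ := fun q => ⌊θ * x q * 2 ^ r * (m * n) / W⌋₊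
  have hk0 : ∀ q, 0 ≤ θ * x q * 2 ^ r * (m * n) / W := by
    intro q
    have := hx.nonneg q
    positivity
  have hkle : ∀ q, (k q : ℝ) * W ≤ θ * x q * 2 ^ r * (m * n) := by
    intro q
    have := Nat.floor_le (hk0 q)
    rwa [le_div_iff₀ hWr] at this
  have hkge : ∀ q, θ * x q * 2 ^ r * (m * n) - W ≤ (k q : ℝ) * W := by
    intro q
    have h3 := (Nat.lt_floor_add_one (θ * x q * 2 ^ r * (m * n) / W)).le
    rw [div_le_iff₀ hWr] at h3
    have : ((⌊θ * x q * 2 ^ r * (m * n) / W⌋₊ : ℝ) + 1) * W = (k q : ℝ) * W + W := by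
      simp only [k]; ring
    rw [this] at h3
    linarith
  set K : ℕ := ⌈(1 - θ) * 2 ^ r * p + W * C⌉₊ with hK
  have hK1 : (1 - θ) * 2 ^ r * p + W * C ≤ K := Nat.le_ceil _
  have hK2 : (K : ℝ) < (1 - θ) * 2 ^ r * p + W * C + 1 := by
    apply Nat.ceil_lt_add_one
    have : 0 ≤ 1 - θ := by linarith
    positivity
  have hhas := Has.template m n x.support k K hs
  refine ⟨r, _, hhas.cov hm hn ?_ ?_ ?_, ?_⟩
  · -- cross
    have : ((m * n * (2 ^ r * p) : ℕ) : ℝ) ≤
        ((∑ q ∈ x.support, k q * (q.1 * q.2 * (m.factorial * n.factorial)) + K * (m * n) : ℕ) :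
          ℝ) := by
      push_cast
      have e1 : ∑ q ∈ x.support, (k q : ℝ) * ((q.1 : ℝ) * q.2 *
          ((m.factorial : ℝ) * n.factorial)) =
          ∑ q ∈ x.support, ((k q : ℝ) * W) * ((q.1 : ℝ) * q.2) := by
        apply Finset.sum_congr rfl
        intro q _
        rw [hW]; push_cast; ring
      rw [e1]
      have e2 : ∑ q ∈ x.support, (θ * x q * 2 ^ r * (m * n) - W) * ((q.1 : ℝ) * q.2) ≤
          ∑ q ∈ x.support, ((k q : ℝ) * W) * ((q.1 : ℝ) * q.2) := by
        apply Finset.sum_le_sum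
        intro q _
        exact mul_le_mul_of_nonneg_right (hkge q) (by positivity)
      have e3 : ∑ q ∈ x.support, (θ * x q * 2 ^ r * (m * n) - W) * ((q.1 : ℝ) * q.2) =
          θ * 2 ^ r * (m * n) * (x.sum fun q w => w * ((q.1 : ℝ) * q.2)) - W * C := by
        rw [Finsupp.sum, Finset.mul_sum, hC]
        push_cast
        rw [Finset.mul_sum, ← Finset.sum_sub_distrib]
        apply Finset.sum_congr rfl
        intro q _
        ring
      have e4 : θ * 2 ^ r * (m * n) * p ≤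
          θ * 2 ^ r * (m * n) * (x.sum fun q w => w * ((q.1 : ℝ) * q.2)) :=
        mul_le_mul_of_nonneg_left hx.cross (by positivity)
      have e5 : ((1 - θ) * 2 ^ r * p + W * C) * (m * n) ≤ (K : ℝ) * (m * n) :=
        mul_le_mul_of_nonneg_right hK1 hmn.le
      have e6 : (W : ℝ) * C ≤ W * C * (m * n) := by
        have h7 : (1 : ℝ) ≤ m * n := by
          have : 1 ≤ m * n := Nat.mul_pos (by omega) (by omega)
          exact_mod_cast this
        have h8 : (0 : ℝ) ≤ W * C := by positivity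
        nlinarith
      linarith
    exact_mod_cast this
  · -- left
    have : ((∑ q ∈ x.support, k q * (q.1 * (q.1 - 1) * (m.factorial * n.factorial)) : ℕ) : ℝ) ≤
        ((m * (m - 1) * (2 ^ r * (p - 1)) : ℕ) : ℝ) := by
      have hc : ∀ i : ℕ, ((i * (i - 1) : ℕ) : ℝ) = (i : ℝ) * ((i : ℝ) - 1) := by
        intro i
        rcases Nat.eq_zero_or_pos i with h | h
        · subst h; simp
        · rw [Nat.cast_mul, Nat.cast_sub h]; simp
      have hp1 : ((p - 1 : ℕ) : ℝ) = (p : ℝ) - 1 := by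
        rw [Nat.cast_sub hp]; simp
      have e0 : ((m * (m - 1) * (2 ^ r * (p - 1)) : ℕ) : ℝ) =
          ((m : ℝ) * ((m : ℝ) - 1)) * (2 ^ r * ((p : ℝ) - 1)) := by
        rw [Nat.cast_mul, hc, Nat.cast_mul, hp1]; simp
      rw [e0]
      have e1 : ((∑ q ∈ x.support, k q * (q.1 * (q.1 - 1) * (m.factorial * n.factorial)) : ℕ) :
          ℝ) = ∑ q ∈ x.support, ((k q : ℝ) * W) * ((q.1 : ℝ) * ((q.1 : ℝ) - 1)) := by
        rw [Nat.cast_sum]
        apply Finset.sum_congr rfl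
        intro q _
        rw [Nat.cast_mul, Nat.cast_mul (q.1 * (q.1 - 1)), hc, hW]; push_cast; ring
      rw [e1]
      have e2 : ∑ q ∈ x.support, ((k q : ℝ) * W) * ((q.1 : ℝ) * ((q.1 : ℝ) - 1)) ≤
          ∑ q ∈ x.support, (θ * x q * 2 ^ r * (m * n)) * ((q.1 : ℝ) * ((q.1 : ℝ) - 1)) := by
        apply Finset.sum_le_sum
        intro q _
        apply mul_le_mul_of_nonneg_right (hkle q)
        rw [← hc]; positivity
      have e3 : ∑ q ∈ x.support, (θ * x q * 2 ^ r * (m * n)) * ((q.1 : ℝ) * ((q.1 : ℝ) - 1)) =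
          θ * 2 ^ r * (m * n) * (x.sum fun q w => w * ((q.1 : ℝ) * ((q.1 : ℝ) - 1))) := by
        rw [Finsupp.sum, Finset.mul_sum]
        apply Finset.sum_congr rfl
        intro q _
        ring
      have e4 : θ * 2 ^ r * (m * n) * (x.sum fun q w => w * ((q.1 : ℝ) * ((q.1 : ℝ) - 1))) ≤
          θ * 2 ^ r * (m * n) * (((p : ℝ) - 1) * l) :=
        mul_le_mul_of_nonneg_left hx.left (by positivity)
      have e5 : θ * 2 ^ r * (m * n) * (((p : ℝ) - 1) * l) =
          (θ * n * l) * ((2 ^ r * ((p : ℝ) - 1)) * m) := by ring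
      have e6 : (θ * n * l) * ((2 ^ r * ((p : ℝ) - 1)) * m) ≤
          ((m : ℝ) - 1) * ((2 ^ r * ((p : ℝ) - 1)) * m) := by
        apply mul_le_mul_of_nonneg_right h1
        have : (0 : ℝ) ≤ (p : ℝ) - 1 := by linarith
        positivity
      linarith
    exact_mod_cast this
  · -- right
    have : ((∑ q ∈ x.support, k q * (q.2 * (q.2 - 1) * (m.factorial * n.factorial)) : ℕ) : ℝ) ≤
        ((n * (n - 1) * (2 ^ r * (p - 1)) : ℕ) : ℝ) := by
      have hc : ∀ i : ℕ, ((i * (i - 1) : ℕ) : ℝ) = (i : ℝ) * ((i : ℝ) - 1) := by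
        intro i
        rcases Nat.eq_zero_or_pos i with h | h
        · subst h; simp
        · rw [Nat.cast_mul, Nat.cast_sub h]; simp
      have hp1 : ((p - 1 : ℕ) : ℝ) = (p : ℝ) - 1 := by
        rw [Nat.cast_sub hp]; simp
      have e0 : ((n * (n - 1) * (2 ^ r * (p - 1)) : ℕ) : ℝ) =
          ((n : ℝ) * ((n : ℝ) - 1)) * (2 ^ r * ((p : ℝ) - 1)) := by
        rw [Nat.cast_mul, hc, Nat.cast_mul, hp1]; simp
      rw [e0]
      have e1 : ((∑ q ∈ x.support, k q * (q.2 * (q.2 - 1) * (m.factorial * n.factorial)) : ℕ) :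
          ℝ) = ∑ q ∈ x.support, ((k q : ℝ) * W) * ((q.2 : ℝ) * ((q.2 : ℝ) - 1)) := by
        rw [Nat.cast_sum]
        apply Finset.sum_congr rfl
        intro q _
        rw [Nat.cast_mul, Nat.cast_mul (q.2 * (q.2 - 1)), hc, hW]; push_cast; ring
      rw [e1]
      have e2 : ∑ q ∈ x.support, ((k q : ℝ) * W) * ((q.2 : ℝ) * ((q.2 : ℝ) - 1)) ≤
          ∑ q ∈ x.support, (θ * x q * 2 ^ r * (m * n)) * ((q.2 : ℝ) * ((q.2 : ℝ) - 1)) := by
        apply Finset.sum_le_sum
        intro q _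
        apply mul_le_mul_of_nonneg_right (hkle q)
        rw [← hc]; positivity
      have e3 : ∑ q ∈ x.support, (θ * x q * 2 ^ r * (m * n)) * ((q.2 : ℝ) * ((q.2 : ℝ) - 1)) =
          θ * 2 ^ r * (m * n) * (x.sum fun q w => w * ((q.2 : ℝ) * ((q.2 : ℝ) - 1))) := by
        rw [Finsupp.sum, Finset.mul_sum]
        apply Finset.sum_congr rfl
        intro q _
        ring
      have e4 : θ * 2 ^ r * (m * n) * (x.sum fun q w => w * ((q.2 : ℝ) * ((q.2 : ℝ) - 1))) ≤
          θ * 2 ^ r * (m * n) * (((p : ℝ) - 1) / l) :=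
        mul_le_mul_of_nonneg_left hx.right (by positivity)
      have e5 : θ * 2 ^ r * (m * n) * (((p : ℝ) - 1) / l) =
          (θ * m) * ((2 ^ r * ((p : ℝ) - 1)) * n / l) := by ring
      have e6 : (θ * m) * ((2 ^ r * ((p : ℝ) - 1)) * n / l) ≤
          (l * ((n : ℝ) - 1)) * ((2 ^ r * ((p : ℝ) - 1)) * n / l) := by
        apply mul_le_mul_of_nonneg_right h2
        have : (0 : ℝ) ≤ (p : ℝ) - 1 := by linarith
        positivity
      have e7 : (l * ((n : ℝ) - 1)) * ((2 ^ r * ((p : ℝ) - 1)) * n / l) =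
          ((n : ℝ) * ((n : ℝ) - 1)) * (2 ^ r * ((p : ℝ) - 1)) := by
        field_simp
      linarith
    exact_mod_cast this
  · push_cast
    have e1 : ∑ q ∈ x.support, (k q : ℝ) * ((m.factorial : ℝ) * n.factorial) ≤
        θ * 2 ^ r * (m * n) * (x.sum fun _ w => w) := by
      rw [Finsupp.sum, Finset.mul_sum]
      apply Finset.sum_le_sum
      intro q _
      have := hkle q
      rw [hW] at this
      push_cast at this
      linarith
    have e2 : θ * 2 ^ r * (m * n) * (x.sum fun _ w => w) ≤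
        2 ^ r * (m * n) * (x.sum fun _ w => w) := by
      have := hx.sum_nonneg
      have h3 : θ * (2 ^ r * (m * n) * (x.sum fun _ w => w)) ≤
          1 * (2 ^ r * (m * n) * (x.sum fun _ w => w)) :=
        mul_le_mul_of_nonneg_right hθ1 (by positivity)
      linarith
    have e3 : (K : ℝ) * (m * n) ≤ ((1 - θ) * 2 ^ r * p + ε * 2 ^ r) * (m * n) := by
      apply mul_le_mul_of_nonneg_right _ hmn.le
      push_cast at hr
      linarith
    calc _ ≤ 2 ^ r * (m * n) * (x.sum fun _ w => w) +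
          ((1 - θ) * 2 ^ r * p + ε * 2 ^ r) * ((m : ℝ) * n) := by linarith
      _ = _ := by ring

/-- integral near-optimal families with the right proportions -/
theorem near_opt {p : ℕ} (hp : 1 ≤ p) {l : ℝ} (hl : 0 < l) (η : ℝ) (hη : 0 < η) :
    ∃ M N t : ℕ, 0 < M ∧ 0 < N ∧ Cov M N p (p - 1) t ∧
      (t : ℝ) ≤ (T p l + η) * (M * N) ∧ |(M : ℝ) / N - l| ≤ η := by
  have hp' : (1 : ℝ) ≤ p := by exact_mod_cast hp
  -- a near optimal feasible solution
  obtain ⟨x, hx, hxs⟩ := exists_near p hp l hl (η / 4) (by linarith)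
  -- choose θ
  set δ : ℝ := min (1 / 2) (η / (4 * p)) with hδ
  have hδ0 : 0 < δ := lt_min (by norm_num) (by positivity)
  have hδ1 : δ ≤ 1 / 2 := min_le_left _ _
  have hδ2 : δ * p ≤ η / 4 := by
    have : δ ≤ η / (4 * p) := min_le_right _ _
    calc δ * p ≤ η / (4 * p) * p := by gcongr
      _ = η / 4 := by field_simp
  -- bound for the support
  obtain ⟨L, hL⟩ : ∃ L : ℕ, ∀ q ∈ x.support, q.1 ≤ L ∧ q.2 ≤ L := by
    refine ⟨∑ q ∈ x.support, (q.1 + q.2), ?_⟩
    intro q hq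
    have := Finset.single_le_sum (f := fun q : ℕ × ℕ => q.1 + q.2)
      (fun _ _ => Nat.zero_le _) hq
    omega
  -- choose n
  obtain ⟨n, hn⟩ : ∃ n : ℕ, max (max (L : ℝ) (L / l)) (max (2 / l + 2) (max ((1 + l) / (δ * l))
      (1 / η))) ≤ n := exists_nat_ge _
  have hn1 : (L : ℝ) ≤ n := (le_max_left _ _).trans ((le_max_left _ _).trans hn)
  have hn2 : (L : ℝ) / l ≤ n := (le_max_right _ _).trans ((le_max_left _ _).trans hn)
  have hn3 : 2 / l + 2 ≤ (n : ℝ) := (le_max_left _ _).trans ((le_max_right _ _).trans hn)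
  have hn4 : (1 + l) / (δ * l) ≤ (n : ℝ) :=
    (le_max_left _ _).trans ((le_max_right _ _).trans ((le_max_right _ _).trans hn))
  have hn5 : 1 / η ≤ (n : ℝ) :=
    (le_max_right _ _).trans ((le_max_right _ _).trans ((le_max_right _ _).trans hn))
  set m : ℕ := ⌈l * n⌉₊ with hm
  have hnpos : (0 : ℝ) < n := by
    have : 0 < 2 / l := by positivity
    linarith
  have hm1 : l * n ≤ m := Nat.le_ceil _
  have hm2 : (m : ℝ) < l * n + 1 := Nat.ceil_lt_add_one (by positivity)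
  have hn2' : 2 ≤ n := by
    have : (2 : ℝ) ≤ n := by
      have : 0 < 2 / l := by positivity
      linarith
    exact_mod_cast this
  have hm2' : 2 ≤ m := by
    have : (2 : ℝ) ≤ m := by
      have h3 : 2 / l ≤ n := by linarith
      rw [div_le_iff₀ hl] at h3
      linarith
    exact_mod_cast this
  have hn4' : 1 + l ≤ δ * l * n := by
    rw [div_le_iff₀ (by positivity)] at hn4
    linarith
  have hc1 : (1 - δ) * n * l ≤ (m : ℝ) - 1 := by
    have : (1 - δ) * n * l = l * n - δ * l * n := by ring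
    linarith
  have hc2 : (1 - δ) * m ≤ l * ((n : ℝ) - 1) := by
    have h3 : (1 - δ) * m ≤ (1 - δ) * (l * n + 1) :=
      mul_le_mul_of_nonneg_left hm2.le (by linarith)
    have h4 : (1 - δ) * (l * n + 1) = l * n - δ * l * n + (1 - δ) := by ring
    nlinarith
  have hsupp : ∀ q ∈ x.support, q.1 ≤ m ∧ q.2 ≤ n := by
    intro q hq
    obtain ⟨h3, h4⟩ := hL q hq
    have h5 : (L : ℝ) ≤ m := by
      rw [div_le_iff₀ hl] at hn2
      linarith
    exact ⟨h3.trans (by exact_mod_cast h5), h4.trans (by exact_mod_cast hn1)⟩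
  obtain ⟨r, t0, hcov, ht0⟩ := dyadic hp hl hx (1 - δ) (by linarith) (by linarith) m n hm2' hn2'
    hc1 hc2 hsupp (η / 4) (by linarith)
  obtain ⟨k, t, hk, hcov2, ht⟩ := Cov.halve_iter r hcov (by omega) (η / 4) (by linarith)
  refine ⟨m * k, n * k, t, Nat.mul_pos (by omega) hk, Nat.mul_pos (by omega) hk, hcov2, ?_, ?_⟩
  · have h2r : (0 : ℝ) < 2 ^ r := by positivity
    have h3 : (t0 : ℝ) / 2 ^ r ≤ (m : ℝ) * n * ((x.sum fun _ w => w) + (1 - (1 - δ)) * p +
        η / 4) := by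
      rw [div_le_iff₀ h2r]
      linarith
    have h4 : (1 : ℝ) ≤ (m : ℝ) * n := by
      have : 1 ≤ m * n := Nat.mul_pos (by omega) (by omega)
      exact_mod_cast this
    have h5 : (t0 : ℝ) / 2 ^ r + η / 4 ≤ (m : ℝ) * n * (T p l + η) := by
      have h6 : (m : ℝ) * n * ((x.sum fun _ w => w) + (1 - (1 - δ)) * p + η / 4) ≤
          (m : ℝ) * n * (T p l + η / 4 + η / 4 + η / 4) := by
        apply mul_le_mul_of_nonneg_left _ (by positivity)
        linarith
      have h7 : η / 4 ≤ (m : ℝ) * n * (η / 4) := by nlinarith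
      have h8 : (m : ℝ) * n * (T p l + η) = (m : ℝ) * n * (T p l + η / 4 + η / 4 + η / 4) +
          (m : ℝ) * n * (η / 4) := by ring
      linarith
    calc (t : ℝ) ≤ ((t0 : ℝ) / 2 ^ r + η / 4) * (k : ℝ) ^ 2 := ht
      _ ≤ ((m : ℝ) * n * (T p l + η)) * (k : ℝ) ^ 2 := by gcongr
      _ = _ := by push_cast; ring
  · have hk' : (0 : ℝ) < k := by exact_mod_cast hk
    have e1 : (((m * k : ℕ) : ℝ)) / ((n * k : ℕ) : ℝ) = m / n := by
      push_cast
      field_simp
    rw [e1]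
    rw [abs_le]
    constructor
    · have : l ≤ (m : ℝ) / n := by
        rw [le_div_iff₀ hnpos]; exact hm1
      linarith
    · have h3 : (m : ℝ) / n ≤ l + 1 / n := by
        rw [div_le_iff₀ hnpos]
        have : (l + 1 / (n : ℝ)) * n = l * n + 1 := by field_simp
        linarith
      have h4 : 1 / (n : ℝ) ≤ η := by
        rw [div_le_iff₀ hη] at hn5
        rw [div_le_iff₀ hnpos]
        linarith
      linarith

end Helper61.PInt
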