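import Mathlib
import Pool.Agent.Lib_helper61.PInt.Upper
import Pool.Agent.Lib_helper61.PInt.Duality

/-!
# The asymptotic formula
-/

set_option autoImplicit false

namespace Helper61.PInt

open Finset Filter Topology

theorem isPRep_iff {a b p t : ℕ} (hp : 1 ≤ p) (S : Fin a ⊕ Fin b → Finset (Fin t)) :
    IsPRep p (completeBipartiteGraph (Fin a) (Fin b)) S ↔ Good Sum.isLeft p (p - 1) S := by
  constructor
  · intro h
    refine ⟨?_, ?_⟩
    · rintro (x | x) (y | y) hs
      · simp at hs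
      · exact (h _ _ (by simp)).mp (by simp)
      · exact (h _ _ (by simp)).mp (by simp)
      · simp at hs
    · rintro (x | x) (y | y) hne hs
      · have h1 := (h _ _ hne).not.mp (by simp)
        omega
      · simp at hs
      · simp at hs
      · have h1 := (h _ _ hne).not.mp (by simp)
        omega
  · rintro ⟨h1, h2⟩
    rintro (x | x) (y | y) hne
    · have h3 := h2 _ _ hne (by simp)
      simp only [completeBipartiteGraph_adj, Sum.isLeft_inl, Sum.isRight_inl, Bool.false_eq_true,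
        and_false, false_and, or_self, false_iff, not_le]
      omega
    · have h3 := h1 (Sum.inl x) (Sum.inr y) (by simp)
      simp [h3]
    · have h3 := h1 (Sum.inr x) (Sum.inl y) (by simp)
      simp [h3]
    · have h3 := h2 _ _ hne (by simp)
      simp only [completeBipartiteGraph_adj, Sum.isLeft_inr, Sum.isRight_inr, Bool.false_eq_true,
        and_false, false_and, or_self, false_iff, not_le]
      omega

theorem theta_le {a b p t : ℕ} (hp : 1 ≤ p) (h : Cov a b p (p - 1) t) :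
    theta p (completeBipartiteGraph (Fin a) (Fin b)) ≤ t := by
  obtain ⟨S, hS⟩ := h
  exact Nat.sInf_le ⟨S, (isPRep_iff hp S).mpr hS⟩

theorem theta_cov {a b p : ℕ} (hp : 1 ≤ p) :
    Cov a b p (p - 1) (theta p (completeBipartiteGraph (Fin a) (Fin b))) := by
  obtain ⟨M, N, t, hM, hN, hcov, _⟩ := near_opt hp one_pos 1 one_pos
  obtain ⟨n, _, hn⟩ := hcov.extend hM hN a b
  obtain ⟨S, hS⟩ := hn
  have hne : {t : ℕ | ∃ S : Fin a ⊕ Fin b → Finset (Fin t),
      IsPRep p (completeBipartiteGraph (Fin a) (Fin b)) S}.Nonempty :=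
    ⟨_, S, (isPRep_iff hp S).mpr hS⟩
  obtain ⟨S', hS'⟩ := Nat.sInf_mem hne
  exact ⟨S', (isPRep_iff hp S').mp hS'⟩

theorem T_tendsto {ι : Type} {F : Filter ι} {p : ℕ} (hp : 1 ≤ p) {l : ℝ} (hl : 0 < l) (f : ι → ℝ)
    (hf : Tendsto f F (𝓝 l)) : Tendsto (fun a => T p (f a)) F (𝓝 (T p l)) := by
  have hpos : ∀ᶠ a in F, 0 < f a := hf.eventually (lt_mem_nhds hl)
  -- θ a = min (f a / l) (l / f a)
  have h1 : Tendsto (fun a => min (f a / l) (l / f a)) F (𝓝 1) := by
    have e1 : Tendsto (fun a => f a / l) F (𝓝 1) := by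
      have := hf.div_const l
      rwa [div_self hl.ne'] at this
    have e2 : Tendsto (fun a => l / f a) F (𝓝 1) := by
      have := (tendsto_const_nhds (x := l)).div hf hl.ne'
      rwa [div_self hl.ne'] at this
    simpa using e1.min e2
  have h2 : Tendsto (fun a => (1 - min (f a / l) (l / f a)) * (p : ℝ)) F (𝓝 0) := by
    have := (h1.const_sub 1).mul_const (p : ℝ)
    simpa using this
  have hb : ∀ᶠ a in F, T p l - (1 - min (f a / l) (l / f a)) * (p : ℝ) ≤ T p (f a) ∧
      T p (f a) ≤ T p l + (1 - min (f a / l) (l / f a)) * (p : ℝ) := by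
    filter_upwards [hpos] with a ha
    have hm0 : 0 ≤ min (f a / l) (l / f a) := le_min (by positivity) (by positivity)
    have hm1 : min (f a / l) (l / f a) ≤ 1 := by
      rcases le_total (f a) l with h | h
      · exact (min_le_left _ _).trans ((div_le_one hl).mpr h)
      · exact (min_le_right _ _).trans ((div_le_one ha).mpr h)
    have k1 : min (f a / l) (l / f a) * l ≤ f a := by
      have := min_le_left (f a / l) (l / f a)
      calc _ ≤ (f a / l) * l := by gcongr
        _ = f a := by field_simp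
    have k2 : min (f a / l) (l / f a) * f a ≤ l := by
      have := min_le_right (f a / l) (l / f a)
      calc _ ≤ (l / f a) * f a := by gcongr
        _ = l := by field_simp
    constructor
    · have := T_scale p hp l (f a) _ hl ha hm0 hm1 k2 k1
      linarith
    · exact T_scale p hp (f a) l _ ha hl hm0 hm1 k1 k2
  apply tendsto_of_tendsto_of_tendsto_of_le_of_le' (g := fun a =>
    T p l - (1 - min (f a / l) (l / f a)) * (p : ℝ)) (h := fun a =>
    T p l + (1 - min (f a / l) (l / f a)) * (p : ℝ))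
  · simpa using h2.const_sub (T p l)
  · simpa using h2.const_add (T p l)
  · exact hb.mono (fun a h => h.1)
  · exact hb.mono (fun a h => h.2)

theorem upper_eventually {ι : Type} {𝓕 : Filter ι} {p : ℕ} (hp : 1 ≤ p) {l : ℝ} (hl : 0 < l)
    (a b : ι → ℕ) (ha : Tendsto a 𝓕 atTop)
    (hb : Tendsto (fun i => (a i : ℝ) / (b i : ℝ)) 𝓕 (𝓝 l)) (c : ℝ) (hc : T p l < c) :
    ∀ᶠ i in 𝓕,
      (theta p (completeBipartiteGraph (Fin (a i)) (Fin (b i))) : ℝ) /
        ((a i : ℝ) * (b i : ℝ)) < c := by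
  -- choose η
  obtain ⟨η, hη0, hηl, hη⟩ : ∃ η : ℝ, 0 < η ∧ η < l ∧ (T p l + η) * (1 / (1 - η / l)) < c := by
    have h1 : Tendsto (fun η : ℝ => (T p l + η) * (1 / (1 - η / l))) (𝓝[>] 0)
        (𝓝 ((T p l + 0) * (1 / (1 - 0 / l)))) := by
      apply Tendsto.mono_left _ nhdsWithin_le_nhds
      apply ContinuousAt.tendsto
      apply ContinuousAt.mul (by fun_prop)
      apply ContinuousAt.div (by fun_prop) (by fun_prop)
      simp
    have h2 : (T p l + 0) * (1 / (1 - 0 / l)) < c := by simpa using hc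
    have h3 := h1.eventually (gt_mem_nhds h2)
    have h4 : ∀ᶠ η in 𝓝[>] (0 : ℝ), η < l :=
      mem_of_superset (Ioo_mem_nhdsGT hl) (fun x hx => hx.2)
    have h5 : ∀ᶠ η in 𝓝[>] (0 : ℝ), 0 < η := self_mem_nhdsWithin
    obtain ⟨η, h6, h7, h8⟩ := (h3.and (h4.and h5)).exists
    exact ⟨η, h8, h7, h6⟩
  obtain ⟨M, N, t, hM, hN, hcov, ht, hMN⟩ := near_opt hp hl η hη0
  have hM' : (0 : ℝ) < M := by exact_mod_cast hM
  have hN' : (0 : ℝ) < N := by exact_mod_cast hN
  set F : ℝ := ((M + N).factorial : ℝ) + 1 with hF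
  have hF0 : 0 < F := by positivity
  have hapos : ∀ᶠ i in 𝓕, 0 < (a i : ℝ) := by
    filter_upwards [ha.eventually (eventually_gt_atTop 0)] with i hi
    exact_mod_cast hi
  have hbpos : ∀ᶠ i in 𝓕, 0 < (b i : ℝ) := by
    filter_upwards [hb.eventually (lt_mem_nhds hl)] with i hi
    by_contra hcon
    have : (b i : ℝ) = 0 := le_antisymm (not_lt.mp hcon) (by positivity)
    rw [this, div_zero] at hi
    exact lt_irrefl _ hi
  have hinv : Tendsto (fun i => 1 / (a i : ℝ)) 𝓕 (𝓝 0) :=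
    tendsto_one_div_atTop_nhds_zero_nat.comp ha
  have hinvb : Tendsto (fun i => 1 / (b i : ℝ)) 𝓕 (𝓝 0) := by
    have h1 : Tendsto (fun i => (a i : ℝ) / (b i : ℝ) * (1 / (a i : ℝ))) 𝓕 (𝓝 (l * 0)) :=
      hb.mul hinv
    rw [mul_zero] at h1
    apply h1.congr'
    filter_upwards [hapos] with i hi
    field_simp
  have hba : Tendsto (fun i => (b i : ℝ) / (a i : ℝ)) 𝓕 (𝓝 (1 / l)) := by
    have h1 := hb.inv₀ hl.ne'
    rw [← one_div] at h1
    apply h1.congr
    intro i
    rw [inv_div]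
  -- the two factors
  let A : ι → ℝ := fun i => max 1 ((M : ℝ) / N * ((b i : ℝ) / a i)) + M * F * (1 / (a i : ℝ))
  let B : ι → ℝ := fun i => max ((N : ℝ) / M * ((a i : ℝ) / (b i))) 1 + N * F * (1 / (b i : ℝ))
  have hA : Tendsto A 𝓕 (𝓝 (max 1 ((M : ℝ) / N * (1 / l)) + M * F * 0)) :=
    ((tendsto_const_nhds).max (hba.const_mul _)).add (hinv.const_mul _)
  have hB : Tendsto B 𝓕 (𝓝 (max ((N : ℝ) / M * l) 1 + N * F * 0)) :=
    ((hb.const_mul _).max tendsto_const_nhds).add (hinvb.const_mul _)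
  have hU : Tendsto (fun i => (T p l + η) * (A i * B i)) 𝓕
      (𝓝 ((T p l + η) * ((max 1 ((M : ℝ) / N * (1 / l)) + M * F * 0) *
        (max ((N : ℝ) / M * l) 1 + N * F * 0)))) := (hA.mul hB).const_mul _
  have hlim : (T p l + η) * ((max 1 ((M : ℝ) / N * (1 / l)) + M * F * 0) *
        (max ((N : ℝ) / M * l) 1 + N * F * 0)) < c := by
    refine lt_of_le_of_lt ?_ hη
    have hT := T_nonneg p l
    apply mul_le_mul_of_nonneg_left _ (by linarith)
    simp only [mul_zero, add_zero]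
    set ρ : ℝ := (M : ℝ) / N * (1 / l) with hρ
    have hρ0 : 0 < ρ := by positivity
    have hρinv : (N : ℝ) / M * l = 1 / ρ := by rw [hρ]; field_simp
    rw [hρinv]
    have h1 : 0 < 1 - η / l := by
      have : η / l < 1 := (div_lt_one hl).mpr hηl
      linarith
    rw [abs_le] at hMN
    have h2 : 1 - η / l ≤ ρ := by
      have : l - η ≤ (M : ℝ) / N := by linarith
      calc 1 - η / l = (l - η) * (1 / l) := by field_simp
        _ ≤ ρ := by rw [hρ]; gcongr
    have h3 : ρ ≤ 1 + η / l := by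
      have : (M : ℝ) / N ≤ l + η := by linarith
      calc ρ ≤ (l + η) * (1 / l) := by rw [hρ]; gcongr
        _ = 1 + η / l := by field_simp
    have h4 : 1 + η / l ≤ 1 / (1 - η / l) := by
      rw [le_div_iff₀ h1]
      nlinarith [sq_nonneg (η / l)]
    rcases le_total ρ 1 with h | h
    · rw [max_eq_left h, max_eq_left ((one_le_div hρ0).mpr h), one_mul]
      exact one_div_le_one_div_of_le h1 h2
    · rw [max_eq_right h, max_eq_right ((div_le_one hρ0).mpr h), mul_one]
      exact h3.trans h4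
  filter_upwards [hU.eventually (gt_mem_nhds hlim), hapos, hbpos] with i hUi hai hbi
  refine lt_of_le_of_lt ?_ hUi
  obtain ⟨n, hn, hcovn⟩ := hcov.extend hM hN (a i) (b i)
  have h1 : (theta p (completeBipartiteGraph (Fin (a i)) (Fin (b i))) : ℝ) ≤
      (t * n ^ 2 : ℕ) := by
    exact_mod_cast theta_le hp hcovn
  set r : ℝ := max ((a i : ℝ) / M) ((b i : ℝ) / N) + F with hr
  have hnr : (n : ℝ) ≤ r := by
    rw [hr, hF]; linarith
  have hn0 : (0 : ℝ) ≤ n := by positivity
  rw [div_le_iff₀ (by positivity)]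
  have hT := T_nonneg p l
  have h2 : ((t * n ^ 2 : ℕ) : ℝ) ≤ ((T p l + η) * (M * N)) * r ^ 2 := by
    push_cast
    have : (0 : ℝ) ≤ T p l + η := by linarith
    gcongr
  have hAr : A i * a i = M * r := by
    have e1 : (M : ℝ) * r = max (M * ((a i : ℝ) / M)) (M * ((b i : ℝ) / N)) + M * F := by
      rw [hr, mul_add (M : ℝ), mul_max_of_nonneg _ _ hM'.le]
    rw [e1]
    simp only [A]
    rw [add_mul, max_mul_of_nonneg _ _ hai.le]
    congr 1
    · congr 1
      · field_simp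
      · field_simp
    · field_simp
  have hBr : B i * (b i) = N * r := by
    have e1 : (N : ℝ) * r = max (N * ((a i : ℝ) / M)) (N * ((b i : ℝ) / N)) + N * F := by
      rw [hr, mul_add (N : ℝ), mul_max_of_nonneg _ _ hN'.le]
    rw [e1]
    simp only [B]
    rw [add_mul, max_mul_of_nonneg _ _ hbi.le]
    congr 1
    · congr 1
      · field_simp
      · field_simp
    · field_simp
  calc _ ≤ ((T p l + η) * (M * N)) * r ^ 2 := h1.trans h2
    _ = (T p l + η) * ((M * r) * (N * r)) := by ring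
    _ = (T p l + η) * ((A i * a i) * (B i * (b i))) := by rw [hAr, hBr]
    _ = _ := by ring

/-- refined lower bound -/
theorem g_bound {a b p : ℕ} (hp : 1 ≤ p) (t : ℕ) (h : Cov a b p (p - 1) t) (d : ℝ × ℝ × ℝ)
    (hd : d ∈ D) : (p : ℝ) * d.1 * ((a : ℝ) * b) -
    ((p : ℝ) - 1) * (d.2.1 * ((a : ℝ) * ((a : ℝ) - 1)) + d.2.2 * ((b : ℝ) * ((b : ℝ) - 1))) ≤
    t := by
  classical
  obtain ⟨S, hS⟩ := h
  obtain ⟨h1, h2, h3, h4⟩ := hd
  obtain ⟨hcross, hleft, hright⟩ := double_count S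
  have hp1 : ((p - 1 : ℕ) : ℝ) = (p : ℝ) - 1 := by
    rw [Nat.cast_sub hp]; simp
  have k1 : (p : ℝ) * ((a : ℝ) * b) ≤ ∑ u : Fin a, ∑ v : Fin b,
      ((S (Sum.inl u) ∩ S (Sum.inr v)).card : ℝ) := by
    calc (p : ℝ) * (a * b) = ∑ u : Fin a, ∑ v : Fin b, (p : ℝ) := by
          simp; ring
      _ ≤ _ := by
          apply Finset.sum_le_sum; intro u _
          apply Finset.sum_le_sum; intro v _
          exact_mod_cast hS.1 (Sum.inl u) (Sum.inr v) (by simp)
  have hcard : ∀ n : ℕ, ∀ u : Fin n, ((univ.erase u).card : ℝ) = (n : ℝ) - 1 := by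
    intro n u
    have hn : 1 ≤ n := by have := u.2; omega
    rw [Finset.card_erase_of_mem (mem_univ u), Finset.card_univ, Fintype.card_fin,
      Nat.cast_sub hn]
    simp
  have k2 : ∑ u : Fin a, ∑ v ∈ univ.erase u, ((S (Sum.inl u) ∩ S (Sum.inl v)).card : ℝ) ≤
      ((p : ℝ) - 1) * ((a : ℝ) * ((a : ℝ) - 1)) := by
    calc _ ≤ ∑ u : Fin a, ∑ v ∈ univ.erase u, ((p : ℝ) - 1) := by
          apply Finset.sum_le_sum; intro u _
          apply Finset.sum_le_sum; intro v hv
          rw [← hp1]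
          exact_mod_cast hS.2 (Sum.inl u) (Sum.inl v)
            (fun h => Finset.ne_of_mem_erase hv (Sum.inl.inj h).symm) (by simp)
      _ = _ := by
          rw [Finset.sum_congr rfl (fun u _ => by rw [Finset.sum_const, nsmul_eq_mul, hcard])]
          simp
          ring
  have k3 : ∑ u : Fin b, ∑ v ∈ univ.erase u, ((S (Sum.inr u) ∩ S (Sum.inr v)).card : ℝ) ≤
      ((p : ℝ) - 1) * ((b : ℝ) * ((b : ℝ) - 1)) := by
    calc _ ≤ ∑ u : Fin b, ∑ v ∈ univ.erase u, ((p : ℝ) - 1) := by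
          apply Finset.sum_le_sum; intro u _
          apply Finset.sum_le_sum; intro v hv
          rw [← hp1]
          exact_mod_cast hS.2 (Sum.inr u) (Sum.inr v)
            (fun h => Finset.ne_of_mem_erase hv (Sum.inr.inj h).symm) (by simp)
      _ = _ := by
          rw [Finset.sum_congr rfl (fun u _ => by rw [Finset.sum_const, nsmul_eq_mul, hcard])]
          simp
          ring
  rw [← hcross] at k1
  rw [← hleft] at k2
  rw [← hright] at k3
  have k4 : ∑ k : Fin t, (d.1 * ((αc S k : ℝ) * (βc S k : ℝ)) -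
      d.2.1 * ((αc S k : ℝ) * ((αc S k : ℝ) - 1)) -
      d.2.2 * ((βc S k : ℝ) * ((βc S k : ℝ) - 1))) ≤ t := by
    calc _ ≤ ∑ k : Fin t, (1 : ℝ) := Finset.sum_le_sum (fun k _ => h4 _ _)
      _ = t := by simp
  rw [Finset.sum_sub_distrib, Finset.sum_sub_distrib, ← Finset.mul_sum, ← Finset.mul_sum,
    ← Finset.mul_sum] at k4
  have g1 := mul_le_mul_of_nonneg_left k1 h1
  have g2 := mul_le_mul_of_nonneg_left k2 h2
  have g3 := mul_le_mul_of_nonneg_left k3 h3
  linarith

theorem g_le_theta {a b p : ℕ} (hp : 1 ≤ p) :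
    g a b p ≤ theta p (completeBipartiteGraph (Fin a) (Fin b)) := by
  apply csSup_le (Set.Nonempty.image _ ⟨_, zero_mem_D⟩)
  rintro y ⟨d, hd, rfl⟩
  exact g_bound hp _ (theta_cov hp) d hd

theorem g0_le_g {a b p : ℕ} (hp : 1 ≤ p) : g0 a b p ≤ g a b p := by
  have hp' : (1 : ℝ) ≤ p := by exact_mod_cast hp
  apply csSup_le (Set.Nonempty.image _ ⟨_, zero_mem_D⟩)
  rintro y ⟨d, hd, rfl⟩
  refine le_trans ?_ (le_csSup ⟨(theta p (completeBipartiteGraph (Fin a) (Fin b)) : ℝ), ?_⟩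
    ⟨d, hd, rfl⟩)
  · obtain ⟨_, h2, h3, _⟩ := hd
    simp only
    have e1 : d.2.1 * ((a : ℝ) * ((a : ℝ) - 1)) ≤ d.2.1 * (a : ℝ) ^ 2 := by
      apply mul_le_mul_of_nonneg_left _ h2
      have : (0 : ℝ) ≤ a := by positivity
      nlinarith
    have e2 : d.2.2 * ((b : ℝ) * ((b : ℝ) - 1)) ≤ d.2.2 * (b : ℝ) ^ 2 := by
      apply mul_le_mul_of_nonneg_left _ h3
      have : (0 : ℝ) ≤ b := by positivity
      nlinarith
    have e3 := mul_le_mul_of_nonneg_left (add_le_add e1 e2) (show 0 ≤ (p : ℝ) - 1 by linarith)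
    linarith
  · rintro z ⟨d, hd, rfl⟩
    exact g_bound hp _ (theta_cov hp) d hd

/-- filter form of the upper bound -/
theorem upper_ratio {ι : Type} {𝓕 : Filter ι} {p : ℕ} (hp : 1 ≤ p) {l : ℝ} (hl : 0 < l)
    (a b : ι → ℕ) (ha : Tendsto a 𝓕 atTop)
    (hb : Tendsto (fun i => (a i : ℝ) / (b i : ℝ)) 𝓕 (𝓝 l)) (ε : ℝ) (hε : 0 < ε) :
    ∀ᶠ i in 𝓕, (theta p (completeBipartiteGraph (Fin (a i)) (Fin (b i))) : ℝ) ≤
      (1 + ε) * g (a i) (b i) p := by
  have hT := T_pos p hp l hl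
  have h1 := upper_eventually hp hl a b ha hb (T p l * (1 + ε / 2)) (by nlinarith)
  have h2 : ∀ᶠ i in 𝓕, T p l * (1 + ε / 2) < (1 + ε) * T p ((a i : ℝ) / (b i : ℝ)) := by
    have h3 := (T_tendsto hp hl _ hb).const_mul (1 + ε)
    apply h3.eventually (lt_mem_nhds _)
    nlinarith
  filter_upwards [h1, h2, hb.eventually (lt_mem_nhds hl)] with i h3 h4 h5
  have hb0 : b i ≠ 0 := by
    intro h; rw [h] at h5; simp at h5
  have ha0 : a i ≠ 0 := by
    intro h; rw [h] at h5; simp at h5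
  have ha' : (0 : ℝ) < a i := by exact_mod_cast Nat.pos_of_ne_zero ha0
  have hb' : (0 : ℝ) < b i := by exact_mod_cast Nat.pos_of_ne_zero hb0
  have hab : (0 : ℝ) < (a i : ℝ) * b i := by positivity
  rw [div_lt_iff₀ hab] at h3
  have h6 := g_eq hp ha' hb'
  have h7 := g0_le_g (a := a i) (b := b i) hp
  rw [h6] at h7
  have h8 := mul_lt_mul_of_pos_right h4 hab
  have h9 := mul_le_mul_of_nonneg_left h7 (show 0 ≤ 1 + ε by linarith)
  linarith

/-- uniform form of the upper bound -/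
theorem upper_uniform {p : ℕ} (hp : 1 ≤ p) (C ε : ℝ) (hC : 1 ≤ C) (hε : 0 < ε) :
    ∃ N : ℕ, ∀ a b : ℕ, N ≤ a → (a : ℝ) ≤ C * b → (b : ℝ) ≤ C * a →
      (theta p (completeBipartiteGraph (Fin a) (Fin b)) : ℝ) ≤ (1 + ε) * g a b p := by
  by_contra hcon
  push Not at hcon
  choose a b h1 h2 h3 h4 using hcon
  have hC0 : 0 < C := by linarith
  have ha : Tendsto a atTop atTop := tendsto_atTop_mono h1 tendsto_id
  have hmem : ∀ᶠ n in atTop, (a n : ℝ) / (b n : ℝ) ∈ Set.Icc (1 / C) C := by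
    filter_upwards [eventually_gt_atTop 0] with n hn
    have ha' : (0 : ℝ) < a n := by exact_mod_cast lt_of_lt_of_le hn (h1 n)
    have hb' : (0 : ℝ) < b n := by
      by_contra hb
      have : (b n : ℝ) = 0 := le_antisymm (not_lt.mp hb) (by positivity)
      have h5 := h2 n
      rw [this] at h5
      linarith
    constructor
    · rw [div_le_div_iff₀ hC0 hb']
      linarith [h3 n]
    · rw [div_le_iff₀ hb']
      exact h2 n
  obtain ⟨l, hl, φ, hφ, hlim⟩ := IsCompact.tendsto_subseq' (isCompact_Icc (a := 1 / C) (b := C))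
    hmem.frequently
  have hl0 : 0 < l := lt_of_lt_of_le (by positivity) hl.1
  have h5 := upper_ratio hp hl0 (a ∘ φ) (b ∘ φ) (ha.comp hφ.tendsto_atTop) hlim ε hε
  obtain ⟨n, hn⟩ := h5.exists
  exact absurd hn (not_le.mpr (h4 (φ n)))

end Helper61.PInt
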