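import Mathlib
import Pool.Agent.Lib_helper61.PInt.Defs
import Pool.Agent.Lib_helper61.PInt.Final

/-!
# Closed forms for the linear program
-/

set_option autoImplicit false

namespace Helper61.PInt

open Filter Topology

/-- filter form of the upper bound, in terms of `T` -/
theorem upper_ratio_T {ι : Type} {𝓕 : Filter ι} {p : ℕ} (hp : 1 ≤ p) {l : ℝ} (hl : 0 < l)
    (a b : ι → ℕ) (ha : Tendsto a 𝓕 atTop)
    (hb : Tendsto (fun i => (a i : ℝ) / (b i : ℝ)) 𝓕 (𝓝 l)) (ε : ℝ) (hε : 0 < ε) :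
    ∀ᶠ i in 𝓕, (theta p (completeBipartiteGraph (Fin (a i)) (Fin (b i))) : ℝ) ≤
      (1 + ε) * (T p ((a i : ℝ) / (b i : ℝ)) * ((a i : ℝ) * (b i : ℝ))) := by
  have hT := T_pos p hp l hl
  have h1 := upper_eventually hp hl a b ha hb (T p l * (1 + ε / 2)) (by nlinarith)
  have h2 : ∀ᶠ i in 𝓕, T p l * (1 + ε / 2) < (1 + ε) * T p ((a i : ℝ) / (b i : ℝ)) := by
    have h3 := (T_tendsto hp hl _ hb).const_mul (1 + ε)
    apply h3.eventually (lt_mem_nhds _)
    nlinarith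
  filter_upwards [h1, h2, hb.eventually (lt_mem_nhds hl)] with i h3 h4 h5
  have hb0 : b i ≠ 0 := by
    intro h; rw [h] at h5; simp at h5
  have ha0 : a i ≠ 0 := by
    intro h; rw [h] at h5; simp at h5
  have ha' : (0 : ℝ) < a i := by exact_mod_cast Nat.pos_of_ne_zero ha0
  have hb' : (0 : ℝ) < b i := by exact_mod_cast Nat.pos_of_ne_zero hb0
  have hab : (0 : ℝ) < (a i : ℝ) * b i := by positivity
  rw [div_lt_iff₀ hab] at h3
  have h8 := mul_lt_mul_of_pos_right h4 hab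
  linarith

/-- uniform form of the upper bound, in terms of `T` -/
theorem upper_uniform_T {p : ℕ} (hp : 1 ≤ p) (C ε : ℝ) (hC : 1 ≤ C) (hε : 0 < ε) :
    ∃ N : ℕ, ∀ a b : ℕ, N ≤ a → (a : ℝ) ≤ C * b → (b : ℝ) ≤ C * a →
      (theta p (completeBipartiteGraph (Fin a) (Fin b)) : ℝ) ≤
        (1 + ε) * (T p ((a : ℝ) / (b : ℝ)) * ((a : ℝ) * (b : ℝ))) := by
  by_contra hcon
  push Not at hcon
  choose a b h1 h2 h3 h4 using hcon
  have hC0 : 0 < C := by linarith
  have ha : Tendsto a atTop atTop := tendsto_atTop_mono h1 tendsto_id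
  have hmem : ∀ᶠ n in atTop, (a n : ℝ) / (b n : ℝ) ∈ Set.Icc (1 / C) C := by
    filter_upwards [eventually_gt_atTop 0] with n hn
    have ha' : (0 : ℝ) < a n := by exact_mod_cast lt_of_lt_of_le hn (h1 n)
    have hb' : (0 : ℝ) < b n := by
      by_contra hb
      have : (b n : ℝ) = 0 := le_antisymm (not_lt.mp hb) (by positivity)
      have h5 := h2 n
      rw [this] at h5
      linarith
    constructor
    · rw [div_le_div_iff₀ hC0 hb']
      linarith [h3 n]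
    · rw [div_le_iff₀ hb']
      exact h2 n
  obtain ⟨l, hl, φ, hφ, hlim⟩ := IsCompact.tendsto_subseq' (isCompact_Icc (a := 1 / C) (b := C))
    hmem.frequently
  have hl0 : 0 < l := lt_of_lt_of_le (by positivity) hl.1
  have h5 := upper_ratio_T hp hl0 (a ∘ φ) (b ∘ φ) (ha.comp hφ.tendsto_atTop) hlim ε hε
  obtain ⟨n, hn⟩ := h5.exists
  exact absurd hn (not_le.mpr (h4 (φ n)))

theorem consec (n : ℤ) : (0 : ℝ) ≤ (n : ℝ) * ((n : ℝ) - 1) := by
  have h : 0 ≤ n * (n - 1) := by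
    rcases le_or_gt n 0 with h | h
    · nlinarith
    · nlinarith
  exact_mod_cast h

/-- Four-type primal solutions. -/
theorem T_le_four {p : ℕ} {l : ℝ} (i1 j1 i2 j2 i3 j3 i4 j4 : ℕ) (x1 x2 x3 x4 : ℝ)
    (h1 : 0 ≤ x1) (h2 : 0 ≤ x2) (h3 : 0 ≤ x3) (h4 : 0 ≤ x4)
    (hc : (p : ℝ) ≤ x1 * (i1 * j1) + x2 * (i2 * j2) + x3 * (i3 * j3) + x4 * (i4 * j4))
    (hl : x1 * (i1 * ((i1 : ℝ) - 1)) + x2 * (i2 * ((i2 : ℝ) - 1)) + x3 * (i3 * ((i3 : ℝ) - 1)) +
      x4 * (i4 * ((i4 : ℝ) - 1)) ≤ ((p : ℝ) - 1) * l)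
    (hr : x1 * (j1 * ((j1 : ℝ) - 1)) + x2 * (j2 * ((j2 : ℝ) - 1)) + x3 * (j3 * ((j3 : ℝ) - 1)) +
      x4 * (j4 * ((j4 : ℝ) - 1)) ≤ ((p : ℝ) - 1) / l) :
    T p l ≤ x1 + x2 + x3 + x4 := by
  set x : ℕ × ℕ →₀ ℝ := Finsupp.single (i1, j1) x1 + Finsupp.single (i2, j2) x2 +
    Finsupp.single (i3, j3) x3 + Finsupp.single (i4, j4) x4 with hx
  have key : ∀ F : ℕ × ℕ → ℝ, (x.sum fun q w => w * F q) =
      x1 * F (i1, j1) + x2 * F (i2, j2) + x3 * F (i3, j3) + x4 * F (i4, j4) := by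
    intro F
    rw [hx, Finsupp.sum_add_index' (by simp) (by intros; ring),
      Finsupp.sum_add_index' (by simp) (by intros; ring),
      Finsupp.sum_add_index' (by simp) (by intros; ring)]
    simp
  have hf : Feasible p l x := by
    refine ⟨?_, ?_, ?_, ?_⟩
    · intro q
      simp only [hx, Finsupp.coe_add, Pi.add_apply, Finsupp.single_apply]
      have e : ∀ (c : Prop) [Decidable c] (y : ℝ), 0 ≤ y → 0 ≤ (if c then y else 0) := by
        intro c _ y hy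
        split_ifs <;> simp [hy]
      have e1 := e ((i1, j1) = q) x1 h1
      have e2 := e ((i2, j2) = q) x2 h2
      have e3 := e ((i3, j3) = q) x3 h3
      have e4 := e ((i4, j4) = q) x4 h4
      linarith
    · rw [key (fun q => (q.1 : ℝ) * (q.2 : ℝ))]
      exact hc
    · rw [key (fun q => (q.1 : ℝ) * ((q.1 : ℝ) - 1))]
      exact hl
    · rw [key (fun q => (q.2 : ℝ) * ((q.2 : ℝ) - 1))]
      exact hr
  have h := T_le hf
  have e := key (fun _ => 1)
  simp only [mul_one] at e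
  rw [e] at h
  exact h

/-- The general transfer: a dual point `d ∈ D` and matching primal value. -/
theorem transfer {p : ℕ} (hp : 1 ≤ p) (d : ℝ × ℝ × ℝ) (hd : d ∈ D) (C : ℝ) (hC : 1 ≤ C)
    (R : ℕ → ℕ → Prop) (hR : ∀ a b : ℕ, R a b → (a : ℝ) ≤ C * b ∧ (b : ℝ) ≤ C * a)
    (hT : ∀ a b : ℕ, 0 < a → 0 < b → R a b → T p ((a : ℝ) / b) * ((a : ℝ) * b) ≤
      (p : ℝ) * d.1 * ((a : ℝ) * b) - ((p : ℝ) - 1) * (d.2.1 * (a : ℝ) ^ 2 + d.2.2 * (b : ℝ) ^ 2))
    (ε : ℝ) (hε : 0 < ε) :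
    ∃ N : ℕ, ∀ a b : ℕ, N ≤ a → R a b →
      (p : ℝ) * d.1 * ((a : ℝ) * b) - ((p : ℝ) - 1) * (d.2.1 * (a : ℝ) ^ 2 + d.2.2 * (b : ℝ) ^ 2)
        ≤ (theta p (completeBipartiteGraph (Fin a) (Fin b)) : ℝ) ∧
      (theta p (completeBipartiteGraph (Fin a) (Fin b)) : ℝ) ≤ (1 + ε) *
      ((p : ℝ) * d.1 * ((a : ℝ) * b) -
        ((p : ℝ) - 1) * (d.2.1 * (a : ℝ) ^ 2 + d.2.2 * (b : ℝ) ^ 2)) := by
  have hp' : (1 : ℝ) ≤ p := by exact_mod_cast hp
  obtain ⟨N, hN⟩ := upper_uniform_T hp C ε hC hε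
  refine ⟨N + 1, fun a b ha hab => ⟨?_, ?_⟩⟩
  · have h := g_bound hp _ (theta_cov (a := a) (b := b) hp) d hd
    refine le_trans ?_ h
    obtain ⟨_, h2, h3, _⟩ := hd
    have e1 : d.2.1 * ((a : ℝ) * ((a : ℝ) - 1)) ≤ d.2.1 * (a : ℝ) ^ 2 := by
      apply mul_le_mul_of_nonneg_left _ h2
      have : (0 : ℝ) ≤ a := by positivity
      nlinarith
    have e2 : d.2.2 * ((b : ℝ) * ((b : ℝ) - 1)) ≤ d.2.2 * (b : ℝ) ^ 2 := by
      apply mul_le_mul_of_nonneg_left _ h3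
      have : (0 : ℝ) ≤ b := by positivity
      nlinarith
    have e3 := mul_le_mul_of_nonneg_left (add_le_add e1 e2) (show 0 ≤ (p : ℝ) - 1 by linarith)
    linarith
  · obtain ⟨h1, h2⟩ := hR a b hab
    have ha0 : 0 < a := by omega
    have ha' : (0 : ℝ) < a := by exact_mod_cast ha0
    have hb' : (0 : ℝ) < b := by
      by_contra hb
      have : (b : ℝ) = 0 := le_antisymm (not_lt.mp hb) (by positivity)
      rw [this] at h1
      linarith
    have hb0 : 0 < b := by exact_mod_cast hb'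
    refine (hN a b (by omega) h1 h2).trans ?_
    exact mul_le_mul_of_nonneg_left (hT a b ha0 hb0 hab) (by linarith)

/-- the vertex used for nearly balanced graphs -/
theorem vertexC {q : ℕ} (hq : 1 ≤ q) :
    ((2 / ((q : ℝ) + 1), 1 / ((q : ℝ) + 1), 1 / (q : ℝ)) : ℝ × ℝ × ℝ) ∈ D := by
  have hq' : (0 : ℝ) < q := by exact_mod_cast hq
  refine ⟨by positivity, by positivity, by positivity, ?_⟩
  intro i j
  have h1 := consec ((i : ℤ) - j)
  have h2 := consec ((j : ℤ) - q)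
  push_cast at h1 h2
  have key : 1 - (2 / ((q : ℝ) + 1) * ((i : ℝ) * (j : ℝ)) -
      1 / ((q : ℝ) + 1) * ((i : ℝ) * ((i : ℝ) - 1)) - 1 / (q : ℝ) * ((j : ℝ) * ((j : ℝ) - 1))) =
      1 / ((q : ℝ) + 1) * (((i : ℝ) - j) * ((i : ℝ) - j - 1)) +
      1 / ((q : ℝ) * ((q : ℝ) + 1)) * (((j : ℝ) - q) * ((j : ℝ) - q - 1)) := by
    field_simp
    ring
  have h3 : 0 ≤ 1 / ((q : ℝ) + 1) * (((i : ℝ) - j) * ((i : ℝ) - j - 1)) +
      1 / ((q : ℝ) * ((q : ℝ) + 1)) * (((j : ℝ) - q) * ((j : ℝ) - q - 1)) := by positivity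
  simp only
  linarith

theorem primalC {q : ℕ} (hq : 1 ≤ q) {l : ℝ} (h1 : 1 ≤ l) (h2 : (q : ℝ) * l ≤ q + 1) :
    T (q + 1) l * l ≤ 2 * l - q * l ^ 2 / (q + 1) - 1 := by
  have hq' : (1 : ℝ) ≤ q := by exact_mod_cast hq
  have hl : 0 < l := by linarith
  set α : ℝ := (l - 1) * (q + 2 - q * l) / 2 with hα
  set β : ℝ := (1 - α * (q - 1)) / (q + 1) with hβ
  set s : ℝ := q * (l ^ 2 - 1) / 2 with hs
  have hα0 : 0 ≤ α := by
    rw [hα]
    have : 0 ≤ (l - 1) * (q + 2 - q * l) := mul_nonneg (by linarith) (by linarith)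
    linarith
  have hαq : α * q ≤ 1 := by
    have e1 : q * (l - 1) ≤ 1 := by linarith
    have e2 : q + 2 - q * l ≤ 2 := by nlinarith
    have e3 : 0 ≤ (q : ℝ) * (l - 1) := mul_nonneg (by linarith) (by linarith)
    have e4 : (q : ℝ) * (l - 1) * (q + 2 - q * l) ≤ 1 * 2 :=
      mul_le_mul e1 e2 (by linarith) (by norm_num)
    rw [hα]
    linarith
  have hβ0 : 0 ≤ β := by
    rw [hβ]
    apply div_nonneg _ (by linarith)
    nlinarith
  have hs0 : 0 ≤ s := by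
    rw [hs]
    have : 0 ≤ l ^ 2 - 1 := by nlinarith
    positivity
  have hs1 : s ≤ 1 + α := by
    rw [hs, hα]
    have e1 : q * (l - 1) ≤ 1 := by linarith
    nlinarith [mul_nonneg hl.le (show 0 ≤ 1 - q * (l - 1) by linarith)]
  set θ : ℝ := s / (1 + α) with hθ
  have hθ0 : 0 ≤ θ := by positivity
  have hθ1 : θ ≤ 1 := by
    rw [hθ, div_le_one (by linarith)]
    exact hs1
  have hθs : θ * (1 + α) = s := by
    rw [hθ]
    field_simp
  have hαβ : α * (q - 1) + β * (q + 1) = 1 := by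
    rw [hβ]
    field_simp
    ring
  have hcross : α + (q + 1) + s = (q + 1) * l := by
    rw [hα, hs]; ring
  have h := T_le_four (p := q + 1) (l := l) q q (q + 1) q (q + 1) (q + 1) (q + 2) (q + 1)
    ((1 - θ) * α / l) (θ * α / l) ((1 - θ) * β / l) (θ * β / l)
    (div_nonneg (mul_nonneg (by linarith) hα0) hl.le)
    (div_nonneg (mul_nonneg hθ0 hα0) hl.le)
    (div_nonneg (mul_nonneg (by linarith) hβ0) hl.le)
    (div_nonneg (mul_nonneg hθ0 hβ0) hl.le)
    (by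
      push_cast
      apply le_of_eq
      have : (q : ℝ) * q * α + (q + 1) * (q + 1) * β + θ * (α * q + β * (q + 1)) =
          (q + 1) * l := by
        have e1 : α * q + β * (q + 1) = 1 + α := by linarith
        rw [e1, hθs]
        have e2 : (q : ℝ) * q * α + (q + 1) * (q + 1) * β = α + (q + 1) := by
          linear_combination ((q : ℝ) + 1) * hαβ
        rw [e2]
        exact hcross
      field_simp
      linear_combination -this)
    (by
      push_cast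
      apply le_of_eq
      have : α * (q * (q - 1)) + β * ((q + 1) * q) + 2 * θ * (α * q + β * (q + 1)) =
          q * l ^ 2 := by
        have e1 : α * q + β * (q + 1) = 1 + α := by linarith
        rw [e1]
        have e3 : 2 * θ * (1 + α) = 2 * s := by rw [← hθs]; ring
        rw [e3, hs]
        linear_combination (q : ℝ) * hαβ
      field_simp
      linear_combination this)
    (by
      push_cast
      apply le_of_eq
      field_simp
      linear_combination (q : ℝ) * hαβ)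
  have h5 : (1 - θ) * α / l + θ * α / l + (1 - θ) * β / l + θ * β / l = (α + β) / l := by
    field_simp
    ring
  rw [h5, le_div_iff₀ hl] at h
  refine h.trans (le_of_eq ?_)
  rw [hβ, hα]
  field_simp
  ring

/-- first family of vertices for `p = 2` -/
theorem vertexF1 {k : ℕ} (hk : 1 ≤ k) :
    ((2 / ((k : ℝ) + 1), 1 / ((k : ℝ) * (k + 1)), (3 * (k : ℝ) + 1) / (2 * (k + 1))) :
      ℝ × ℝ × ℝ) ∈ D := by
  have hk' : (0 : ℝ) < k := by exact_mod_cast hk
  refine ⟨by positivity, by positivity, by positivity, ?_⟩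
  intro i j
  have h1 := consec ((i : ℤ) - k * j)
  have h2 := consec ((j : ℤ) - 1)
  push_cast at h1 h2
  have key : 1 - (2 / ((k : ℝ) + 1) * ((i : ℝ) * (j : ℝ)) -
      1 / ((k : ℝ) * (k + 1)) * ((i : ℝ) * ((i : ℝ) - 1)) -
      (3 * (k : ℝ) + 1) / (2 * (k + 1)) * ((j : ℝ) * ((j : ℝ) - 1))) =
      1 / ((k : ℝ) * (k + 1)) * (((i : ℝ) - k * j) * ((i : ℝ) - k * j - 1)) +
      1 / 2 * (((j : ℝ) - 1) * ((j : ℝ) - 1 - 1)) := by
    field_simp
    ring
  have h3 : 0 ≤ 1 / ((k : ℝ) * (k + 1)) * (((i : ℝ) - k * j) * ((i : ℝ) - k * j - 1)) +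
      1 / 2 * (((j : ℝ) - 1) * ((j : ℝ) - 1 - 1)) := by positivity
  simp only
  linarith

/-- second family of vertices for `p = 2` -/
theorem vertexF2 {k : ℕ} (hk : 1 ≤ k) :
    (((2 * (k : ℝ) + 1) / ((k : ℝ) + 1) ^ 2, 1 / ((k : ℝ) + 1) ^ 2,
      (3 * (k : ℝ) + 1) / (2 * (k + 1))) : ℝ × ℝ × ℝ) ∈ D := by
  have hk' : (0 : ℝ) < k := by exact_mod_cast hk
  refine ⟨by positivity, by positivity, by positivity, ?_⟩
  intro i j
  have h1 := consec ((i : ℤ) - k * j - 1)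
  have h2 := consec ((j : ℤ) - 1)
  have h3 := consec ((i : ℤ) - (k + 1) * j + 1)
  push_cast at h1 h2 h3
  have h4 : 0 ≤ 1 / 2 - 1 / (2 * ((k : ℝ) + 1) ^ 2) := by
    rw [sub_nonneg]
    apply one_div_le_one_div_of_le (by norm_num)
    nlinarith
  have key : 1 - ((2 * (k : ℝ) + 1) / ((k : ℝ) + 1) ^ 2 * ((i : ℝ) * (j : ℝ)) -
      1 / ((k : ℝ) + 1) ^ 2 * ((i : ℝ) * ((i : ℝ) - 1)) -
      (3 * (k : ℝ) + 1) / (2 * (k + 1)) * ((j : ℝ) * ((j : ℝ) - 1))) =
      1 / (2 * ((k : ℝ) + 1) ^ 2) * (((i : ℝ) - k * j - 1) * ((i : ℝ) - k * j - 1 - 1)) +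
      1 / (2 * ((k : ℝ) + 1) ^ 2) * (((i : ℝ) - (k + 1) * j + 1) *
        ((i : ℝ) - (k + 1) * j + 1 - 1)) +
      (1 / 2 - 1 / (2 * ((k : ℝ) + 1) ^ 2)) * (((j : ℝ) - 1) * ((j : ℝ) - 1 - 1)) := by
    field_simp
    ring
  have h5 := mul_nonneg h4 h2
  have h6 : 0 ≤ 1 / (2 * ((k : ℝ) + 1) ^ 2) * (((i : ℝ) - k * j - 1) *
      ((i : ℝ) - k * j - 1 - 1)) := by positivity
  have h7 : 0 ≤ 1 / (2 * ((k : ℝ) + 1) ^ 2) * (((i : ℝ) - (k + 1) * j + 1) *
        ((i : ℝ) - (k + 1) * j + 1 - 1)) := by positivity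
  simp only
  linarith

theorem primalF1_aux {k : ℕ} (hk : 1 ≤ k) {l m : ℝ} (hl : 0 < l) (hm1 : 2 * k ≤ m)
    (hm2 : m ≤ 2 * k + 1) (hX1 : 0 ≤ -l ^ 2 + 2 * k * l - 2 * k ^ 2 - k + k * m)
    (hX2 : 0 ≤ l ^ 2 - 2 * (k - 1) * l + 2 * k ^ 2 + k - (k + 1) * m) :
    T 2 l * l ≤ 4 * l / (k + 1) - l ^ 2 / (k * (k + 1)) - (3 * k + 1) / (2 * (k + 1)) := by
  have hk' : (0 : ℝ) < k := by exact_mod_cast hk
  set X1 : ℝ := -l ^ 2 + 2 * k * l - 2 * k ^ 2 - k + k * m with hX1d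
  set X2 : ℝ := l ^ 2 - 2 * (k - 1) * l + 2 * k ^ 2 + k - (k + 1) * m with hX2d
  have h := T_le_four (p := 2) (l := l) k 1 (k + 1) 1 (2 * k) 2 (2 * k + 1) 2
    (X1 / k / l) (X2 / (k + 1) / l) ((2 * k + 1 - m) / 2 / l) ((m - 2 * k) / 2 / l)
    (by positivity) (by positivity) (div_nonneg (by linarith) hl.le)
    (div_nonneg (by linarith) hl.le)
    (by
      push_cast
      apply le_of_eq
      rw [hX1d, hX2d]
      field_simp
      ring)
    (by
      push_cast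
      apply le_of_eq
      rw [hX1d, hX2d]
      field_simp
      ring)
    (by
      push_cast
      apply le_of_eq
      field_simp
      ring)
  have h5 : X1 / k / l + X2 / (k + 1) / l + (2 * k + 1 - m) / 2 / l + (m - 2 * k) / 2 / l =
      (X1 / k + X2 / (k + 1) + 1 / 2) / l := by
    field_simp
    ring
  rw [h5, le_div_iff₀ hl] at h
  refine h.trans (le_of_eq ?_)
  rw [hX1d, hX2d]
  field_simp
  ring

theorem primalF1 {k : ℕ} (hk : 1 ≤ k) {l : ℝ} (hl : 0 < l)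
    (h1 : 0 ≤ l ^ 2 - 2 * (k - 1) * l - k) (h2 : l ≤ 2 * k) :
    T 2 l * l ≤ 4 * l / (k + 1) - l ^ 2 / (k * (k + 1)) - (3 * k + 1) / (2 * (k + 1)) := by
  have hk' : (1 : ℝ) ≤ k := by exact_mod_cast hk
  rcases le_total (l ^ 2 - 2 * k * l + k) 0 with h3 | h3
  · apply primalF1_aux hk hl (m := 2 * k) le_rfl (by linarith)
    · nlinarith
    · nlinarith
  · have hm : k * ((l ^ 2 - 2 * k * l + 2 * k ^ 2 + k) / k) = l ^ 2 - 2 * k * l + 2 * k ^ 2 + k := by
      field_simp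
    apply primalF1_aux hk hl (m := (l ^ 2 - 2 * k * l + 2 * k ^ 2 + k) / k)
    · rw [le_div_iff₀ (by linarith)]
      nlinarith
    · rw [div_le_iff₀ (by linarith)]
      nlinarith
    · rw [hm]
      apply le_of_eq
      ring
    · -- main inequality
      have h4 : 0 ≤ -l ^ 2 + 4 * k * l - 2 * k ^ 2 - k := by
        -- mu = 2k - l
        set μ : ℝ := 2 * k - l with hμ
        have hμ0 : 0 ≤ μ := by linarith
        have e1 : 0 ≤ μ ^ 2 - 2 * (k + 1) * μ + 3 * k := by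
          rw [hμ]; nlinarith
        have hμ1 : μ ≤ k + 1 := by
          by_contra hcon
          push Not at hcon
          -- then μ (μ - 2(k+1)) with μ < 2k
          have e2 : μ < 2 * k := by linarith
          nlinarith [mul_pos (show 0 < μ - (k + 1) by linarith) (show 0 < 2 * k - μ by linarith)]
        have e4 : μ ^ 2 ≤ 2 * (k : ℝ) ^ 2 - k := by
          rcases Nat.eq_or_lt_of_le hk with hk1 | hk2
          · have hk1' : (k : ℝ) = 1 := by exact_mod_cast hk1.symm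
            rw [hk1'] at e1 hμ1 ⊢
            have e6 : μ ≤ 1 := by
              by_contra hcon
              push Not at hcon
              nlinarith [mul_pos (show 0 < μ - 1 by linarith) (show 0 < 3 - μ by linarith)]
            nlinarith
          · have hk2' : (2 : ℝ) ≤ k := by exact_mod_cast hk2
            have e6 : (k + 1) * μ ≤ 3 * k := by nlinarith
            have e7 : ((k + 1) * μ) ^ 2 ≤ (3 * k) ^ 2 := by
              apply pow_le_pow_left₀ (by positivity) e6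
            have e8 : (3 * (k : ℝ)) ^ 2 ≤ (k + 1) ^ 2 * (2 * (k : ℝ) ^ 2 - k) := by
              have e9 : 0 ≤ (k : ℝ) * ((2 * k - 1) * (k + 1) ^ 2 - 9 * k) := by
                apply mul_nonneg (by linarith)
                nlinarith [mul_nonneg (show (0 : ℝ) ≤ k - 2 by linarith)
                  (show (0 : ℝ) ≤ k - 2 by linarith), mul_nonneg (mul_nonneg
                  (show (0 : ℝ) ≤ k - 2 by linarith) (show (0 : ℝ) ≤ k - 2 by linarith))
                  (show (0 : ℝ) ≤ k by linarith)]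
              nlinarith
            have e10 : (k + 1) ^ 2 * μ ^ 2 ≤ (k + 1) ^ 2 * (2 * (k : ℝ) ^ 2 - k) := by nlinarith
            exact le_of_mul_le_mul_left e10 (by positivity)
        have e5 : -l ^ 2 + 4 * k * l - 2 * k ^ 2 - k = 2 * (k : ℝ) ^ 2 - k - μ ^ 2 := by
          rw [hμ]; ring
        rw [e5]
        linarith
      have e5 : (l ^ 2 - 2 * (k - 1) * l + 2 * k ^ 2 + k -
          (k + 1) * ((l ^ 2 - 2 * k * l + 2 * k ^ 2 + k) / k)) * k =
          -l ^ 2 + 4 * k * l - 2 * k ^ 2 - k := by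
        field_simp
        ring
      by_contra hcon
      push Not at hcon
      have := mul_neg_of_neg_of_pos hcon (show (0 : ℝ) < k by linarith)
      linarith

theorem primalF2 {k : ℕ} (hk : 1 ≤ k) {l : ℝ}
    (h1 : 2 * k ≤ l) (h2 : l ^ 2 - 2 * k * l ≤ k + 1) :
    T 2 l * l ≤ 2 * (2 * k + 1) * l / (k + 1) ^ 2 - l ^ 2 / (k + 1) ^ 2 -
      (3 * k + 1) / (2 * (k + 1)) := by
  have hk' : (1 : ℝ) ≤ k := by exact_mod_cast hk
  have hl : 0 < l := by linarith
  set m : ℝ := (l ^ 2 - 2 * k * l) / (k + 1) + (2 * k + 1) with hm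
  have hm1 : 2 * k + 1 ≤ m := by
    rw [hm]
    have : 0 ≤ (l ^ 2 - 2 * k * l) / (k + 1) := div_nonneg (by nlinarith) (by linarith)
    linarith
  have hm2 : m ≤ 2 * k + 2 := by
    rw [hm]
    have : (l ^ 2 - 2 * k * l) / (k + 1) ≤ 1 := by
      rw [div_le_one (by linarith)]
      exact h2
    linarith
  have hm3 : m ≤ 2 * l := by
    have : l ≤ 2 * k + 1 := by nlinarith
    nlinarith
  have h := T_le_four (p := 2) (l := l) (k + 1) 1 (2 * k + 1) 2 (2 * k + 2) 2 0 0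
    ((2 * l - m) / (k + 1) / l) ((2 * k + 2 - m) / 2 / l) ((m - (2 * k + 1)) / 2 / l) 0
    (div_nonneg (div_nonneg (by linarith) (by linarith)) hl.le)
    (div_nonneg (by linarith) hl.le)
    (div_nonneg (by linarith) hl.le) le_rfl
    (by
      push_cast
      apply le_of_eq
      rw [hm]
      field_simp
      ring)
    (by
      push_cast
      apply le_of_eq
      rw [hm]
      field_simp
      ring)
    (by
      push_cast
      apply le_of_eq
      field_simp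
      ring)
  have h5 : (2 * l - m) / (k + 1) / l + (2 * k + 2 - m) / 2 / l + (m - (2 * k + 1)) / 2 / l + 0 =
      ((2 * l - m) / (k + 1) + 1 / 2) / l := by
    field_simp
    ring
  rw [h5, le_div_iff₀ hl] at h
  refine h.trans (le_of_eq ?_)
  rw [hm]
  field_simp
  ring

/-- Closed form for nearly balanced graphs. -/
theorem closedC {p : ℕ} (hp : 2 ≤ p) (ε : ℝ) (hε : 0 < ε) :
    ∃ N : ℕ, ∀ a b : ℕ, N ≤ a → b ≤ a → (p - 1) * a ≤ p * b →
      (a : ℝ) ^ 2 / p - ((a : ℝ) - b) ^ 2 ≤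
        (theta p (completeBipartiteGraph (Fin a) (Fin b)) : ℝ) ∧
      (theta p (completeBipartiteGraph (Fin a) (Fin b)) : ℝ) ≤
        (1 + ε) * ((a : ℝ) ^ 2 / p - ((a : ℝ) - b) ^ 2) := by
  obtain ⟨q, rfl⟩ : ∃ q, p = q + 1 := ⟨p - 1, by omega⟩
  have hq : 1 ≤ q := by omega
  have hq' : (1 : ℝ) ≤ q := by exact_mod_cast hq
  have e : ∀ a b : ℝ, ((q + 1 : ℕ) : ℝ) * (2 / ((q : ℝ) + 1)) * (a * b) -
      (((q + 1 : ℕ) : ℝ) - 1) * (1 / ((q : ℝ) + 1) * a ^ 2 + 1 / (q : ℝ) * b ^ 2) =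
      a ^ 2 / ((q + 1 : ℕ) : ℝ) - (a - b) ^ 2 := by
    intro a b
    push_cast
    field_simp
    ring
  obtain ⟨N, hN⟩ := transfer (p := q + 1) (by omega) _ (vertexC hq) 2 (by norm_num)
    (fun a b => b ≤ a ∧ q * a ≤ (q + 1) * b)
    (by
      rintro a b ⟨h1, h2⟩
      have h1' : (b : ℝ) ≤ a := by exact_mod_cast h1
      have h2' : (q : ℝ) * a ≤ (q + 1) * b := by exact_mod_cast h2
      constructor
      · by_contra hcon
        push Not at hcon
        have hb : (0 : ℝ) ≤ b := by positivity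
        nlinarith
      · have ha : (0 : ℝ) ≤ a := by positivity
        linarith)
    (by
      rintro a b ha hb ⟨h1, h2⟩
      have ha' : (0 : ℝ) < a := by exact_mod_cast ha
      have hb' : (0 : ℝ) < b := by exact_mod_cast hb
      have h1' : (b : ℝ) ≤ a := by exact_mod_cast h1
      have h2' : (q : ℝ) * a ≤ (q + 1) * b := by exact_mod_cast h2
      have h := primalC hq (l := (a : ℝ) / b) (by rw [le_div_iff₀ hb']; linarith)
        (by rw [mul_div_assoc', div_le_iff₀ hb']; exact h2')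
      have h3 : T (q + 1) ((a : ℝ) / b) * ((a : ℝ) * b) =
          (T (q + 1) ((a : ℝ) / b) * ((a : ℝ) / b)) * (b : ℝ) ^ 2 := by
        field_simp
      rw [h3]
      refine (mul_le_mul_of_nonneg_right h (by positivity)).trans (le_of_eq ?_)
      push_cast
      field_simp
      ring) ε hε
  refine ⟨N, fun a b ha hab h => ?_⟩
  have h4 := hN a b ha ⟨hab, by simpa using h⟩
  simp only [e] at h4
  exact h4

/-- First closed form for `p = 2`. -/
theorem closedF1 {k : ℕ} (hk : 1 ≤ k) (ε : ℝ) (hε : 0 < ε) :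
    ∃ N : ℕ, ∀ a b : ℕ, N ≤ a → 2 * (k - 1) * a * b + k * b ^ 2 ≤ a ^ 2 → a ≤ 2 * k * b →
      4 * (a : ℝ) * b / (k + 1) - (a : ℝ) ^ 2 / (k * (k + 1)) -
          (3 * k + 1) * (b : ℝ) ^ 2 / (2 * (k + 1)) ≤
        (theta 2 (completeBipartiteGraph (Fin a) (Fin b)) : ℝ) ∧
      (theta 2 (completeBipartiteGraph (Fin a) (Fin b)) : ℝ) ≤
        (1 + ε) * (4 * (a : ℝ) * b / (k + 1) - (a : ℝ) ^ 2 / (k * (k + 1)) -
          (3 * k + 1) * (b : ℝ) ^ 2 / (2 * (k + 1))) := by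
  have hk' : (1 : ℝ) ≤ k := by exact_mod_cast hk
  have e : ∀ a b : ℝ, ((2 : ℕ) : ℝ) * (2 / ((k : ℝ) + 1)) * (a * b) -
      (((2 : ℕ) : ℝ) - 1) * (1 / ((k : ℝ) * (k + 1)) * a ^ 2 +
        (3 * (k : ℝ) + 1) / (2 * (k + 1)) * b ^ 2) =
      4 * a * b / (k + 1) - a ^ 2 / (k * (k + 1)) - (3 * k + 1) * b ^ 2 / (2 * (k + 1)) := by
    intro a b
    push_cast
    field_simp
    ring
  have hcast : ((k - 1 : ℕ) : ℝ) = (k : ℝ) - 1 := by
    rw [Nat.cast_sub hk]; simp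
  have hba : ∀ a b : ℕ, 2 * (k - 1) * a * b + k * b ^ 2 ≤ a ^ 2 → b ≤ a := by
    intro a b h
    have h0 : b ^ 2 ≤ a ^ 2 := by nlinarith [Nat.zero_le (2 * (k - 1) * a * b)]
    exact (Nat.pow_le_pow_iff_left (by norm_num)).mp h0
  obtain ⟨N, hN⟩ := transfer (p := 2) (by omega) _ (vertexF1 hk) (2 * k) (by linarith)
    (fun a b => 2 * (k - 1) * a * b + k * b ^ 2 ≤ a ^ 2 ∧ a ≤ 2 * k * b)
    (by
      rintro a b ⟨h1, h2⟩
      have h2' : (a : ℝ) ≤ 2 * k * b := by exact_mod_cast h2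
      have h3 : (b : ℝ) ≤ a := by exact_mod_cast hba a b h1
      refine ⟨h2', ?_⟩
      have ha : (0 : ℝ) ≤ a := by positivity
      nlinarith)
    (by
      rintro a b ha hb ⟨h1, h2⟩
      have ha' : (0 : ℝ) < a := by exact_mod_cast ha
      have hb' : (0 : ℝ) < b := by exact_mod_cast hb
      have h1' : 2 * ((k : ℝ) - 1) * a * b + k * (b : ℝ) ^ 2 ≤ (a : ℝ) ^ 2 := by
        rw [← hcast]
        exact_mod_cast h1
      have h2' : (a : ℝ) ≤ 2 * k * b := by exact_mod_cast h2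
      have h := primalF1 hk (l := (a : ℝ) / b) (by positivity)
        (by
          have : ((a : ℝ) / b) ^ 2 - 2 * (k - 1) * ((a : ℝ) / b) - k =
              ((a : ℝ) ^ 2 - (2 * (k - 1) * a * b + k * (b : ℝ) ^ 2)) / (b : ℝ) ^ 2 := by
            field_simp
            ring
          rw [this]
          apply div_nonneg _ (by positivity)
          linarith)
        (by rw [div_le_iff₀ hb']; exact h2')
      have h3 : T 2 ((a : ℝ) / b) * ((a : ℝ) * b) =
          (T 2 ((a : ℝ) / b) * ((a : ℝ) / b)) * (b : ℝ) ^ 2 := by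
        field_simp
      rw [h3]
      refine (mul_le_mul_of_nonneg_right h (by positivity)).trans (le_of_eq ?_)
      push_cast
      field_simp
      ring) ε hε
  refine ⟨N, fun a b ha h1 h2 => ?_⟩
  have h4 := hN a b ha ⟨h1, h2⟩
  simp only [e] at h4
  exact h4

/-- Second closed form for `p = 2`. -/
theorem closedF2 {k : ℕ} (hk : 1 ≤ k) (ε : ℝ) (hε : 0 < ε) :
    ∃ N : ℕ, ∀ a b : ℕ, N ≤ a → 2 * k * b ≤ a → a ^ 2 ≤ 2 * k * a * b + (k + 1) * b ^ 2 →
      (4 * k + 2) * (a : ℝ) * b / (k + 1) ^ 2 - (a : ℝ) ^ 2 / (k + 1) ^ 2 -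
          (3 * k + 1) * (b : ℝ) ^ 2 / (2 * (k + 1)) ≤
        (theta 2 (completeBipartiteGraph (Fin a) (Fin b)) : ℝ) ∧
      (theta 2 (completeBipartiteGraph (Fin a) (Fin b)) : ℝ) ≤
        (1 + ε) * ((4 * k + 2) * (a : ℝ) * b / (k + 1) ^ 2 - (a : ℝ) ^ 2 / (k + 1) ^ 2 -
          (3 * k + 1) * (b : ℝ) ^ 2 / (2 * (k + 1))) := by
  have hk' : (1 : ℝ) ≤ k := by exact_mod_cast hk
  have e : ∀ a b : ℝ, ((2 : ℕ) : ℝ) * ((2 * (k : ℝ) + 1) / ((k : ℝ) + 1) ^ 2) * (a * b) -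
      (((2 : ℕ) : ℝ) - 1) * (1 / ((k : ℝ) + 1) ^ 2 * a ^ 2 +
        (3 * (k : ℝ) + 1) / (2 * (k + 1)) * b ^ 2) =
      (4 * k + 2) * a * b / (k + 1) ^ 2 - a ^ 2 / (k + 1) ^ 2 -
        (3 * k + 1) * b ^ 2 / (2 * (k + 1)) := by
    intro a b
    push_cast
    field_simp
    ring
  obtain ⟨N, hN⟩ := transfer (p := 2) (by omega) _ (vertexF2 hk) (3 * k + 1) (by linarith)
    (fun a b => 2 * k * b ≤ a ∧ a ^ 2 ≤ 2 * k * a * b + (k + 1) * b ^ 2)
    (by
      rintro a b ⟨h1, h2⟩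
      have h1' : 2 * (k : ℝ) * b ≤ a := by exact_mod_cast h1
      have h2' : (a : ℝ) ^ 2 ≤ 2 * k * a * b + (k + 1) * (b : ℝ) ^ 2 := by exact_mod_cast h2
      have ha : (0 : ℝ) ≤ a := by positivity
      have hb : (0 : ℝ) ≤ b := by positivity
      constructor
      · by_contra hcon
        push Not at hcon
        have hab : (b : ℝ) ≤ a := by nlinarith
        have ha1 : (0 : ℝ) < a := by nlinarith
        have h5 := mul_pos ha1 (show 0 < (a : ℝ) - (3 * k + 1) * b by linarith)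
        have h6 := mul_nonneg (mul_nonneg (show (0 : ℝ) ≤ k + 1 by linarith) hb)
          (show 0 ≤ (a : ℝ) - b by linarith)
        nlinarith
      · nlinarith [mul_nonneg (show (0 : ℝ) ≤ k - 1 by linarith) hb, mul_nonneg
          (show (0 : ℝ) ≤ k by linarith) ha])
    (by
      rintro a b ha hb ⟨h1, h2⟩
      have ha' : (0 : ℝ) < a := by exact_mod_cast ha
      have hb' : (0 : ℝ) < b := by exact_mod_cast hb
      have h1' : 2 * (k : ℝ) * b ≤ a := by exact_mod_cast h1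
      have h2' : (a : ℝ) ^ 2 ≤ 2 * k * a * b + (k + 1) * (b : ℝ) ^ 2 := by exact_mod_cast h2
      have h := primalF2 hk (l := (a : ℝ) / b)
        (by rw [le_div_iff₀ hb']; exact h1')
        (by
          have : ((a : ℝ) / b) ^ 2 - 2 * k * ((a : ℝ) / b) =
              ((a : ℝ) ^ 2 - 2 * k * a * b) / (b : ℝ) ^ 2 := by
            field_simp
          rw [this, div_le_iff₀ (by positivity)]
          linarith)
      have h3 : T 2 ((a : ℝ) / b) * ((a : ℝ) * b) =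
          (T 2 ((a : ℝ) / b) * ((a : ℝ) / b)) * (b : ℝ) ^ 2 := by
        field_simp
      rw [h3]
      refine (mul_le_mul_of_nonneg_right h (by positivity)).trans (le_of_eq ?_)
      push_cast
      field_simp
      ring) ε hε
  refine ⟨N, fun a b ha h1 h2 => ?_⟩
  have h4 := hN a b ha ⟨h1, h2⟩
  simp only [e] at h4
  exact h4

/-- The ranges of the two closed forms cover all `a ≥ b`. -/
theorem cover (a b : ℕ) (hb : 1 ≤ b) (hab : b ≤ a) : ∃ k : ℕ, 1 ≤ k ∧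
    ((2 * (k - 1) * a * b + k * b ^ 2 ≤ a ^ 2 ∧ a ≤ 2 * k * b) ∨
      (2 * k * b ≤ a ∧ a ^ 2 ≤ 2 * k * a * b + (k + 1) * b ^ 2)) := by
  classical
  have hex : ∃ k : ℕ, a ^ 2 ≤ 2 * k * a * b + (k + 1) * b ^ 2 := by
    refine ⟨a, ?_⟩
    have : a ^ 2 ≤ 2 * a * a * b := by nlinarith
    nlinarith [Nat.zero_le ((a + 1) * b ^ 2)]
  obtain ⟨k, hk⟩ : ∃ k, k = Nat.find hex := ⟨_, rfl⟩
  have h1 := Nat.find_spec hex
  rw [← hk] at h1
  rcases Nat.eq_zero_or_pos k with h0 | h0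
  · refine ⟨1, le_rfl, Or.inl ⟨?_, ?_⟩⟩
    · simp only [Nat.sub_self, mul_zero, zero_mul, zero_add, one_mul]
      exact Nat.pow_le_pow_left hab 2
    · rw [h0] at h1
      have h2 : a ^ 2 ≤ b ^ 2 := by simpa using h1
      have h3 : a ≤ b := (Nat.pow_le_pow_iff_left (by norm_num)).mp h2
      omega
  · have h2 := Nat.find_min hex (show k - 1 < Nat.find hex by omega)
    refine ⟨k, h0, ?_⟩
    rcases le_total a (2 * k * b) with h3 | h3
    · left
      refine ⟨?_, h3⟩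
      have h4 : k - 1 + 1 = k := by omega
      rw [h4] at h2
      exact (not_le.mp h2).le
    · right
      exact ⟨h3, h1⟩

end Helper61.PInt
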