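import Mathlib
import Pool.Agent.Lib_helper61.PInt.Defs
import Pool.Agent.Lib_helper61.PInt.Final
import Pool.Agent.Lib_helper61.PInt.Closed

/-!
# The `p`-intersection number of unbalanced complete bipartite graphs

For `p ≥ 1` we show `ϑ_p(K_{a,b}) = (1 + o(1)) g(a, b, p)` as `a → ∞` with `a / b` bounded away
from `0` and `∞`, where

  `g(a, b, p) = max {p u a b - (p - 1) (v a (a - 1) + w b (b - 1)) : (u, v, w) ∈ D}`

and `D` is one fixed convex set in `ℝ³`: all `u, v, w ≥ 0` with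
`u i j - v i (i - 1) - w j (j - 1) ≤ 1` for all natural `i, j`.  By linear programming duality
`g(a, b, p)` is asymptotically the minimum of `∑ x_{ij}` over all `x_{ij} ≥ 0` with
`∑ x_{ij} i j ≥ p a b`, `∑ x_{ij} i (i - 1) ≤ (p - 1) a ^ 2`, `∑ x_{ij} j (j - 1) ≤ (p - 1) b ^ 2`
(`x_{ij}` = number of cover sets with `i` vertices on the left and `j` on the right).

The optimum is then evaluated in closed form (a) for all `p ≥ 2` and `b ≤ a ≤ p b / (p - 1)`,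
where it is `a ^ 2 / p - (a - b) ^ 2`; (b) for `p = 2` and all `a ≥ b`, where it is piecewise
quadratic in `(a, b)`.

The lower bound holds for all `a, b`.  The matching upper bound is proved by an algebraic
construction: a symmetric family with dyadic weights is made integral by repeated halving (blow-up
by `F_q ^ E`, lines whose slopes have quadratic character `1`, labels with prescribed quadratic
characters of differences), followed by a blow-up with lines over `ℤ / n`.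
-/

set_option autoImplicit false

namespace Pool.Agent.Lib61.AsymptoticsAll

open Helper61.PInt

/-- (1) `g(a, b, p) ≤ ϑ_p(K_{a,b})` for all `a, b`, and `ϑ_p(K_{a,b}) ≤ (1 + ε) g(a, b, p)` for all
large `a` and all `b` with `a / C ≤ b ≤ C a`.
(2) For `p ≥ 2` and `b ≤ a ≤ p b / (p - 1)`: `ϑ_p(K_{a,b}) = (1 + o(1)) (a² / p - (a - b)²)`.
(3), (4) For `p = 2` the closed form on two kinds of intervals of `a / b`.
(5) These intervals for `k = 1, 2, …` together cover `[1, ∞)`. -/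
theorem result :
    (∀ p : ℕ, 1 ≤ p →
      (∀ a b : ℕ, g a b p ≤ (theta p (completeBipartiteGraph (Fin a) (Fin b)) : ℝ)) ∧
      (∀ C ε : ℝ, 1 ≤ C → 0 < ε → ∃ N : ℕ, ∀ a b : ℕ, N ≤ a → (a : ℝ) ≤ C * b →
        (b : ℝ) ≤ C * a →
        (theta p (completeBipartiteGraph (Fin a) (Fin b)) : ℝ) ≤ (1 + ε) * g a b p)) ∧
    (∀ p : ℕ, 2 ≤ p → ∀ ε : ℝ, 0 < ε → ∃ N : ℕ, ∀ a b : ℕ, N ≤ a → b ≤ a → (p - 1) * a ≤ p * b →
      (a : ℝ) ^ 2 / p - ((a : ℝ) - b) ^ 2 ≤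
        (theta p (completeBipartiteGraph (Fin a) (Fin b)) : ℝ) ∧
      (theta p (completeBipartiteGraph (Fin a) (Fin b)) : ℝ) ≤
        (1 + ε) * ((a : ℝ) ^ 2 / p - ((a : ℝ) - b) ^ 2)) ∧
    (∀ k : ℕ, 1 ≤ k → ∀ ε : ℝ, 0 < ε → ∃ N : ℕ, ∀ a b : ℕ, N ≤ a →
      2 * (k - 1) * a * b + k * b ^ 2 ≤ a ^ 2 → a ≤ 2 * k * b →
      4 * (a : ℝ) * b / (k + 1) - (a : ℝ) ^ 2 / (k * (k + 1)) -
          (3 * k + 1) * (b : ℝ) ^ 2 / (2 * (k + 1)) ≤
        (theta 2 (completeBipartiteGraph (Fin a) (Fin b)) : ℝ) ∧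
      (theta 2 (completeBipartiteGraph (Fin a) (Fin b)) : ℝ) ≤
        (1 + ε) * (4 * (a : ℝ) * b / (k + 1) - (a : ℝ) ^ 2 / (k * (k + 1)) -
          (3 * k + 1) * (b : ℝ) ^ 2 / (2 * (k + 1)))) ∧
    (∀ k : ℕ, 1 ≤ k → ∀ ε : ℝ, 0 < ε → ∃ N : ℕ, ∀ a b : ℕ, N ≤ a →
      2 * k * b ≤ a → a ^ 2 ≤ 2 * k * a * b + (k + 1) * b ^ 2 →
      (4 * k + 2) * (a : ℝ) * b / (k + 1) ^ 2 - (a : ℝ) ^ 2 / (k + 1) ^ 2 -
          (3 * k + 1) * (b : ℝ) ^ 2 / (2 * (k + 1)) ≤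
        (theta 2 (completeBipartiteGraph (Fin a) (Fin b)) : ℝ) ∧
      (theta 2 (completeBipartiteGraph (Fin a) (Fin b)) : ℝ) ≤
        (1 + ε) * ((4 * k + 2) * (a : ℝ) * b / (k + 1) ^ 2 - (a : ℝ) ^ 2 / (k + 1) ^ 2 -
          (3 * k + 1) * (b : ℝ) ^ 2 / (2 * (k + 1)))) ∧
    (∀ a b : ℕ, 1 ≤ b → b ≤ a → ∃ k : ℕ, 1 ≤ k ∧
      ((2 * (k - 1) * a * b + k * b ^ 2 ≤ a ^ 2 ∧ a ≤ 2 * k * b) ∨
        (2 * k * b ≤ a ∧ a ^ 2 ≤ 2 * k * a * b + (k + 1) * b ^ 2))) :=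
  ⟨fun _ hp => ⟨fun _ _ => g_le_theta hp, fun C ε hC hε => upper_uniform hp C ε hC hε⟩,
    fun _ hp ε hε => closedC hp ε hε, fun _ hk ε hε => closedF1 hk ε hε,
    fun _ hk ε hε => closedF2 hk ε hε, cover⟩

end Pool.Agent.Lib61.AsymptoticsAll
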